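import Pool.Agent.H2.Cop.Level

set_option autoImplicit false

/-!
Class-specific second moments of `s7 x = ∑_{p ∣ x, p ≥ 7} 1/p`.
-/

namespace Pool.Agent.H2.Cop

open Finset

/-- Second moment, with a cut-off `z` for the off-diagonal pairs. -/
theorem second_moment_cut (X P : Finset ℕ) (w : ℕ → ℝ) (hw : ∀ p ∈ P, 0 ≤ w p) (a b : ℝ)
    (z : ℕ) (ha : 0 ≤ a)
    (hX1 : ∀ p ∈ P, ((X.filter (fun x => p ∣ x)).card : ℝ) ≤ a / p + b)
    (hX2 : ∀ p ∈ P, ∀ q ∈ P, p ≠ q →
      ((X.filter (fun x => p ∣ x ∧ q ∣ x)).card : ℝ) ≤ a / (p * q) + b)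
    (hX3 : ∀ p ∈ P, ∀ q ∈ P, p ≠ q → ∀ x ∈ X, p ∣ x → q ∣ x → p ≤ z ∧ q ≤ z)
    (hb : 0 ≤ b) :
    ∑ x ∈ X, (∑ p ∈ P.filter (fun p => p ∣ x), w p) ^ 2
      ≤ a * (∑ p ∈ P, w p ^ 2 / p + (∑ p ∈ P, w p / p) ^ 2 - ∑ p ∈ P, (w p / p) ^ 2)
        + b * (∑ p ∈ P, w p ^ 2) + b * (∑ p ∈ P.filter (fun p => p ≤ z), w p) ^ 2 := by
  have h1 : ∀ x ∈ X, (∑ p ∈ P.filter (fun p => p ∣ x), w p) ^ 2
      = ∑ p ∈ P, ∑ q ∈ P, if (p ∣ x ∧ q ∣ x) then w p * w q else 0 := by
    intro x _
    rw [sq, Finset.sum_mul_sum, Finset.sum_filter]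
    apply Finset.sum_congr rfl
    intro p _
    by_cases hp : p ∣ x
    · simp only [hp, if_true, true_and]
      rw [Finset.sum_filter]
    · simp [hp]
  rw [Finset.sum_congr rfl h1, Finset.sum_comm]
  set W : ℕ → ℝ := fun p => if p ≤ z then w p else 0 with hW
  have hWsum : ∑ p ∈ P.filter (fun p => p ≤ z), w p = ∑ p ∈ P, W p := by
    rw [Finset.sum_filter]
  rw [hWsum]
  have hWnn : ∀ p ∈ P, 0 ≤ W p := by
    intro p hp
    simp only [hW]
    split_ifs
    · exact hw p hp
    · exact le_rfl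
  have h2 : ∀ p ∈ P, (∑ x ∈ X, ∑ q ∈ P, if (p ∣ x ∧ q ∣ x) then w p * w q else 0)
      ≤ (a * (w p ^ 2 / p + (∑ q ∈ P, w q / q) * (w p / p) - (w p / p) ^ 2)
        + b * w p ^ 2) + b * (W p * ∑ q ∈ P, W q) := by
    intro p hp
    rw [Finset.sum_comm]
    have h3 : ∀ q ∈ P, (∑ x ∈ X, if (p ∣ x ∧ q ∣ x) then w p * w q else 0)
        ≤ (a * (w p / p * (w q / q)) + b * (W p * W q))
          + (if q = p then a * (w p ^ 2 / p - (w p / p) ^ 2) + b * w p ^ 2 else 0) := by
      intro q hq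
      rw [← Finset.sum_filter, Finset.sum_const, nsmul_eq_mul]
      have hwp := hw p hp
      have hwq := hw q hq
      have hWp := hWnn p hp
      have hWq := hWnn q hq
      by_cases hpq : q = p
      · subst hpq
        simp only [and_self, if_true]
        have := mul_le_mul_of_nonneg_right (hX1 q hq) (mul_nonneg hwp hwp)
        calc ((X.filter (fun x => q ∣ x)).card : ℝ) * (w q * w q)
            ≤ (a / q + b) * (w q * w q) := this
          _ = (a * (w q / q * (w q / q)))
              + (a * (w q ^ 2 / q - (w q / q) ^ 2) + b * w q ^ 2) := by ring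
          _ ≤ _ := by nlinarith [mul_nonneg hb (mul_nonneg hWq hWq)]
      · simp only [hpq, if_false, add_zero]
        have e : a / ((p : ℝ) * q) = a * (1 / p) * (1 / q) := by
          rw [div_eq_mul_inv, mul_inv]; ring
        by_cases hz : p ≤ z ∧ q ≤ z
        · have hWp' : W p = w p := by simp only [hW, hz.1, if_true]
          have hWq' : W q = w q := by simp only [hW, hz.2, if_true]
          have := mul_le_mul_of_nonneg_right (hX2 p hp q hq (fun h => hpq h.symm))
            (mul_nonneg hwp hwq)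
          rw [hWp', hWq']
          refine this.trans (le_of_eq ?_)
          rw [e]; ring
        · have h0 : X.filter (fun x => p ∣ x ∧ q ∣ x) = ∅ := by
            apply Finset.filter_false_of_mem
            intro x hx hcon
            exact hz (hX3 p hp q hq (fun h => hpq h.symm) x hx hcon.1 hcon.2)
          rw [h0]
          simp only [Finset.card_empty, Nat.cast_zero, zero_mul]
          have : 0 ≤ w p / p := by positivity
          have : 0 ≤ w q / q := by positivity
          positivity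
    refine (Finset.sum_le_sum h3).trans (le_of_eq ?_)
    rw [Finset.sum_add_distrib, Finset.sum_ite_eq' P p]
    simp only [hp, if_true]
    rw [Finset.sum_add_distrib, ← Finset.mul_sum, ← Finset.mul_sum, ← Finset.mul_sum,
      ← Finset.mul_sum]
    ring
  refine (Finset.sum_le_sum h2).trans (le_of_eq ?_)
  rw [Finset.sum_add_distrib, Finset.sum_add_distrib, ← Finset.mul_sum, Finset.sum_sub_distrib,
    Finset.sum_add_distrib, ← Finset.mul_sum, ← Finset.mul_sum, ← Finset.mul_sum,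
    ← Finset.sum_mul]
  ring

/-- `∑_{p ∣ x, p ≥ 7} 1/p` -/
noncomputable def s7 (x : ℕ) : ℝ := ∑ p ∈ pf7 x, 1 / (p : ℝ)

lemma s7_nonneg (x : ℕ) : 0 ≤ s7 x := Finset.sum_nonneg (fun p _ => by positivity)

/-- `∑_{7 ≤ p ≤ z} 1/p` -/
noncomputable def S1 (z : ℕ) : ℝ := ∑ p ∈ primes7 z, 1 / (p : ℝ)

lemma S1_nonneg (z : ℕ) : 0 ≤ S1 z := Finset.sum_nonneg (fun p _ => by positivity)

lemma smallPrimes_subset {n : ℕ} (hn : 101 ≤ n) : smallPrimes ⊆ primes7 n := by
  have h : ∀ p ∈ smallPrimes, 7 ≤ p ∧ p ≤ 101 ∧ p.Prime := by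
    unfold smallPrimes
    intro p hp
    simp only [mem_insert, mem_singleton] at hp
    rcases hp with rfl | rfl | rfl | rfl | rfl | rfl | rfl | rfl | rfl | rfl | rfl | rfl | rfl |
      rfl | rfl | rfl | rfl | rfl | rfl | rfl | rfl | rfl <;> norm_num
  intro p hp
  obtain ⟨h1, h2, h3⟩ := h p hp
  simp only [primes7, mem_filter, mem_Icc]
  exact ⟨⟨h1, by omega⟩, h3⟩

/-- The second moment of `s7` over a class with counting parameters `a, b` and cut-off `z`. -/
theorem second7 (X : Finset ℕ) (n z : ℕ) (hn : 101 ≤ n) (a b : ℝ) (ha : 0 ≤ a) (hb : 0 ≤ b)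
    (hX0 : X ⊆ Icc 1 n)
    (hX1 : ∀ p ∈ primes7 n, ((X.filter (fun x => p ∣ x)).card : ℝ) ≤ a / p + b)
    (hX2 : ∀ p ∈ primes7 n, ∀ q ∈ primes7 n, p ≠ q →
      ((X.filter (fun x => p ∣ x ∧ q ∣ x)).card : ℝ) ≤ a / (p * q) + b)
    (hX3 : ∀ p ∈ primes7 n, ∀ q ∈ primes7 n, p ≠ q → ∀ x ∈ X, p ∣ x → q ∣ x → p ≤ z ∧ q ≤ z) :
    ∑ x ∈ X, s7 x ^ 2 ≤ 0.00719 * a + b * (0.05434 + S1 z ^ 2) := by
  have h := second_moment_cut X (primes7 n) (fun p => 1 / (p : ℝ)) (fun p _ => by positivity)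
    a b z ha hX1 hX2 hX3 hb
  have e1 : ∑ x ∈ X, s7 x ^ 2
      = ∑ x ∈ X, (∑ p ∈ (primes7 n).filter (fun p => p ∣ x), 1 / (p : ℝ)) ^ 2 := by
    apply Finset.sum_congr rfl
    intro x hx
    rw [primes7_filter (hX0 hx), s7]
  rw [e1]
  refine h.trans ?_
  have A1 : ∑ p ∈ primes7 n, (1 / (p : ℝ)) ^ 2 / p ≤ 0.00477 := by
    have := sum_inv_cube (primes7 n) primes7_prime primes7_ge
    refine le_trans (le_of_eq ?_) this
    apply Finset.sum_congr rfl
    intro p hp
    have : (p : ℝ) ≠ 0 := by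
      have := primes7_ge p hp
      have : p ≠ 0 := by omega
      exact_mod_cast this
    field_simp
  have A2 : ∑ p ∈ primes7 n, 1 / (p : ℝ) / p ≤ 0.05434 := by
    have := sum_inv_sq (primes7 n) primes7_prime primes7_ge
    refine le_trans (le_of_eq ?_) this
    apply Finset.sum_congr rfl
    intro p hp
    rw [div_div, sq]
  have A2' : 0 ≤ ∑ p ∈ primes7 n, 1 / (p : ℝ) / p :=
    Finset.sum_nonneg (fun p _ => by positivity)
  have A3 : 0.00054 ≤ ∑ p ∈ primes7 n, (1 / (p : ℝ) / p) ^ 2 := by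
    have h3 : ∑ p ∈ smallPrimes, (1 / (p : ℝ) / p) ^ 2
        ≤ ∑ p ∈ primes7 n, (1 / (p : ℝ) / p) ^ 2 :=
      Finset.sum_le_sum_of_subset_of_nonneg (smallPrimes_subset hn)
        (fun p _ _ => by positivity)
    refine le_trans ?_ h3
    simp only [smallPrimes]
    norm_num [Finset.sum_insert]
  have A4 : ∑ p ∈ primes7 n, (1 / (p : ℝ)) ^ 2 ≤ 0.05434 := by
    have := sum_inv_sq (primes7 n) primes7_prime primes7_ge
    refine le_trans (le_of_eq ?_) this
    apply Finset.sum_congr rfl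
    intro p hp
    rw [div_pow, one_pow]
  have A5 : ∑ p ∈ (primes7 n).filter (fun p => p ≤ z), 1 / (p : ℝ) ≤ S1 z := by
    unfold S1
    apply Finset.sum_le_sum_of_subset_of_nonneg
    · intro p hp
      simp only [primes7, mem_filter, mem_Icc] at hp ⊢
      exact ⟨⟨hp.1.1.1, hp.2⟩, hp.1.2⟩
    · intro p _ _; positivity
  have A6 : 0 ≤ ∑ p ∈ (primes7 n).filter (fun p => p ≤ z), 1 / (p : ℝ) :=
    Finset.sum_nonneg (fun p _ => by positivity)
  have A7 : (∑ p ∈ (primes7 n).filter (fun p => p ≤ z), 1 / (p : ℝ)) ^ 2 ≤ S1 z ^ 2 :=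
    pow_le_pow_left₀ A6 A5 2
  have A8 : (∑ p ∈ primes7 n, 1 / (p : ℝ) / p) ^ 2 ≤ 0.05434 ^ 2 := pow_le_pow_left₀ A2' A2 2
  have A9 : a * (∑ p ∈ primes7 n, (1 / (p : ℝ)) ^ 2 / p
      + (∑ p ∈ primes7 n, 1 / (p : ℝ) / p) ^ 2 - ∑ p ∈ primes7 n, (1 / (p : ℝ) / p) ^ 2)
      ≤ a * 0.00719 := by
    apply mul_le_mul_of_nonneg_left _ ha
    have : (0.05434 : ℝ) ^ 2 ≤ 0.002953 := by norm_num
    linarith
  have A10 := mul_le_mul_of_nonneg_left A4 hb
  have A11 := mul_le_mul_of_nonneg_left A7 hb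
  linarith

/-- `∑_{7 ≤ p ≤ z} 1/p ≤ 0.7695 + (1/2) log (z / 99)` -/
theorem S1_le (z : ℕ) (hz : 99 ≤ z) : S1 z ≤ 0.7695 + 1 / 2 * Real.log (z / 99) := by
  unfold S1
  rw [← Finset.sum_filter_add_sum_filter_not (primes7 z) (fun p => p < 101)]
  have h1 : ∑ p ∈ (primes7 z).filter (fun p => p < 101), 1 / (p : ℝ) ≤ 0.7695 := by
    have h2 : ∑ p ∈ (primes7 z).filter (fun p => p < 101), 1 / (p : ℝ)
        ≤ ∑ p ∈ smallPrimes, 1 / (p : ℝ) := by
      apply Finset.sum_le_sum_of_subset_of_nonneg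
      · intro p hp
        rw [mem_filter] at hp
        exact mem_smallPrimes (primes7_prime p hp.1) (primes7_ge p hp.1) hp.2
      · intro p _ _; positivity
    refine h2.trans ?_
    simp only [smallPrimes]
    norm_num [Finset.sum_insert]
  have h3 : ∀ m : ℕ, 101 ≤ m → 1 / (m : ℝ) ≤ 1 / 2 * Real.log (m / ((m : ℝ) - 2)) := by
    intro m hm
    have hm' : (101 : ℝ) ≤ m := by exact_mod_cast hm
    have h4 := Real.one_sub_inv_le_log_of_pos (x := (m : ℝ) / ((m : ℝ) - 2)) (by
      apply div_pos <;> linarith)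
    rw [inv_div] at h4
    have h5 : 1 - ((m : ℝ) - 2) / m = 2 / m := by
      have : (m : ℝ) ≠ 0 := by linarith
      field_simp; ring
    rw [h5] at h4
    have h6 : 1 / (m : ℝ) = 1 / 2 * (2 / m) := by ring
    rw [h6]
    linarith
  have h4 : ∑ p ∈ (primes7 z).filter (fun p => ¬ p < 101), 1 / (p : ℝ)
      ≤ 1 / 2 * Real.log (z / 99) := by
    have h5 := odd_tail ((primes7 z).filter (fun p => ¬ p < 101)) 101
      (fun m => if m ≤ z then 1 / (m : ℝ) else 0)
      (fun m => if m ≤ z + 2 then 1 / 2 * Real.log ((z : ℝ) / ((m : ℝ) - 2)) else 0) (by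
        intro m hm
        rw [mem_filter] at hm
        refine ⟨by omega, ?_⟩
        have := (primes7_prime m hm.1).eq_two_or_odd
        omega) (by
        intro m _
        split_ifs
        · positivity
        · exact le_rfl) (by
        intro m hm
        have hm' : (101 : ℝ) ≤ m := by exact_mod_cast hm
        by_cases hmz : m ≤ z
        · have hzR : (m : ℝ) ≤ z := by exact_mod_cast hmz
          simp only [hmz, if_true, show m ≤ z + 2 from by omega,
            show m + 2 ≤ z + 2 from by omega]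
          have h6 := h3 m hm
          push_cast
          have e : Real.log ((z : ℝ) / ((m : ℝ) - 2)) - Real.log ((z : ℝ) / ((m : ℝ) + 2 - 2))
              = Real.log (m / ((m : ℝ) - 2)) := by
            have e1 : (m : ℝ) + 2 - 2 = m := by ring
            rw [e1, Real.log_div (by linarith) (by linarith), Real.log_div (by linarith)
              (by linarith), Real.log_div (by linarith) (by linarith)]
            ring
          linarith
        · simp only [hmz, if_false]
          have h7 : ¬ m + 2 ≤ z + 2 := by omega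
          simp only [h7, if_false, sub_zero]
          split_ifs with h8
          · have hzR : (m : ℝ) ≤ z + 2 := by exact_mod_cast h8
            have : 0 ≤ Real.log ((z : ℝ) / ((m : ℝ) - 2)) := by
              apply Real.log_nonneg
              rw [le_div_iff₀ (by linarith)]
              linarith
            positivity
          · exact le_rfl) (by
        intro m hm
        have hm' : (101 : ℝ) ≤ m := by exact_mod_cast hm
        split_ifs with h8
        · have hzR : (m : ℝ) ≤ z + 2 := by exact_mod_cast h8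
          have : 0 ≤ Real.log ((z : ℝ) / ((m : ℝ) - 2)) := by
            apply Real.log_nonneg
            rw [le_div_iff₀ (by linarith)]
            linarith
          positivity
        · exact le_rfl)
    have h6 : ∑ m ∈ (primes7 z).filter (fun p => ¬ p < 101), (if m ≤ z then 1 / (m : ℝ) else 0)
        = ∑ p ∈ (primes7 z).filter (fun p => ¬ p < 101), 1 / (p : ℝ) := by
      apply Finset.sum_congr rfl
      intro m hm
      simp only [primes7, mem_filter, mem_Icc] at hm
      simp only [hm.1.1.2, if_true]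
    rw [← h6]
    refine h5.trans (le_of_eq ?_)
    simp only [show (101 : ℕ) ≤ z + 2 from by omega, if_true]
    norm_num
  linarith

end Pool.Agent.H2.Cop
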