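import Pool.Agent.H2.Cop.Second
import Pool.Agent.H15.CG.Basic

set_option autoImplicit false

/-!
Numerical part of the case of many members coprime to 6: how many numbers coprime to 6 have a
large value of `s7`, and how many numbers having a common factor with 6 are coprime to a pair.
-/

namespace Pool.Agent.H2.Cop

open Finset
open Pool.Agent.H15.CG (VS US mem_US mem_VS card_US card_VS)

lemma US_eq (n : ℕ) : US n = (Icc 1 n).filter (fun j => ¬ 2 ∣ j ∧ ¬ 3 ∣ j) := by
  ext x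
  simp only [mem_US, mem_filter, mem_Icc]
  omega

/-- the number of `r ≤ n` coprime to 6 with `s7 r ≥ σ` -/
noncomputable def NB (n : ℕ) (σ : ℝ) : ℕ := ((US n).filter (fun r => σ ≤ s7 r)).card

lemma NB_anti (n : ℕ) {σ τ : ℝ} (h : σ ≤ τ) : NB n τ ≤ NB n σ := by
  apply Finset.card_le_card
  intro x hx
  rw [mem_filter] at hx ⊢
  exact ⟨hx.1, h.trans hx.2⟩

lemma NB_le (n : ℕ) (σ : ℝ) : NB n σ ≤ 2 * (n / 6) + 2 := by
  have h1 : NB n σ ≤ (US n).card := Finset.card_le_card (filter_subset _ _)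
  have h2 := card_US n
  omega

lemma US_count1 (n p : ℕ) (hp : p ∈ primes7 n) :
    (((US n).filter (fun x => p ∣ x)).card : ℝ) ≤ (n / 3 : ℝ) / p + 2 / 3 := by
  have h := count_R (D := {p}) (by
    intro q hq; rw [mem_singleton] at hq; subst hq; exact primes7_prime q hp) (by
    intro q hq; rw [mem_singleton] at hq; subst hq
    have := primes7_ge q hp; omega) n
  rw [US_eq]
  simpa using h

lemma US_count2 (n p q : ℕ) (hp : p ∈ primes7 n) (hq : q ∈ primes7 n) (hpq : p ≠ q) :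
    (((US n).filter (fun x => p ∣ x ∧ q ∣ x)).card : ℝ) ≤ (n / 3 : ℝ) / (p * q) + 2 / 3 := by
  have h := count_R (D := {p, q}) (by
    intro r hr; rw [mem_insert, mem_singleton] at hr
    rcases hr with rfl | rfl
    · exact primes7_prime r hp
    · exact primes7_prime r hq) (by
    intro r hr; rw [mem_insert, mem_singleton] at hr
    rcases hr with rfl | rfl
    · have := primes7_ge r hp; omega
    · have := primes7_ge r hq; omega) n
  rw [US_eq]
  rw [Finset.prod_pair hpq] at h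
  simpa using h

/-- weighted first moment -/
lemma NB_weight (n : ℕ) (w : ℕ → ℝ) (hw0 : ∀ p, 0 ≤ w p) (σ : ℝ)
    (hσ : ∀ r ∈ US n, σ ≤ s7 r → 1 ≤ ∑ p ∈ pf7 r, w p) :
    (NB n σ : ℝ) ≤ ∑ p ∈ primes7 n, w p * ((n / 3 : ℝ) / p + 2 / 3) := by
  have hsub : ∀ x ∈ US n, x ∈ Icc 1 n := by
    intro x hx
    rw [mem_US] at hx
    rw [mem_Icc]; omega
  have h1 : (NB n σ : ℝ) ≤ ∑ x ∈ US n, ∑ p ∈ pf7 x, w p := by
    calc (NB n σ : ℝ) = ∑ x ∈ (US n).filter (fun r => σ ≤ s7 r), (1 : ℝ) := by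
          rw [NB, Finset.sum_const, nsmul_eq_mul, mul_one]
      _ ≤ ∑ x ∈ (US n).filter (fun r => σ ≤ s7 r), ∑ p ∈ pf7 x, w p := by
          apply Finset.sum_le_sum
          intro x hx
          rw [mem_filter] at hx
          exact hσ x hx.1 hx.2
      _ ≤ _ := by
          apply Finset.sum_le_sum_of_subset_of_nonneg (filter_subset _ _)
          intro x _ _
          exact Finset.sum_nonneg (fun p _ => hw0 p)
  have h2 : ∑ x ∈ US n, ∑ p ∈ pf7 x, w p
      = ∑ p ∈ primes7 n, w p * (((US n).filter (fun x => p ∣ x)).card : ℝ) := by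
    have e1 : ∀ x ∈ US n, ∑ p ∈ pf7 x, w p
        = ∑ p ∈ primes7 n, if p ∣ x then w p else 0 := by
      intro x hx
      rw [← primes7_filter (hsub x hx), Finset.sum_filter]
    rw [Finset.sum_congr rfl e1, Finset.sum_comm]
    apply Finset.sum_congr rfl
    intro p _
    rw [← Finset.sum_filter, Finset.sum_const, nsmul_eq_mul, mul_comm]
  rw [h2] at h1
  refine h1.trans ?_
  apply Finset.sum_le_sum
  intro p hp
  exact mul_le_mul_of_nonneg_left (US_count1 n p hp) (hw0 p)

/-- truncated weights -/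
noncomputable def wt (q0 : ℕ) (c : ℝ) (p : ℕ) : ℝ := if p ≤ q0 then 1 else c / p

lemma NB_first (n q0 : ℕ) (hn : 6098 ≤ n) (hq0 : q0 < 101) (c : ℝ) (hc : (q0 : ℝ) ≤ c)
    (hc0 : 0 < c) :
    (NB n (1 / c) : ℝ) ≤ (n / 3 : ℝ) * (∑ p ∈ smallPrimes, wt q0 c p / p + c / 200)
      + 2 / 3 * c * S1 n := by
  have hw0 : ∀ p, 0 ≤ wt q0 c p := by
    intro p; unfold wt; split_ifs
    · norm_num
    · positivity
  have h1 := NB_weight n (wt q0 c) hw0 (1 / c) (by
    intro r _ hr
    by_cases h : ∃ p ∈ pf7 r, p ≤ q0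
    · obtain ⟨p, hp, hpq⟩ := h
      calc (1 : ℝ) = wt q0 c p := by unfold wt; rw [if_pos hpq]
        _ ≤ _ := Finset.single_le_sum (f := wt q0 c) (fun p _ => hw0 p) hp
    · push Not at h
      have e : ∑ p ∈ pf7 r, wt q0 c p = c * s7 r := by
        unfold s7
        rw [Finset.mul_sum]
        apply Finset.sum_congr rfl
        intro p hp
        unfold wt
        rw [if_neg (by have := h p hp; omega)]
        ring
      rw [e]
      have := mul_le_mul_of_nonneg_left hr hc0.le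
      rwa [mul_one_div_cancel hc0.ne'] at this)
  refine h1.trans ?_
  have h2 : ∑ p ∈ primes7 n, wt q0 c p * ((n / 3 : ℝ) / p + 2 / 3)
      = (n / 3 : ℝ) * ∑ p ∈ primes7 n, wt q0 c p / p + 2 / 3 * ∑ p ∈ primes7 n, wt q0 c p := by
    rw [Finset.mul_sum, Finset.mul_sum, ← Finset.sum_add_distrib]
    apply Finset.sum_congr rfl
    intro p _
    ring
  rw [h2]
  have h3 : ∑ p ∈ primes7 n, wt q0 c p / p ≤ ∑ p ∈ smallPrimes, wt q0 c p / p + c / 200 := by
    have h := sum_primes_le (primes7 n) primes7_prime primes7_ge (fun p => wt q0 c p / p)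
      (fun m => c * (1 / (2 * ((m : ℝ) - 1))))
      (fun p _ => div_nonneg (hw0 p) (by positivity)) (by
        intro m hm
        have hm' : (101 : ℝ) ≤ m := by exact_mod_cast hm
        have e : 1 / (2 * ((m : ℝ) - 1)) - 1 / (2 * (((m + 2 : ℕ) : ℝ) - 1))
            = 1 / ((m : ℝ) ^ 2 - 1) := by
          push_cast
          have h1 : (m : ℝ) - 1 ≠ 0 := by linarith
          have h2 : (m : ℝ) + 2 - 1 ≠ 0 := by linarith
          have h3 : (m : ℝ) ^ 2 - 1 ≠ 0 := by nlinarith
          field_simp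
          ring
        rw [← mul_sub, e]
        have e2 : wt q0 c m / m = c * (1 / (m : ℝ) ^ 2) := by
          unfold wt
          rw [if_neg (by omega)]
          field_simp
        simp only [e2]
        apply mul_le_mul_of_nonneg_left _ hc0.le
        apply one_div_le_one_div_of_le <;> nlinarith) (by
        intro m hm
        have hm' : (101 : ℝ) ≤ m := by exact_mod_cast hm
        apply mul_nonneg hc0.le
        apply div_nonneg <;> linarith)
    refine h.trans (le_of_eq ?_)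
    norm_num
    ring
  have h4 : ∑ p ∈ primes7 n, wt q0 c p ≤ c * S1 n := by
    unfold S1
    rw [Finset.mul_sum]
    apply Finset.sum_le_sum
    intro p hp
    have hp7 := primes7_ge p hp
    have hpR : (0 : ℝ) < p := by
      have : 0 < p := by omega
      exact_mod_cast this
    unfold wt
    split_ifs with h
    · rw [mul_one_div, le_div_iff₀ hpR, one_mul]
      have : (p : ℝ) ≤ q0 := by exact_mod_cast h
      linarith
    · rw [mul_one_div]
  have h5 : (0 : ℝ) ≤ n / 3 := by positivity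
  have h6 := mul_le_mul_of_nonneg_left h3 h5
  linarith

lemma log_le_half {x : ℝ} (hx : 0 < x) : Real.log x ≤ Real.log 64 + x / 64 - 1 := by
  have h := Real.log_le_sub_one_of_pos (x := x / 64) (by positivity)
  rw [Real.log_div hx.ne' (by norm_num)] at h
  linarith

lemma log64 : Real.log 64 ≤ 4.15889 := by
  have h : (64 : ℝ) = 2 ^ 6 := by norm_num
  rw [h, Real.log_pow]
  have := Real.log_two_lt_d9
  push_cast
  linarith

lemma log8 : Real.log 8 ≤ 2.07945 := by
  have h : (8 : ℝ) = 2 ^ 3 := by norm_num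
  rw [h, Real.log_pow]
  have := Real.log_two_lt_d9
  push_cast
  linarith

lemma S1_small (n : ℕ) (hn : 6098 ≤ n) : S1 n ≤ 0.0028 * ((n / 6 : ℕ) : ℝ) := by
  have h1 := S1_le n (by omega)
  have h2 := log_le_half (x := (n : ℝ) / 99) (by positivity)
  have h3 := log64
  have h4 : n ≤ 6 * (n / 6) + 5 := by omega
  have h5 : (n : ℝ) ≤ 6 * ((n / 6 : ℕ) : ℝ) + 5 := by exact_mod_cast h4
  have h6 : 1016 ≤ n / 6 := by omega
  have h7 : (1016 : ℝ) ≤ ((n / 6 : ℕ) : ℝ) := by exact_mod_cast h6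
  have h8 : (n : ℝ) / 99 / 64 = n / 6336 := by ring
  rw [h8] at h2
  norm_num at h1 h2 h3 ⊢
  linarith

lemma S1_sq (n : ℕ) (hn : 6098 ≤ n) : S1 (n / 7) ^ 2 ≤ 0.0006 * (n : ℝ) := by
  have h1 := S1_le (n / 7) (by omega)
  have hnR : (6098 : ℝ) ≤ n := by exact_mod_cast hn
  set y : ℝ := Real.sqrt ((n : ℝ) / 5544) with hy
  have hy2 : y ^ 2 = (n : ℝ) / 5544 := Real.sq_sqrt (by positivity)
  have hypos : 0 < y := Real.sqrt_pos.mpr (by positivity)
  have h2 : (((n / 7 : ℕ) : ℝ)) / 99 ≤ (n : ℝ) / 693 := by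
    have : (((n / 7 : ℕ) : ℝ)) ≤ (n : ℝ) / 7 := Nat.cast_div_le
    have e : (n : ℝ) / 693 = (n : ℝ) / 7 / 99 := by ring
    rw [e]
    linarith
  have hpos : 0 < (((n / 7 : ℕ) : ℝ)) / 99 := by
    have : 1 ≤ n / 7 := by omega
    have : (1 : ℝ) ≤ ((n / 7 : ℕ) : ℝ) := by exact_mod_cast this
    positivity
  have h3 : Real.log ((((n / 7 : ℕ) : ℝ)) / 99) ≤ Real.log ((n : ℝ) / 693) :=
    Real.log_le_log hpos h2
  have h4 : Real.log ((n : ℝ) / 693) = 2 * Real.log y + Real.log 8 := by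
    have e : (n : ℝ) / 693 = y ^ 2 * 8 := by rw [hy2]; ring
    rw [e, Real.log_mul (by positivity) (by norm_num), Real.log_pow]
    push_cast; ring
  have h5 : Real.log y ≤ y - 1 := Real.log_le_sub_one_of_pos hypos
  have h6 := log8
  have h7 : S1 (n / 7) ≤ 0.80923 + y := by
    norm_num at h1 h6 ⊢
    linarith
  have h8 : 1.0487 ≤ y := by
    rw [hy]
    apply Real.le_sqrt_of_sq_le
    norm_num
    linarith
  have h9 : S1 (n / 7) ≤ 1.772 * y := by
    norm_num at h7 h8 ⊢
    linarith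
  have h10 : S1 (n / 7) ^ 2 ≤ (1.772 * y) ^ 2 := pow_le_pow_left₀ (S1_nonneg _) h9 2
  refine h10.trans ?_
  rw [mul_pow, hy2]
  norm_num
  linarith

lemma second_US (n : ℕ) (hn : 6098 ≤ n) :
    ∑ x ∈ US n, s7 x ^ 2 ≤ 0.0169 * ((n / 6 : ℕ) : ℝ) := by
  have h := second7 (US n) n (n / 7) (by omega) ((n : ℝ) / 3) (2 / 3) (by positivity)
    (by norm_num) (by
      intro x hx
      rw [mem_US] at hx
      rw [mem_Icc]; omega) (fun p hp => US_count1 n p hp)
    (fun p hp q hq hpq => US_count2 n p q hp hq hpq) (by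
      intro p hp q hq hpq x hx hpx hqx
      rw [mem_US] at hx
      have hp7 := primes7_ge p hp
      have hq7 := primes7_ge q hq
      have hcop : Nat.Coprime p q :=
        (Nat.coprime_primes (primes7_prime p hp) (primes7_prime q hq)).mpr hpq
      have hdvd : p * q ∣ x := hcop.mul_dvd_of_dvd_of_dvd hpx hqx
      have hle := Nat.le_of_dvd (by omega) hdvd
      constructor
      · rw [Nat.le_div_iff_mul_le (by norm_num)]
        nlinarith
      · rw [Nat.le_div_iff_mul_le (by norm_num)]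
        nlinarith)
  have h1 := S1_sq n hn
  have h4 : n ≤ 6 * (n / 6) + 5 := by omega
  have h5 : (n : ℝ) ≤ 6 * ((n / 6 : ℕ) : ℝ) + 5 := by exact_mod_cast h4
  have h6 : 1016 ≤ n / 6 := by omega
  have h7 : (1016 : ℝ) ≤ ((n / 6 : ℕ) : ℝ) := by exact_mod_cast h6
  norm_num at h h1 ⊢
  linarith

lemma NB_second (n : ℕ) (hn : 6098 ≤ n) (t : ℝ) (ht : 0 < t) :
    (NB n t : ℝ) ≤ 0.0169 / t ^ 2 * ((n / 6 : ℕ) : ℝ) := by
  have h := markov (US n) (fun x => s7 x ^ 2) (fun x _ => by positivity) (t ^ 2) (by positivity)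
  have h1 : NB n t ≤ ((US n).filter (fun x => t ^ 2 ≤ s7 x ^ 2)).card := by
    apply Finset.card_le_card
    intro x hx
    rw [mem_filter] at hx ⊢
    exact ⟨hx.1, pow_le_pow_left₀ ht.le hx.2 2⟩
  have h1' : (NB n t : ℝ) ≤ ((US n).filter (fun x => t ^ 2 ≤ s7 x ^ 2)).card := by
    exact_mod_cast h1
  have h2 := second_US n hn
  calc (NB n t : ℝ) ≤ _ := h1'
    _ ≤ _ := h
    _ ≤ (0.0169 * ((n / 6 : ℕ) : ℝ)) / t ^ 2 := by
        apply div_le_div_of_nonneg_right h2 (by positivity)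
    _ = _ := by ring

lemma n3_le (n : ℕ) (hn : 6098 ≤ n) : (n / 3 : ℝ) ≤ 2.00165 * ((n / 6 : ℕ) : ℝ) := by
  have h4 : n ≤ 6 * (n / 6) + 5 := by omega
  have h5 : (n : ℝ) ≤ 6 * ((n / 6 : ℕ) : ℝ) + 5 := by exact_mod_cast h4
  have h6 : 1016 ≤ n / 6 := by omega
  have h7 : (1016 : ℝ) ≤ ((n / 6 : ℕ) : ℝ) := by exact_mod_cast h6
  norm_num
  linarith

lemma NB_35 (n : ℕ) (hn : 6098 ≤ n) : (NB n (1 / 35) : ℝ) ≤ 1.80 * ((n / 6 : ℕ) : ℝ) := by
  have h := NB_first n 31 hn (by norm_num) 35 (by norm_num) (by norm_num)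
  have h1 : ∑ p ∈ smallPrimes, wt 31 35 p / p + 35 / 200 ≤ 0.862 := by
    simp only [smallPrimes, wt]
    norm_num [Finset.sum_insert]
  have h2 := n3_le n hn
  have h3 := S1_small n hn
  have h4 : (0 : ℝ) ≤ n / 3 := by positivity
  have h5 := mul_le_mul_of_nonneg_left h1 h4
  norm_num at h h2 h3 h5 ⊢
  linarith

lemma NB_17 (n : ℕ) (hn : 6098 ≤ n) : (NB n (1 / 17) : ℝ) ≤ 1.33 * ((n / 6 : ℕ) : ℝ) := by
  have h := NB_first n 13 hn (by norm_num) 17 (by norm_num) (by norm_num)
  have h1 : ∑ p ∈ smallPrimes, wt 13 17 p / p + 17 / 200 ≤ 0.6465 := by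
    simp only [smallPrimes, wt]
    norm_num [Finset.sum_insert]
  have h2 := n3_le n hn
  have h3 := S1_small n hn
  have h4 : (0 : ℝ) ≤ n / 3 := by positivity
  have h5 := mul_le_mul_of_nonneg_left h1 h4
  norm_num at h h2 h3 h5 ⊢
  linarith

lemma NB_8 (n : ℕ) (hn : 6098 ≤ n) : (NB n (1 / 8) : ℝ) ≤ 0.85 * ((n / 6 : ℕ) : ℝ) := by
  have h := NB_first n 7 hn (by norm_num) 8 (by norm_num) (by norm_num)
  have h1 : ∑ p ∈ smallPrimes, wt 7 8 p / p + 8 / 200 ≤ 0.4143 := by
    simp only [smallPrimes, wt]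
    norm_num [Finset.sum_insert]
  have h2 := n3_le n hn
  have h3 := S1_small n hn
  have h4 : (0 : ℝ) ≤ n / 3 := by positivity
  have h5 := mul_le_mul_of_nonneg_left h1 h4
  norm_num at h h2 h3 h5 ⊢
  linarith

/-- The main numerical inequality. -/
theorem NB_main (n : ℕ) (hn : 6098 ≤ n) (σ : ℝ) (h4 : 18 * (n / 6) ≤ 100 * NB n σ + 100) :
    (NB n σ : ℝ) ≤ (2.1877 - 6.4 * σ) * ((n / 6 : ℕ) : ℝ) := by
  have h6 : 1016 ≤ n / 6 := by omega
  set K : ℝ := ((n / 6 : ℕ) : ℝ) with hK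
  have h7 : (1016 : ℝ) ≤ K := by rw [hK]; exact_mod_cast h6
  have h4' : 18 * K ≤ 100 * (NB n σ : ℝ) + 100 := by rw [hK]; exact_mod_cast h4
  have key : ∀ t c : ℝ, (NB n t : ℝ) ≤ c * K → t ≤ σ → (NB n σ : ℝ) ≤ c * K := by
    intro t c hc ht
    have : (NB n σ : ℝ) ≤ NB n t := by exact_mod_cast NB_anti n ht
    linarith
  have fin : ∀ c s : ℝ, (NB n σ : ℝ) ≤ c * K → σ ≤ s → c ≤ 2.1877 - 6.4 * s →
      (NB n σ : ℝ) ≤ (2.1877 - 6.4 * σ) * K := by
    intro c s h1 h2 h3
    have : c * K ≤ (2.1877 - 6.4 * σ) * K := by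
      apply mul_le_mul_of_nonneg_right _ (by linarith)
      linarith
    linarith
  rcases lt_or_ge σ (1 / 35) with hs | hs
  · apply fin 2.002 (1 / 35) _ hs.le (by norm_num)
    have h8 : (NB n σ : ℝ) ≤ 2 * K + 2 := by
      rw [hK]; exact_mod_cast NB_le n σ
    norm_num
    linarith
  · rcases lt_or_ge σ (1 / 17) with hs2 | hs2
    · exact fin 1.80 (1 / 17) (key (1 / 35) _ (NB_35 n hn) hs) hs2.le (by norm_num)
    · rcases lt_or_ge σ (1 / 8) with hs3 | hs3
      · exact fin 1.33 (1 / 8) (key (1 / 17) _ (NB_17 n hn) hs2) hs3.le (by norm_num)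
      · rcases lt_or_ge σ (1 / 5) with hs4 | hs4
        · exact fin 0.85 (1 / 5) (key (1 / 8) _ (NB_8 n hn) hs3) hs4.le (by norm_num)
        · rcases lt_or_ge σ 0.27 with hs5 | hs5
          · have h9 := NB_second n hn (1 / 5) (by norm_num)
            apply fin 0.4225 0.27 _ hs5.le (by norm_num)
            apply key (1 / 5) _ _ hs4
            norm_num at h9 ⊢
            linarith
          · rcases lt_or_ge σ 0.3 with hs6 | hs6
            · have h9 := NB_second n hn 0.27 (by norm_num)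
              apply fin 0.232 0.3 _ hs6.le (by norm_num)
              apply key 0.27 _ _ hs5
              norm_num at h9 ⊢
              linarith
            · rcases lt_or_ge σ 0.31 with hs7 | hs7
              · have h9 := NB_second n hn 0.3 (by norm_num)
                apply fin 0.188 0.31 _ hs7.le (by norm_num)
                apply key 0.3 _ _ hs6
                norm_num at h9 ⊢
                linarith
              · exfalso
                have h9 := NB_second n hn 0.31 (by norm_num)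
                have h10 : (NB n σ : ℝ) ≤ 0.1759 * K := by
                  apply key 0.31 _ _ hs7
                  norm_num at h9 ⊢
                  linarith
                norm_num at h10
                linarith

end Pool.Agent.H2.Cop
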