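import Pool.Agent.H2.Cop.C2c

set_option autoImplicit false

/-!
The case of many missing even numbers: assembly.
-/

namespace Pool.Agent.H2.Cop

open Finset
open Pool.Agent.H15.CG (US TS ES EV VS ecop vcop NL mem_US mem_TS mem_ES mem_VS HasCyc)

lemma NL_mono (n : ℕ) (lev : ℕ → ℝ) {z w : ℝ} (h : z ≤ w) : NL n lev z ≤ NL n lev w := by
  unfold NL
  apply Finset.card_le_card
  intro x hx
  rw [mem_filter] at hx ⊢
  exact ⟨hx.1, hx.2.trans h⟩

/-- same class, `a` harder -/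
lemma H2_aux {n a b : ℕ} (hn : 6098 ≤ n) (C w : ℝ) (hC0 : 0 < C) (ha : Cc a = C) (hb : Cc b = C)
    (hab : lv n a ≤ lv n b) (hw : 0 ≤ w)
    (h : 0 ≤ 1 - s7 a - s7 b → ((n / 6 : ℕ) : ℝ) * (C * (1 - s7 a - s7 b) - 0.009) ≤ w) :
    lv n a ≤ w := by
  have h7 := M_ge n hn
  unfold lv at hab ⊢
  rw [ha] at hab ⊢
  rw [hb] at hab
  set M : ℝ := ((n / 6 : ℕ) : ℝ) with hM
  have h1 := le_of_mul_le_mul_left hab (by linarith)
  have h2 : C * s7 b ≤ C * s7 a := by linarith
  have h3 : s7 b ≤ s7 a := le_of_mul_le_mul_left h2 hC0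
  by_cases hs : 0 ≤ 1 - 2 * s7 a
  · have h4 := h (by linarith)
    refine le_trans ?_ h4
    apply mul_le_mul_of_nonneg_left _ (by linarith)
    have h5 : C * (1 - 2 * s7 a) ≤ C * (1 - s7 a - s7 b) :=
      mul_le_mul_of_nonneg_left (by linarith) hC0.le
    norm_num
    linarith
  · push Not at hs
    refine le_trans ?_ hw
    apply mul_nonpos_of_nonneg_of_nonpos (by linarith)
    have : C * (1 - 2 * s7 a) < 0 := mul_neg_of_pos_of_neg hC0 hs
    norm_num
    linarith

lemma H2T (n : ℕ) (hn : 6098 ≤ n) : ∀ a ∈ TS n, ∀ b ∈ TS n, (5 ∣ a ↔ 5 ∣ b) →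
    lv n a ≤ lv n b → lv n a ≤ ((ecop n a b).card : ℝ) := by
  intro a ha b hb h5 hab
  have ha' := mem_union_right (US n) ha
  have hb' := mem_union_right (US n) hb
  rw [mem_TS] at ha hb
  have ha3 : 3 ∣ a := by omega
  have hb3 : 3 ∣ b := by omega
  by_cases ha5 : 5 ∣ a
  · have hb5 := h5.mp ha5
    exact H2_aux hn 1.6 _ (by norm_num) (by unfold Cc; rw [if_pos ha3, if_pos ha5])
      (by unfold Cc; rw [if_pos hb3, if_pos hb5]) hab (by positivity)
      (fun hs => ecop_any n hn a b ha' hb' hs)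
  · have hb5 : ¬ 5 ∣ b := fun h => ha5 (h5.mpr h)
    exact H2_aux hn 2 _ (by norm_num) (by unfold Cc; rw [if_pos ha3, if_neg ha5])
      (by unfold Cc; rw [if_pos hb3, if_neg hb5]) hab (by positivity)
      (fun hs => ecop_no5 n hn a b ha' hb' ha5 hb5 hs)

lemma H2R (n : ℕ) (hn : 6098 ≤ n) : ∀ a ∈ US n, ∀ b ∈ US n, (5 ∣ a ↔ 5 ∣ b) →
    lv n a ≤ lv n b → lv n a ≤ ((vcop n a b).card : ℝ) := by
  intro a ha b hb h5 hab
  have ha0 := ha
  have hb0 := hb
  rw [mem_US] at ha0 hb0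
  have ha3 : ¬ 3 ∣ a := by omega
  have hb3 : ¬ 3 ∣ b := by omega
  by_cases ha5 : 5 ∣ a
  · have hb5 := h5.mp ha5
    exact H2_aux hn 2.4 _ (by norm_num) (by unfold Cc; rw [if_neg ha3, if_pos ha5])
      (by unfold Cc; rw [if_neg hb3, if_pos hb5]) hab (by positivity)
      (fun hs => vcop_any n hn a b ha hb hs)
  · have hb5 : ¬ 5 ∣ b := fun h => ha5 (h5.mpr h)
    exact H2_aux hn 3 _ (by norm_num) (by unfold Cc; rw [if_neg ha3, if_neg ha5])
      (by unfold Cc; rw [if_neg hb3, if_neg hb5]) hab (by positivity)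
      (fun hs => vcop_no5 n hn a b ha hb ha5 hb5 hs)

lemma lv_ge {n a : ℕ} (hn : 6098 ≤ n) {y : ℝ}
    (h : y * ((n / 6 : ℕ) : ℝ) ≤ lv n a) : y + 0.01 ≤ Cc a * (1 - 2 * s7 a) := by
  have h7 := M_ge n hn
  unfold lv at h
  rw [mul_comm y] at h
  have h1 := le_of_mul_le_mul_left h (by linarith)
  linarith

lemma availT (n : ℕ) (hn : 6098 ≤ n) (y : ℝ) (hy : 0 ≤ y) (a b : ℕ) (ha : a ∈ US n ∪ TS n)
    (hb : b ∈ US n ∪ TS n) (hT : a ∈ TS n ∨ b ∈ TS n)
    (hya : y * ((n / 6 : ℕ) : ℝ) ≤ lv n a) (hyb : y * ((n / 6 : ℕ) : ℝ) ≤ lv n b) :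
    (11 / 15 * (y + 0.01) - 0.009) * ((n / 6 : ℕ) : ℝ) ≤ ((ecop n a b).card : ℝ) := by
  have h7 := M_ge n hn
  have h1 := lv_ge hn hya
  have h2 := lv_ge hn hyb
  have hT3 : 3 ∣ a ∨ 3 ∣ b := by
    rcases hT with h | h
    · left; rw [mem_TS] at h; omega
    · right; rw [mem_TS] at h; omega
  have key : ∀ c w : ℝ, 0 ≤ w → ((n / 6 : ℕ) : ℝ) * (c - 0.009) ≤ w →
      11 / 15 * (y + 0.01) ≤ c → (11 / 15 * (y + 0.01) - 0.009) * ((n / 6 : ℕ) : ℝ) ≤ w := by
    intro c w _ h3 h4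
    refine le_trans ?_ h3
    rw [mul_comm]
    apply mul_le_mul_of_nonneg_left _ (by linarith)
    linarith
  unfold Cc at h1 h2
  by_cases a5 : 5 ∣ a
  · by_cases a3 : 3 ∣ a <;> by_cases b3 : 3 ∣ b <;> by_cases b5 : 5 ∣ b
    all_goals
      simp only [a3, a5, b3, b5, if_true, if_false] at h1 h2
      first
      | (exfalso; tauto)
      | (have hs : 0 ≤ 1 - s7 a - s7 b := by norm_num at h1 h2; linarith
         apply key _ _ (by positivity) (ecop_any n hn a b ha hb hs)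
         norm_num at h1 h2 ⊢
         linarith)
  · by_cases b5 : 5 ∣ b
    · by_cases a3 : 3 ∣ a <;> by_cases b3 : 3 ∣ b
      all_goals
        simp only [a3, a5, b3, b5, if_true, if_false] at h1 h2
        first
        | (exfalso; tauto)
        | (have hs : 0 ≤ 1 - s7 a - s7 b := by norm_num at h1 h2; linarith
           apply key _ _ (by positivity) (ecop_any n hn a b ha hb hs)
           norm_num at h1 h2 ⊢
           linarith)
    · by_cases a3 : 3 ∣ a <;> by_cases b3 : 3 ∣ b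
      all_goals
        simp only [a3, a5, b3, b5, if_true, if_false] at h1 h2
        first
        | (exfalso; tauto)
        | (have hs : 0 ≤ 1 - s7 a - s7 b := by norm_num at h1 h2; linarith
           apply key _ _ (by positivity) (ecop_no5 n hn a b ha hb a5 b5 hs)
           norm_num at h1 h2 ⊢
           linarith)

lemma availR (n : ℕ) (hn : 6098 ≤ n) (y : ℝ) (hy : 0 ≤ y) (a b : ℕ) (ha : a ∈ US n)
    (hb : b ∈ US n)
    (hya : y * ((n / 6 : ℕ) : ℝ) ≤ lv n a) (hyb : y * ((n / 6 : ℕ) : ℝ) ≤ lv n b) :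
    (11 / 15 * (y + 0.01) - 0.009) * ((n / 6 : ℕ) : ℝ) ≤ ((vcop n a b).card : ℝ) := by
  have h7 := M_ge n hn
  have h1 := lv_ge hn hya
  have h2 := lv_ge hn hyb
  have key : ∀ c w : ℝ, 0 ≤ w → ((n / 6 : ℕ) : ℝ) * (c - 0.009) ≤ w →
      11 / 15 * (y + 0.01) ≤ c → (11 / 15 * (y + 0.01) - 0.009) * ((n / 6 : ℕ) : ℝ) ≤ w := by
    intro c w _ h3 h4
    refine le_trans ?_ h3
    rw [mul_comm]
    apply mul_le_mul_of_nonneg_left _ (by linarith)
    linarith
  have ha0 := ha
  have hb0 := hb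
  rw [mem_US] at ha0 hb0
  have a3 : ¬ 3 ∣ a := by omega
  have b3 : ¬ 3 ∣ b := by omega
  unfold Cc at h1 h2
  by_cases a5 : 5 ∣ a <;> by_cases b5 : 5 ∣ b
  all_goals
    simp only [a3, a5, b3, b5, if_true, if_false] at h1 h2
    have hs : 0 ≤ 1 - s7 a - s7 b := by norm_num at h1 h2; linarith
    apply key _ _ (by positivity) (vcop_any n hn a b ha hb hs)
    norm_num at h1 h2 ⊢
    linarith

/-- Lower bounds for availability given that neither end is discarded. -/
lemma H4_aux (n : ℕ) (hn : 6098 ≤ n) (x : ℕ) (hx1 : 13 * (n / 6) < 20 * x)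
    (hx2 : 100 * x < 118 * (n / 6)) (a b w : ℕ)
    (hxa : x < NL n (lv n) (lv n a)) (hxb : x < NL n (lv n) (lv n b))
    (hav : ∀ y : ℝ, 0 ≤ y → y * ((n / 6 : ℕ) : ℝ) ≤ lv n a → y * ((n / 6 : ℕ) : ℝ) ≤ lv n b →
      (11 / 15 * (y + 0.01) - 0.009) * ((n / 6 : ℕ) : ℝ) ≤ (w : ℝ)) :
    x + 5 ≤ w := by
  have h7 := M_ge n hn
  set M : ℝ := ((n / 6 : ℕ) : ℝ) with hM
  have hx1' : 13 * M < 20 * (x : ℝ) := by rw [hM]; exact_mod_cast hx1
  have hx2' : 100 * (x : ℝ) < 118 * M := by rw [hM]; exact_mod_cast hx2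
  have hlow : ∀ y F : ℝ, (NL n (lv n) (y * M) : ℝ) ≤ F * M →
      (y * M ≤ lv n a ∧ y * M ≤ lv n b) ∨ (x : ℝ) ≤ F * M := by
    intro y F hF
    by_cases h1 : y * M ≤ lv n a
    · by_cases h2 : y * M ≤ lv n b
      · exact Or.inl ⟨h1, h2⟩
      · right
        push Not at h2
        have h3 := NL_mono n (lv n) h2.le
        have h4 : (x : ℝ) ≤ NL n (lv n) (y * M) := by
          exact_mod_cast (hxb.le.trans h3)
        linarith
    · right
      push Not at h1
      have h3 := NL_mono n (lv n) h1.le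
      have h4 : (x : ℝ) ≤ NL n (lv n) (y * M) := by
        exact_mod_cast (hxa.le.trans h3)
      linarith
  have hfin : (x : ℝ) + 5 ≤ w := by
    rcases hlow 1.62 1.07 (NL_162 n hn) with ⟨h1, h2⟩ | h1
    · have h3 := hav 1.62 (by norm_num) h1 h2
      norm_num at h3
      linarith
    · rcases hlow 1.48 0.909 (NL_148 n hn) with ⟨h2, h3⟩ | h2
      · have h4 := hav 1.48 (by norm_num) h2 h3
        norm_num at h1 h4
        linarith
      · rcases hlow 1.265 0.642 (NL_1265 n hn) with ⟨h3, h4⟩ | h3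
        · have h5 := hav 1.265 (by norm_num) h3 h4
          norm_num at h2 h5
          linarith
        · exfalso
          norm_num at h3
          linarith
  exact_mod_cast hfin

/-- Many missing even numbers. -/
theorem largeC2 (n : ℕ) (hn : 6098 ≤ n) (A : Finset ℕ) (hA : A ⊆ Icc 1 n)
    (hc : A.card = n / 2 + n / 3 - n / 6 + 1)
    (hx : 13 * (n / 6) < 20 * (EV n \ A).card)
    (hR : 100 * (A ∩ US n).card < 118 * (n / 6))
    (K : ℕ) (hK : 1 ≤ K) (hK2 : 2 * K ≤ n / 3) : HasCyc A (2 * K + 1) := by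
  classical
  have hmu := card_VS_sdiff n A hA hc
  have hsub : (EV n \ A).card ≤ (VS n \ A).card := by
    apply Finset.card_le_card
    intro v hv
    rw [mem_sdiff, EV, mem_filter, mem_Icc] at hv
    rw [mem_sdiff, mem_VS]
    exact ⟨⟨hv.1.1.1, hv.1.1.2, by omega⟩, hv.2⟩
  have hx2 : 100 * (EV n \ A).card < 118 * (n / 6) := by omega
  refine Pool.Agent.H15.CG.skeleton (by omega) hA hc hK hK2 (lv n) (H2T n hn) (H2R n hn) ?_ ?_ ?_
  · intro a _ hxa
    set x := (EV n \ A).card with hxdef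
    have h7 := M_ge n hn
    set M : ℝ := ((n / 6 : ℕ) : ℝ) with hM
    have hx1' : 13 * M < 20 * (x : ℝ) := by rw [hM]; exact_mod_cast hx
    have hx2' : 100 * (x : ℝ) < 118 * M := by rw [hM]; exact_mod_cast hx2
    have hup : ∀ y F : ℝ, lv n a < y * M → (NL n (lv n) (y * M) : ℝ) ≤ F * M →
        (NL n (lv n) (lv n a) : ℝ) ≤ F * M := by
      intro y F h1 h2
      have h3 := NL_mono n (lv n) h1.le
      have h4 : (NL n (lv n) (lv n a) : ℝ) ≤ NL n (lv n) (y * M) := by exact_mod_cast h3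
      linarith
    rcases lt_or_ge (lv n a) (2.18 * M) with h1 | h1
    · left
      rcases lt_or_ge (lv n a) (2.01 * M) with h2 | h2
      · rcases lt_or_ge (lv n a) (1.82 * M) with h3 | h3
        · rcases lt_or_ge (lv n a) (1.48 * M) with h4 | h4
          · rcases lt_or_ge (lv n a) (1.265 * M) with h5 | h5
            · exfalso
              have h6 := hup _ _ h5 (NL_1265 n hn)
              have h8 : (x : ℝ) < NL n (lv n) (lv n a) := by exact_mod_cast hxa
              norm_num at h6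
              linarith
            · have h6 := hup _ _ h4 (NL_148 n hn)
              norm_num at h5 h6
              linarith
          · have h6 := hup _ _ h3 (NL_182 n hn)
            norm_num at h4 h6
            linarith
        · have h6 := hup _ _ h2 (NL_201 n hn)
          norm_num at h3 h6
          linarith
      · have h6 := hup _ _ h1 (NL_218 n hn)
        norm_num at h2 h6
        linarith
    · right
      norm_num at h1
      linarith
  · intro a ha b hb hT hxa hxb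
    exact H4_aux n hn _ hx hx2 a b _ hxa hxb
      (fun y hy h1 h2 => availT n hn y hy a b ha hb hT h1 h2)
  · intro a ha b hb hxa hxb
    exact H4_aux n hn _ hx hx2 a b _ hxa hxb
      (fun y hy h1 h2 => availR n hn y hy a b ha hb h1 h2)

/-- The case of more than `0.65 n / 6` missing even numbers, complete. -/
theorem largeC2' (n : ℕ) (hn : 6098 ≤ n) (A : Finset ℕ) (hA : A ⊆ Icc 1 n)
    (hc : A.card = n / 2 + n / 3 - n / 6 + 1)
    (hx : 13 * (n / 6) < 20 * (EV n \ A).card)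
    (K : ℕ) (hK : 1 ≤ K) (hK2 : 2 * K ≤ n / 3) : HasCyc A (2 * K + 1) := by
  rcases Nat.lt_or_ge (100 * (A ∩ US n).card) (118 * (n / 6)) with h | h
  · exact largeC2 n hn A hA hc hx h K hK hK2
  · exact largeB118 n hn A hA hc h K hK hK2

end Pool.Agent.H2.Cop
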