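import Pool.Agent.H2.Cop.StratB2

set_option autoImplicit false

/-!
Counting numbers with a large value of `s7` in the four classes of odd numbers: multiples of 3 or
not, multiples of 5 or not.
-/

namespace Pool.Agent.H2.Cop

open Finset
open Pool.Agent.H15.CG (US TS mem_US mem_TS)

/-- counting parameters of a class of numbers -/
structure ClassB (X : Finset ℕ) (n : ℕ) (a b : ℝ) : Prop where
  sub : X ⊆ Icc 1 n
  ha : 0 ≤ a
  hb : 0 ≤ b
  cnt : ∀ D ⊆ primes7 n,
    ((X.filter (fun x => ∀ p ∈ D, p ∣ x)).card : ℝ) ≤ a / (∏ p ∈ D, (p : ℝ)) + b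

namespace ClassB

variable {X : Finset ℕ} {n : ℕ} {a b : ℝ}

lemma size (h : ClassB X n a b) : (X.card : ℝ) ≤ a + b := by
  have := h.cnt ∅ (by simp)
  simpa using this

lemma one (h : ClassB X n a b) (p : ℕ) (hp : p ∈ primes7 n) :
    ((X.filter (fun x => p ∣ x)).card : ℝ) ≤ a / p + b := by
  have := h.cnt {p} (by simpa using hp)
  simpa using this

lemma two (h : ClassB X n a b) (p : ℕ) (hp : p ∈ primes7 n) (q : ℕ) (hq : q ∈ primes7 n)
    (hpq : p ≠ q) : ((X.filter (fun x => p ∣ x ∧ q ∣ x)).card : ℝ) ≤ a / (p * q) + b := by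
  have := h.cnt {p, q} (by
    intro r hr; rw [mem_insert, mem_singleton] at hr
    rcases hr with rfl | rfl
    · exact hp
    · exact hq)
  rw [Finset.prod_pair hpq] at this
  simpa using this

lemma weight (h : ClassB X n a b) (w : ℕ → ℝ) (hw0 : ∀ p, 0 ≤ w p) (σ : ℝ)
    (hσ : ∀ r ∈ X, σ ≤ s7 r → 1 ≤ ∑ p ∈ pf7 r, w p) :
    ((X.filter (fun r => σ ≤ s7 r)).card : ℝ) ≤ ∑ p ∈ primes7 n, w p * (a / p + b) := by
  have h1 : ((X.filter (fun r => σ ≤ s7 r)).card : ℝ) ≤ ∑ x ∈ X, ∑ p ∈ pf7 x, w p := by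
    calc ((X.filter (fun r => σ ≤ s7 r)).card : ℝ)
        = ∑ x ∈ X.filter (fun r => σ ≤ s7 r), (1 : ℝ) := by
          rw [Finset.sum_const, nsmul_eq_mul, mul_one]
      _ ≤ ∑ x ∈ X.filter (fun r => σ ≤ s7 r), ∑ p ∈ pf7 x, w p := by
          apply Finset.sum_le_sum
          intro x hx
          rw [mem_filter] at hx
          exact hσ x hx.1 hx.2
      _ ≤ _ := by
          apply Finset.sum_le_sum_of_subset_of_nonneg (filter_subset _ _)
          intro x _ _
          exact Finset.sum_nonneg (fun p _ => hw0 p)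
  have h2 : ∑ x ∈ X, ∑ p ∈ pf7 x, w p
      = ∑ p ∈ primes7 n, w p * ((X.filter (fun x => p ∣ x)).card : ℝ) := by
    have e1 : ∀ x ∈ X, ∑ p ∈ pf7 x, w p
        = ∑ p ∈ primes7 n, if p ∣ x then w p else 0 := by
      intro x hx
      rw [← primes7_filter (h.sub hx), Finset.sum_filter]
    rw [Finset.sum_congr rfl e1, Finset.sum_comm]
    apply Finset.sum_congr rfl
    intro p _
    rw [← Finset.sum_filter, Finset.sum_const, nsmul_eq_mul, mul_comm]
  rw [h2] at h1
  refine h1.trans ?_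
  apply Finset.sum_le_sum
  intro p hp
  exact mul_le_mul_of_nonneg_left (h.one p hp) (hw0 p)

lemma first (h : ClassB X n a b) (q0 : ℕ) (hq0 : q0 < 101) (c : ℝ) (hc : (q0 : ℝ) ≤ c)
    (hc0 : 0 < c) :
    ((X.filter (fun r => 1 / c ≤ s7 r)).card : ℝ)
      ≤ a * (∑ p ∈ smallPrimes, wt q0 c p / p + c / 200) + b * c * S1 n := by
  have hw0 : ∀ p, 0 ≤ wt q0 c p := by
    intro p; unfold wt; split_ifs
    · norm_num
    · positivity
  have h1 := h.weight (wt q0 c) hw0 (1 / c) (by
    intro r _ hr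
    by_cases h : ∃ p ∈ pf7 r, p ≤ q0
    · obtain ⟨p, hp, hpq⟩ := h
      calc (1 : ℝ) = wt q0 c p := by unfold wt; rw [if_pos hpq]
        _ ≤ _ := Finset.single_le_sum (f := wt q0 c) (fun p _ => hw0 p) hp
    · push Not at h
      have e : ∑ p ∈ pf7 r, wt q0 c p = c * s7 r := by
        unfold s7
        rw [Finset.mul_sum]
        apply Finset.sum_congr rfl
        intro p hp
        unfold wt
        rw [if_neg (by have := h p hp; omega)]
        ring
      rw [e]
      have := mul_le_mul_of_nonneg_left hr hc0.le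
      rwa [mul_one_div_cancel hc0.ne'] at this)
  refine h1.trans ?_
  have h2 : ∑ p ∈ primes7 n, wt q0 c p * (a / p + b)
      = a * ∑ p ∈ primes7 n, wt q0 c p / p + b * ∑ p ∈ primes7 n, wt q0 c p := by
    rw [Finset.mul_sum, Finset.mul_sum, ← Finset.sum_add_distrib]
    apply Finset.sum_congr rfl
    intro p _
    ring
  rw [h2]
  have h3 : ∑ p ∈ primes7 n, wt q0 c p / p ≤ ∑ p ∈ smallPrimes, wt q0 c p / p + c / 200 := by
    have h := sum_primes_le (primes7 n) primes7_prime primes7_ge (fun p => wt q0 c p / p)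
      (fun m => c * (1 / (2 * ((m : ℝ) - 1))))
      (fun p _ => div_nonneg (hw0 p) (by positivity)) (by
        intro m hm
        have hm' : (101 : ℝ) ≤ m := by exact_mod_cast hm
        have e : 1 / (2 * ((m : ℝ) - 1)) - 1 / (2 * (((m + 2 : ℕ) : ℝ) - 1))
            = 1 / ((m : ℝ) ^ 2 - 1) := by
          push_cast
          have h1 : (m : ℝ) - 1 ≠ 0 := by linarith
          have h2 : (m : ℝ) + 2 - 1 ≠ 0 := by linarith
          have h3 : (m : ℝ) ^ 2 - 1 ≠ 0 := by nlinarith
          field_simp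
          ring
        rw [← mul_sub, e]
        have e2 : wt q0 c m / m = c * (1 / (m : ℝ) ^ 2) := by
          unfold wt
          rw [if_neg (by omega)]
          field_simp
        simp only [e2]
        apply mul_le_mul_of_nonneg_left _ hc0.le
        apply one_div_le_one_div_of_le <;> nlinarith) (by
        intro m hm
        have hm' : (101 : ℝ) ≤ m := by exact_mod_cast hm
        apply mul_nonneg hc0.le
        apply div_nonneg <;> linarith)
    refine h.trans (le_of_eq ?_)
    norm_num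
    ring
  have h4 : ∑ p ∈ primes7 n, wt q0 c p ≤ c * S1 n := by
    unfold S1
    rw [Finset.mul_sum]
    apply Finset.sum_le_sum
    intro p hp
    have hp7 := primes7_ge p hp
    have hpR : (0 : ℝ) < p := by
      have : 0 < p := by omega
      exact_mod_cast this
    unfold wt
    split_ifs with h
    · rw [mul_one_div, le_div_iff₀ hpR, one_mul]
      have : (p : ℝ) ≤ q0 := by exact_mod_cast h
      linarith
    · rw [mul_one_div]
  have h6 := mul_le_mul_of_nonneg_left h3 h.ha
  have h7 := mul_le_mul_of_nonneg_left h4 h.hb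
  linarith

lemma second (h : ClassB X n a b) (hn : 6098 ≤ n) (t : ℝ) (ht : 0 < t) :
    ((X.filter (fun r => t ≤ s7 r)).card : ℝ)
      ≤ (0.00719 * a + b * (0.05434 + 0.0006 * n)) / t ^ 2 := by
  have h0 := second7 X n (n / 7) (by omega) a b h.ha h.hb h.sub h.one
    (fun p hp q hq hpq => h.two p hp q hq hpq) (by
      intro p hp q hq hpq x hx hpx hqx
      have hx' := mem_Icc.mp (h.sub hx)
      have hp7 := primes7_ge p hp
      have hq7 := primes7_ge q hq
      have hcop : Nat.Coprime p q :=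
        (Nat.coprime_primes (primes7_prime p hp) (primes7_prime q hq)).mpr hpq
      have hdvd : p * q ∣ x := hcop.mul_dvd_of_dvd_of_dvd hpx hqx
      have hle := Nat.le_of_dvd (by omega) hdvd
      constructor
      · rw [Nat.le_div_iff_mul_le (by norm_num)]
        nlinarith
      · rw [Nat.le_div_iff_mul_le (by norm_num)]
        nlinarith)
  have h1 := markov X (fun x => s7 x ^ 2) (fun x _ => by positivity) (t ^ 2) (by positivity)
  have h2 : (X.filter (fun r => t ≤ s7 r)).card ≤ (X.filter (fun x => t ^ 2 ≤ s7 x ^ 2)).card := by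
    apply Finset.card_le_card
    intro x hx
    rw [mem_filter] at hx ⊢
    exact ⟨hx.1, pow_le_pow_left₀ ht.le hx.2 2⟩
  have h2' : ((X.filter (fun r => t ≤ s7 r)).card : ℝ)
      ≤ (X.filter (fun x => t ^ 2 ≤ s7 x ^ 2)).card := by exact_mod_cast h2
  have h3 := S1_sq n hn
  have h4 : b * (0.05434 + S1 (n / 7) ^ 2) ≤ b * (0.05434 + 0.0006 * n) := by
    apply mul_le_mul_of_nonneg_left _ h.hb
    linarith
  calc _ ≤ _ := h2'
    _ ≤ _ := h1
    _ ≤ _ := by
        apply div_le_div_of_nonneg_right _ (by positivity)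
        linarith

end ClassB

/-! ### The four classes -/

def T5 (n : ℕ) : Finset ℕ := (TS n).filter (fun x => 5 ∣ x)
def T0 (n : ℕ) : Finset ℕ := (TS n).filter (fun x => ¬ 5 ∣ x)
def R5 (n : ℕ) : Finset ℕ := (US n).filter (fun x => 5 ∣ x)
def R0 (n : ℕ) : Finset ℕ := (US n).filter (fun x => ¬ 5 ∣ x)

lemma TS_eq (n : ℕ) : TS n = (Icc 1 n).filter (fun j => 3 ∣ j ∧ ¬ 2 ∣ j) := by
  ext x
  simp only [mem_TS, mem_filter, mem_Icc]
  omega

lemma five_notMem {n : ℕ} {D : Finset ℕ} (hD : D ⊆ primes7 n) : 5 ∉ D := by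
  intro h
  have := primes7_ge 5 (hD h)
  omega

lemma class_T5 (n : ℕ) : ClassB (T5 n) n (1 / 30 * n) (1 / 2) := by
  refine ⟨?_, by positivity, by norm_num, ?_⟩
  · intro x hx
    rw [T5, mem_filter, mem_TS] at hx
    rw [mem_Icc]; omega
  · intro D hD
    obtain ⟨D', hD'⟩ : ∃ D' : Finset ℕ, D' = insert 5 D := ⟨_, rfl⟩
    have h := count_T (D := D') (by
      intro p hp
      rw [hD'] at hp
      rcases mem_insert.mp hp with rfl | hp
      · norm_num
      · exact primes7_prime p (hD hp)) (by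
      intro p hp
      rw [hD'] at hp
      rcases mem_insert.mp hp with rfl | hp
      · norm_num
      · have := primes7_ge p (hD hp); omega) n
    have e : ((T5 n).filter (fun x => ∀ p ∈ D, p ∣ x))
        = ((Icc 1 n).filter (fun j => 3 ∣ j ∧ ¬ 2 ∣ j)).filter
          (fun x => ∀ p ∈ D', p ∣ x) := by
      rw [T5, TS_eq]
      ext x
      simp only [mem_filter, hD', mem_insert, forall_eq_or_imp]
      tauto
    rw [← e, hD', Finset.prod_insert (five_notMem hD)] at h
    refine h.trans (le_of_eq ?_)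
    have e2 : (n : ℝ) / 6 / (((5 : ℕ) : ℝ) * ∏ p ∈ D, (p : ℝ))
        = 1 / 30 * n / ∏ p ∈ D, (p : ℝ) := by
      rw [← div_div]; congr 1; push_cast; ring
    rw [e2]

lemma class_R5 (n : ℕ) : ClassB (R5 n) n (1 / 15 * n) (2 / 3) := by
  refine ⟨?_, by positivity, by norm_num, ?_⟩
  · intro x hx
    rw [R5, mem_filter, mem_US] at hx
    rw [mem_Icc]; omega
  · intro D hD
    obtain ⟨D', hD'⟩ : ∃ D' : Finset ℕ, D' = insert 5 D := ⟨_, rfl⟩
    have h := count_R (D := D') (by
      intro p hp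
      rw [hD'] at hp
      rcases mem_insert.mp hp with rfl | hp
      · norm_num
      · exact primes7_prime p (hD hp)) (by
      intro p hp
      rw [hD'] at hp
      rcases mem_insert.mp hp with rfl | hp
      · norm_num
      · have := primes7_ge p (hD hp); omega) n
    have e : ((R5 n).filter (fun x => ∀ p ∈ D, p ∣ x))
        = ((Icc 1 n).filter (fun j => ¬ 2 ∣ j ∧ ¬ 3 ∣ j)).filter
          (fun x => ∀ p ∈ D', p ∣ x) := by
      rw [R5, US_eq]
      ext x
      simp only [mem_filter, hD', mem_insert, forall_eq_or_imp]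
      tauto
    rw [← e, hD', Finset.prod_insert (five_notMem hD)] at h
    refine h.trans (le_of_eq ?_)
    have e2 : (n : ℝ) / 3 / (((5 : ℕ) : ℝ) * ∏ p ∈ D, (p : ℝ))
        = 1 / 15 * n / ∏ p ∈ D, (p : ℝ) := by
      rw [← div_div]; congr 1; push_cast; ring
    rw [e2]

lemma cop5 (y : ℕ) : cop {5} y + y / 5 = y := by
  have := cop_insert (P := ∅) (p := 5) (by simp) (by norm_num) (by simp) y
  simpa [cop_empty] using this

lemma cop3 (y : ℕ) : cop {3} y + y / 3 = y := by
  have := cop_insert (P := ∅) (p := 3) (by simp) (by norm_num) (by simp) y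
  simpa [cop_empty] using this

lemma cop25 (y : ℕ) : cop {2, 5} y + cop {5} (y / 2) = cop {5} y :=
  cop_insert (P := {5}) (p := 2) (by simp; norm_num) (by norm_num) (by simp) y

lemma cop35 (y : ℕ) : cop {3, 5} y + cop {5} (y / 3) = cop {5} y :=
  cop_insert (P := {5}) (p := 3) (by simp; norm_num) (by norm_num) (by simp) y

lemma cop235 (y : ℕ) : cop {2, 3, 5} y + cop {3, 5} (y / 2) = cop {3, 5} y :=
  cop_insert (P := {3, 5}) (p := 2) (by simp; norm_num) (by norm_num) (by simp) y

lemma cop25_le (y : ℕ) : 5 * cop {2, 5} y ≤ 2 * y + 4 := by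
  obtain ⟨q, r, hr, rfl⟩ : ∃ q r, r < 10 ∧ y = 10 * q + r :=
    ⟨y / 10, y % 10, Nat.mod_lt _ (by norm_num), by omega⟩
  have h1 := cop25 (10 * q + r)
  have h2 := cop5 (10 * q + r)
  have h3 := cop5 ((10 * q + r) / 2)
  have e1 : (10 * q + r) / 2 = 5 * q + r / 2 := by omega
  have e2 : (10 * q + r) / 5 = 2 * q + r / 5 := by omega
  have e3 : (5 * q + r / 2) / 5 = q + r / 2 / 5 := by omega
  rw [e1] at h1 h3
  rw [e2] at h2
  rw [e3] at h3
  interval_cases r <;> omega

lemma cop235_le (y : ℕ) : 15 * cop {2, 3, 5} y ≤ 4 * y + 14 := by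
  obtain ⟨q, r, hr, rfl⟩ : ∃ q r, r < 30 ∧ y = 30 * q + r :=
    ⟨y / 30, y % 30, Nat.mod_lt _ (by norm_num), by omega⟩
  have h1 := cop235 (30 * q + r)
  have h2 := cop35 (30 * q + r)
  have h3 := cop35 ((30 * q + r) / 2)
  have h4 := cop5 (30 * q + r)
  have h5 := cop5 ((30 * q + r) / 3)
  have h6 := cop5 ((30 * q + r) / 2)
  have h7 := cop5 ((30 * q + r) / 2 / 3)
  have e1 : (30 * q + r) / 2 = 15 * q + r / 2 := by omega
  have e2 : (30 * q + r) / 3 = 10 * q + r / 3 := by omega
  have e3 : (15 * q + r / 2) / 3 = 5 * q + r / 2 / 3 := by omega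
  have e4 : (30 * q + r) / 5 = 6 * q + r / 5 := by omega
  have e5 : (15 * q + r / 2) / 5 = 3 * q + r / 2 / 5 := by omega
  have e6 : (10 * q + r / 3) / 5 = 2 * q + r / 3 / 5 := by omega
  have e7 : (5 * q + r / 2 / 3) / 5 = q + r / 2 / 3 / 5 := by omega
  rw [e1] at h1 h3 h6 h7
  rw [e2] at h2 h5
  rw [e3] at h3 h7
  rw [e4] at h4
  rw [e5] at h6
  rw [e6] at h5
  rw [e7] at h7
  interval_cases r <;> omega

lemma class_T0 (n : ℕ) : ClassB (T0 n) n (2 / 15 * n) (4 / 5) := by
  refine ⟨?_, by positivity, by norm_num, ?_⟩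
  · intro x hx
    rw [T0, mem_filter, mem_TS] at hx
    rw [mem_Icc]; omega
  · intro D hD
    have hDp : ∀ p ∈ D, p.Prime := fun p hp => primes7_prime p (hD hp)
    have hD7 : ∀ p ∈ D, 7 ≤ p := fun p hp => primes7_ge p (hD hp)
    have hd := prod_primes_pos hDp
    set d := ∏ p ∈ D, p with hdef
    have h2d : ¬ 2 ∣ d := prod_not_dvd hDp (fun p hp => by have := hD7 p hp; omega)
      Nat.prime_two (by norm_num)
    have h3d : ¬ 3 ∣ d := prod_not_dvd hDp (fun p hp => by have := hD7 p hp; omega)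
      Nat.prime_three (by norm_num)
    have h5d : ¬ 5 ∣ d := by
      intro h
      obtain ⟨p, hp, hqp⟩ := (Nat.prime_five.prime.dvd_finsetProd_iff _).mp h
      have := (Nat.prime_dvd_prime_iff_eq Nat.prime_five (hDp p hp)).mp hqp
      have := hD7 p hp
      omega
    have hcop3 : Nat.Coprime 3 d := (Nat.Prime.coprime_iff_not_dvd Nat.prime_three).mpr h3d
    have h1 : (T0 n).filter (fun x => ∀ p ∈ D, p ∣ x)
        = (Icc 1 n).filter (fun j => (3 * d) ∣ j ∧ Avoids {2, 5} j) := by
      rw [T0, TS_eq]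
      ext x
      simp only [mem_filter, forall_prime_dvd_iff hDp, Avoids, mem_insert, mem_singleton,
        forall_eq_or_imp, forall_eq]
      constructor
      · rintro ⟨⟨⟨h1, h3, h2⟩, h5⟩, h4⟩
        exact ⟨h1, hcop3.mul_dvd_of_dvd_of_dvd h3 h4, h2, h5⟩
      · rintro ⟨h1, h3, h2, h5⟩
        exact ⟨⟨⟨h1, (dvd_mul_right 3 d).trans h3, h2⟩, h5⟩, (dvd_mul_left d 3).trans h3⟩
    rw [h1, card_mul_avoids {2, 5} _ n (by positivity) (by simp; norm_num) (by
      simp only [mem_insert, mem_singleton, forall_eq_or_imp, forall_eq]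
      constructor
      · intro h
        rcases Nat.prime_two.dvd_mul.mp h with h | h
        · norm_num at h
        · exact h2d h
      · intro h
        rcases Nat.prime_five.dvd_mul.mp h with h | h
        · norm_num at h
        · exact h5d h)]
    have h3 := cop25_le (n / (3 * d))
    have h4 : (5 : ℝ) * cop {2, 5} (n / (3 * d)) ≤ 2 * ((n / (3 * d) : ℕ) : ℝ) + 4 := by
      exact_mod_cast h3
    have h5' : ((n / (3 * d) : ℕ) : ℝ) ≤ (n : ℝ) / ((3 * d : ℕ) : ℝ) := Nat.cast_div_le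
    have h6 : (∏ p ∈ D, (p : ℝ)) = (d : ℝ) := by rw [hdef]; push_cast; rfl
    rw [h6]
    push_cast at h5'
    have hdR : (0 : ℝ) < d := by exact_mod_cast hd
    have h7 : (n : ℝ) / (3 * d) = 5 / 2 * (2 / 15 * n / d) := by field_simp; ring
    rw [h7] at h5'
    linarith

lemma class_R0 (n : ℕ) : ClassB (R0 n) n (4 / 15 * n) (14 / 15) := by
  refine ⟨?_, by positivity, by norm_num, ?_⟩
  · intro x hx
    rw [R0, mem_filter, mem_US] at hx
    rw [mem_Icc]; omega
  · intro D hD
    have hDp : ∀ p ∈ D, p.Prime := fun p hp => primes7_prime p (hD hp)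
    have hD7 : ∀ p ∈ D, 7 ≤ p := fun p hp => primes7_ge p (hD hp)
    have hd := prod_primes_pos hDp
    set d := ∏ p ∈ D, p with hdef
    have h2d : ¬ 2 ∣ d := prod_not_dvd hDp (fun p hp => by have := hD7 p hp; omega)
      Nat.prime_two (by norm_num)
    have h3d : ¬ 3 ∣ d := prod_not_dvd hDp (fun p hp => by have := hD7 p hp; omega)
      Nat.prime_three (by norm_num)
    have h5d : ¬ 5 ∣ d := by
      intro h
      obtain ⟨p, hp, hqp⟩ := (Nat.prime_five.prime.dvd_finsetProd_iff _).mp h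
      have := (Nat.prime_dvd_prime_iff_eq Nat.prime_five (hDp p hp)).mp hqp
      have := hD7 p hp
      omega
    have h1 : (R0 n).filter (fun x => ∀ p ∈ D, p ∣ x)
        = (Icc 1 n).filter (fun j => d ∣ j ∧ Avoids {2, 3, 5} j) := by
      rw [R0, US_eq]
      ext x
      simp only [mem_filter, forall_prime_dvd_iff hDp, Avoids, mem_insert, mem_singleton,
        forall_eq_or_imp, forall_eq]
      tauto
    rw [h1, card_mul_avoids {2, 3, 5} _ n hd (by simp; norm_num) (by
      simp only [mem_insert, mem_singleton, forall_eq_or_imp, forall_eq]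
      exact ⟨h2d, h3d, h5d⟩)]
    have h3 := cop235_le (n / d)
    have h4 : (15 : ℝ) * cop {2, 3, 5} (n / d) ≤ 4 * ((n / d : ℕ) : ℝ) + 14 := by
      exact_mod_cast h3
    have h5' : ((n / d : ℕ) : ℝ) ≤ (n : ℝ) / d := Nat.cast_div_le
    have h6 : (∏ p ∈ D, (p : ℝ)) = (d : ℝ) := by rw [hdef]; push_cast; rfl
    rw [h6]
    have hdR : (0 : ℝ) < d := by exact_mod_cast hd
    have h7 : (n : ℝ) / d = 15 / 4 * (4 / 15 * n / d) := by field_simp
    rw [h7] at h5'
    linarith

end Pool.Agent.H2.Cop
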