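import Pool.Agent.H2.Cop.C2a
import Pool.Agent.H15.CG.Skeleton

set_option autoImplicit false

/-!
Availability of even connectors (linear bounds) and the level function.
-/

namespace Pool.Agent.H2.Cop

open Finset
open Pool.Agent.H15.CG (US TS ES EV ecop vcop NL mem_US mem_TS mem_ES)

/-- General lower bound for the number of elements avoiding the primes of `a` and `b`. -/
theorem avoid_lower (n : ℕ) (Q : ℕ → Prop) [DecidablePred Q]
    (hQ : ∀ p y, p.Prime → 7 ≤ p → (Q (p * y) ↔ Q y)) (α c1 c2 : ℝ)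
    (h1 : α * n - c1 ≤ (((Icc 1 n).filter Q).card : ℝ))
    (h2 : ∀ m : ℕ, (((Icc 1 m).filter Q).card : ℝ) ≤ α * m + c2) (hα : 0 ≤ α) (hc2 : 0 ≤ c2)
    (a b : ℕ) (W : Finset ℕ)
    (hW : ∀ v ∈ (Icc 1 n).filter Q, (∀ p ∈ pf7 a ∪ pf7 b, ¬ p ∣ v) → v ∈ W) :
    α * n * (1 - s7 a - s7 b) - c1 - c2 * ((pf7 a).card + (pf7 b).card) ≤ (W.card : ℝ) := by
  classical
  set P := pf7 a ∪ pf7 b with hP
  set G := (Icc 1 n).filter Q with hG
  have hPp : ∀ p ∈ P, p.Prime := by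
    intro p hp
    rw [hP, mem_union] at hp
    rcases hp with h | h
    · exact pf7_prime p h
    · exact pf7_prime p h
  have hP7 : ∀ p ∈ P, 7 ≤ p := by
    intro p hp
    rw [hP, mem_union] at hp
    rcases hp with h | h
    · exact pf7_ge p h
    · exact pf7_ge p h
  have h3 : G ⊆ W ∪ P.biUnion (fun p => G.filter (fun v => p ∣ v)) := by
    intro v hv
    by_cases h : ∃ p ∈ P, p ∣ v
    · obtain ⟨p, hp, hpv⟩ := h
      rw [mem_union, mem_biUnion]
      right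
      exact ⟨p, hp, mem_filter.mpr ⟨hv, hpv⟩⟩
    · push Not at h
      rw [mem_union]
      left
      exact hW v hv h
  have h4 : ∀ p ∈ P, (G.filter (fun v => p ∣ v)).card = ((Icc 1 (n / p)).filter Q).card := by
    intro p hp
    have h4 := card_mul_filter n p (hPp p hp).pos Q
    rw [hG, Finset.filter_filter]
    have e1 : (Icc 1 n).filter (fun a => Q a ∧ p ∣ a)
        = (Icc 1 n).filter (fun x => p ∣ x ∧ Q x) := by
      apply Finset.filter_congr
      intro x _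
      tauto
    rw [e1, h4]
    congr 1
    apply Finset.filter_congr
    intro x _
    exact hQ p x (hPp p hp) (hP7 p hp)
  have h5 : G.card ≤ W.card + ∑ p ∈ P, ((Icc 1 (n / p)).filter Q).card := by
    calc G.card ≤ _ := Finset.card_le_card h3
      _ ≤ _ := Finset.card_union_le _ _
      _ ≤ W.card + ∑ p ∈ P, (G.filter (fun v => p ∣ v)).card := by
          gcongr
          exact Finset.card_biUnion_le
      _ = _ := by
          congr 1
          exact Finset.sum_congr rfl h4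
  have h6 : (G.card : ℝ) ≤ W.card + ∑ p ∈ P, (((Icc 1 (n / p)).filter Q).card : ℝ) := by
    exact_mod_cast h5
  have h7 : ∀ p ∈ P, (((Icc 1 (n / p)).filter Q).card : ℝ) ≤ α * n * (1 / p) + c2 := by
    intro p _
    have h8 := h2 (n / p)
    have h9 : ((n / p : ℕ) : ℝ) ≤ (n : ℝ) / p := Nat.cast_div_le
    have h10 := mul_le_mul_of_nonneg_left h9 hα
    have e : α * ((n : ℝ) / p) = α * n * (1 / p) := by ring
    rw [e] at h10
    linarith
  have h8 := Finset.sum_le_sum h7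
  rw [Finset.sum_add_distrib, ← Finset.mul_sum, Finset.sum_const, nsmul_eq_mul] at h8
  have h9 : ∑ p ∈ P, 1 / (p : ℝ) ≤ s7 a + s7 b := by
    have h7 := Finset.sum_union_inter (s₁ := pf7 a) (s₂ := pf7 b) (f := fun p => 1 / (p : ℝ))
    have h8 : 0 ≤ ∑ p ∈ pf7 a ∩ pf7 b, 1 / (p : ℝ) := Finset.sum_nonneg (fun p _ => by positivity)
    unfold s7
    linarith
  have h10 : (P.card : ℝ) ≤ (pf7 a).card + (pf7 b).card := by
    exact_mod_cast Finset.card_union_le _ _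
  have h11 := mul_le_mul_of_nonneg_left h9 (show (0 : ℝ) ≤ α * n by positivity)
  have h12 := mul_le_mul_of_nonneg_left h10 hc2
  nlinarith

/-- odd `x` and `v` without common prime factors `2, 3, 5` -/
lemma coprime_of_pf7' {x v : ℕ} (_ : 0 < x) (h2 : ¬ 2 ∣ x) (h3 : ¬ 3 ∣ x ∨ ¬ 3 ∣ v)
    (h5 : ¬ 5 ∣ x ∨ ¬ 5 ∣ v) (h : ∀ p ∈ pf7 x, ¬ p ∣ v) : Nat.Coprime x v := by
  apply Nat.coprime_of_dvd
  intro q hq hqx hqv
  have hq2 : q ≠ 2 := by rintro rfl; exact h2 hqx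
  have hq3 : q ≠ 3 := by rintro rfl; tauto
  have hq5 : q ≠ 5 := by rintro rfl; tauto
  have hq7 : 7 ≤ q := by
    by_contra hlt
    push Not at hlt
    have := hq.two_le
    interval_cases q
    · exact hq2 rfl
    · exact hq3 rfl
    · exact absurd hq (by norm_num)
    · exact hq5 rfl
    · exact absurd hq (by norm_num)
  apply h q _ hqv
  rw [pf7, mem_filter, Nat.mem_primeFactors]
  exact ⟨⟨hq, hqx, by omega⟩, hq7⟩

lemma dvd_mul_prime_iff {q p : ℕ} (hq : q.Prime) (hp : p.Prime) (hqp : q ≠ p) (y : ℕ) :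
    q ∣ p * y ↔ q ∣ y := by
  have hc : Nat.Coprime q p := (Nat.coprime_primes hq hp).mpr hqp
  exact hc.dvd_mul_left

lemma pf7_card_le' (n : ℕ) (hn : 6098 ≤ n) (x : ℕ) (hx1 : 1 ≤ x) (hx : x ≤ n) :
    250 * (pf7 x).card ≤ n / 6 := by
  have h1 : 7 ^ (pf7 x).card ≤ n := by
    calc 7 ^ (pf7 x).card = ∏ p ∈ pf7 x, 7 := by rw [Finset.prod_const]
      _ ≤ ∏ p ∈ pf7 x, p := Finset.prod_le_prod' (fun p hp => pf7_ge p hp)
      _ ≤ ∏ p ∈ x.primeFactors, p := by
          apply Finset.prod_le_prod_of_subset_of_one_le' (filter_subset _ _)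
          intro p hp _
          exact (Nat.prime_of_mem_primeFactors hp).one_le
      _ ≤ x := Nat.le_of_dvd (by omega) (Nat.prod_primeFactors_dvd x)
      _ ≤ n := hx
  rcases Nat.lt_or_ge (pf7 x).card 5 with h | h
  · omega
  · have h2 : ∀ k : ℕ, 1500 * (5 + k) + 6 ≤ 7 ^ (5 + k) := by
      intro k
      induction k with
      | zero => norm_num
      | succ k ih =>
        rw [show 5 + (k + 1) = (5 + k) + 1 from rfl, pow_succ]
        omega
    have h3 := h2 ((pf7 x).card - 5)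
    have e : 5 + ((pf7 x).card - 5) = (pf7 x).card := by omega
    rw [e] at h3
    omega

lemma qE0 (m : ℕ) : 3 * ((Icc 1 m).filter (fun j => 2 ∣ j ∧ ¬ 3 ∣ j)).card + 1 ≥ m ∧
    3 * ((Icc 1 m).filter (fun j => 2 ∣ j ∧ ¬ 3 ∣ j)).card ≤ m + 2 := by
  have h := card_E ∅ m (by simp) (by simp)
  have e : (Icc 1 m).filter (fun j => 2 ∣ j ∧ ¬ 3 ∣ j ∧ Avoids ∅ j)
      = (Icc 1 m).filter (fun j => 2 ∣ j ∧ ¬ 3 ∣ j) := by
    apply Finset.filter_congr
    intro x _
    simp [Avoids]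
  rw [e] at h
  have h1 := cop3 (m / 2)
  have h2 : cop (insert 3 ∅) (m / 2) = cop {3} (m / 2) := rfl
  rw [h2] at h
  omega

lemma qE5 (m : ℕ) : 15 * ((Icc 1 m).filter (fun j => 2 ∣ j ∧ ¬ 3 ∣ j ∧ ¬ 5 ∣ j)).card + 10 ≥ 4 * m ∧
    15 * ((Icc 1 m).filter (fun j => 2 ∣ j ∧ ¬ 3 ∣ j ∧ ¬ 5 ∣ j)).card ≤ 4 * m + 14 := by
  have h := card_E {5} m (by simp; norm_num) (by simp)
  have e : (Icc 1 m).filter (fun j => 2 ∣ j ∧ ¬ 3 ∣ j ∧ Avoids {5} j)
      = (Icc 1 m).filter (fun j => 2 ∣ j ∧ ¬ 3 ∣ j ∧ ¬ 5 ∣ j) := by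
    apply Finset.filter_congr
    intro x _
    simp [Avoids]
  rw [e] at h
  have h2 : cop (insert 3 {5}) (m / 2) = cop {3, 5} (m / 2) := rfl
  rw [h2] at h
  rw [h]
  obtain ⟨q, r, hr, rfl⟩ : ∃ q r, r < 30 ∧ m = 30 * q + r :=
    ⟨m / 30, m % 30, Nat.mod_lt _ (by norm_num), by omega⟩
  have e1 : (30 * q + r) / 2 = 15 * q + r / 2 := by omega
  rw [e1]
  have g1 := cop35 (15 * q + r / 2)
  have g2 := cop5 (15 * q + r / 2)
  have g3 := cop5 ((15 * q + r / 2) / 3)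
  have e2 : (15 * q + r / 2) / 3 = 5 * q + r / 2 / 3 := by omega
  have e3 : (15 * q + r / 2) / 5 = 3 * q + r / 2 / 5 := by omega
  have e4 : (5 * q + r / 2 / 3) / 5 = q + r / 2 / 3 / 5 := by omega
  rw [e2] at g1 g3
  rw [e3] at g2
  rw [e4] at g3
  interval_cases r <;> omega

lemma qV0 (m : ℕ) : 2 * ((Icc 1 m).filter (fun j => 2 ∣ j)).card + 1 ≥ m ∧
    2 * ((Icc 1 m).filter (fun j => 2 ∣ j)).card ≤ m := by
  have h := card_even ∅ m (by simp) (by simp)
  have e : (Icc 1 m).filter (fun j => 2 ∣ j ∧ Avoids ∅ j)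
      = (Icc 1 m).filter (fun j => 2 ∣ j) := by
    apply Finset.filter_congr
    intro x _
    simp [Avoids]
  rw [e, cop_empty] at h
  omega

lemma qV5 (m : ℕ) : 5 * ((Icc 1 m).filter (fun j => 2 ∣ j ∧ ¬ 5 ∣ j)).card + 2 ≥ 2 * m ∧
    5 * ((Icc 1 m).filter (fun j => 2 ∣ j ∧ ¬ 5 ∣ j)).card ≤ 2 * m + 4 := by
  have h := card_even {5} m (by simp; norm_num) (by simp)
  have e : (Icc 1 m).filter (fun j => 2 ∣ j ∧ Avoids {5} j)
      = (Icc 1 m).filter (fun j => 2 ∣ j ∧ ¬ 5 ∣ j) := by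
    apply Finset.filter_congr
    intro x _
    simp [Avoids]
  rw [e] at h
  rw [h]
  obtain ⟨q, r, hr, rfl⟩ : ∃ q r, r < 10 ∧ m = 10 * q + r :=
    ⟨m / 10, m % 10, Nat.mod_lt _ (by norm_num), by omega⟩
  have e1 : (10 * q + r) / 2 = 5 * q + r / 2 := by omega
  have g2 := cop5 (5 * q + r / 2)
  have e3 : (5 * q + r / 2) / 5 = q + r / 2 / 5 := by omega
  rw [e1]
  rw [e3] at g2
  interval_cases r <;> omega

/-- Availability in units of `n / 6`. -/
lemma avail_units (n : ℕ) (hn : 6098 ≤ n) (a b : ℕ) (ha1 : 1 ≤ a) (ha : a ≤ n) (hb1 : 1 ≤ b)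
    (hb : b ≤ n) (α c1 c2 w : ℝ) (hα : 0 ≤ α) (hc1 : c1 ≤ 2 / 3) (hc2 : c2 ≤ 14 / 15)
    (h : α * n * (1 - s7 a - s7 b) - c1 - c2 * ((pf7 a).card + (pf7 b).card) ≤ w)
    (hs : 0 ≤ 1 - s7 a - s7 b) :
    ((n / 6 : ℕ) : ℝ) * (6 * α * (1 - s7 a - s7 b) - 0.009) ≤ w := by
  have h3 := pf7_card_le' n hn a ha1 ha
  have h5 := pf7_card_le' n hn b hb1 hb
  have h6 : 1016 ≤ n / 6 := by omega
  set K : ℝ := ((n / 6 : ℕ) : ℝ) with hK
  have h7 : (1016 : ℝ) ≤ K := by rw [hK]; exact_mod_cast h6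
  have h8 : (250 : ℝ) * (pf7 a).card ≤ K := by rw [hK]; exact_mod_cast h3
  have h9 : (250 : ℝ) * (pf7 b).card ≤ K := by rw [hK]; exact_mod_cast h5
  have h10 : 6 * K ≤ n := by
    rw [hK]
    have : 6 * (n / 6) ≤ n := Nat.mul_div_le n 6
    exact_mod_cast this
  have h11 : α * (6 * K) * (1 - s7 a - s7 b) ≤ α * n * (1 - s7 a - s7 b) := by
    apply mul_le_mul_of_nonneg_right _ hs
    exact mul_le_mul_of_nonneg_left h10 hα
  have h12 : c2 * (((pf7 a).card : ℝ) + (pf7 b).card) ≤ 14 / 15 * (K / 125) := by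
    have h13 : ((pf7 a).card : ℝ) + (pf7 b).card ≤ K / 125 := by linarith
    have h14 : (0 : ℝ) ≤ ((pf7 a).card : ℝ) + (pf7 b).card := by positivity
    calc c2 * (((pf7 a).card : ℝ) + (pf7 b).card)
        ≤ 14 / 15 * (((pf7 a).card : ℝ) + (pf7 b).card) :=
          mul_le_mul_of_nonneg_right hc2 h14
      _ ≤ _ := mul_le_mul_of_nonneg_left h13 (by norm_num)
  have h15 : K * (6 * α * (1 - s7 a - s7 b) - 0.009)
      = α * (6 * K) * (1 - s7 a - s7 b) - 0.009 * K := by ring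
  rw [h15]
  norm_num
  linarith

lemma ecop_any (n : ℕ) (hn : 6098 ≤ n) (a b : ℕ) (ha : a ∈ US n ∪ TS n) (hb : b ∈ US n ∪ TS n)
    (hs : 0 ≤ 1 - s7 a - s7 b) :
    ((n / 6 : ℕ) : ℝ) * (1.6 * (1 - s7 a - s7 b) - 0.009) ≤ ((ecop n a b).card : ℝ) := by
  rw [mem_union, mem_US, mem_TS] at ha hb
  have h := avoid_lower n (fun j => 2 ∣ j ∧ ¬ 3 ∣ j ∧ ¬ 5 ∣ j) (by
      intro p y hp hp7
      rw [dvd_mul_prime_iff Nat.prime_two hp (by omega),
        dvd_mul_prime_iff Nat.prime_three hp (by omega),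
        dvd_mul_prime_iff Nat.prime_five hp (by omega)]) (4 / 15) (2 / 3) (14 / 15) (by
      have h1 := (qE5 n).1
      have h2 : (4 : ℝ) * n ≤ 15 * ((Icc 1 n).filter (fun j => 2 ∣ j ∧ ¬ 3 ∣ j ∧ ¬ 5 ∣ j)).card + 10 := by
        exact_mod_cast h1
      linarith) (by
      intro m
      have h1 := (qE5 m).2
      have h2 : (15 : ℝ) * ((Icc 1 m).filter (fun j => 2 ∣ j ∧ ¬ 3 ∣ j ∧ ¬ 5 ∣ j)).card
          ≤ 4 * m + 14 := by
        exact_mod_cast h1
      linarith) (by norm_num) (by norm_num) a b (ecop n a b) (by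
      intro v hv hp
      rw [mem_filter, mem_Icc] at hv
      rw [ecop, mem_filter, mem_ES]
      refine ⟨by omega, ?_, ?_⟩
      · exact coprime_of_pf7' (by omega) (by omega) (Or.inr hv.2.2.1) (Or.inr hv.2.2.2)
          (fun p hp' => hp p (mem_union_left _ hp'))
      · exact (coprime_of_pf7' (by omega) (by omega) (Or.inr hv.2.2.1) (Or.inr hv.2.2.2)
          (fun p hp' => hp p (mem_union_right _ hp'))).symm)
  have h2 := avail_units n hn a b (by omega) (by omega) (by omega) (by omega) (4 / 15) (2 / 3)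
    (14 / 15) _ (by norm_num) (by norm_num) (by norm_num) h hs
  norm_num at h2 ⊢
  linarith

lemma ecop_no5 (n : ℕ) (hn : 6098 ≤ n) (a b : ℕ) (ha : a ∈ US n ∪ TS n) (hb : b ∈ US n ∪ TS n)
    (ha5 : ¬ 5 ∣ a) (hb5 : ¬ 5 ∣ b) (hs : 0 ≤ 1 - s7 a - s7 b) :
    ((n / 6 : ℕ) : ℝ) * (2 * (1 - s7 a - s7 b) - 0.009) ≤ ((ecop n a b).card : ℝ) := by
  rw [mem_union, mem_US, mem_TS] at ha hb
  have h := avoid_lower n (fun j => 2 ∣ j ∧ ¬ 3 ∣ j) (by
      intro p y hp hp7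
      rw [dvd_mul_prime_iff Nat.prime_two hp (by omega),
        dvd_mul_prime_iff Nat.prime_three hp (by omega)]) (1 / 3) (1 / 3) (2 / 3) (by
      have h1 := (qE0 n).1
      have h2 : (n : ℝ) ≤ 3 * ((Icc 1 n).filter (fun j => 2 ∣ j ∧ ¬ 3 ∣ j)).card + 1 := by
        exact_mod_cast h1
      linarith) (by
      intro m
      have h1 := (qE0 m).2
      have h2 : (3 : ℝ) * ((Icc 1 m).filter (fun j => 2 ∣ j ∧ ¬ 3 ∣ j)).card ≤ m + 2 := by
        exact_mod_cast h1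
      linarith) (by norm_num) (by norm_num) a b (ecop n a b) (by
      intro v hv hp
      rw [mem_filter, mem_Icc] at hv
      rw [ecop, mem_filter, mem_ES]
      refine ⟨by omega, ?_, ?_⟩
      · exact coprime_of_pf7' (by omega) (by omega) (Or.inr hv.2.2) (Or.inl ha5)
          (fun p hp' => hp p (mem_union_left _ hp'))
      · exact (coprime_of_pf7' (by omega) (by omega) (Or.inr hv.2.2) (Or.inl hb5)
          (fun p hp' => hp p (mem_union_right _ hp'))).symm)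
  have h2 := avail_units n hn a b (by omega) (by omega) (by omega) (by omega) (1 / 3) (1 / 3)
    (2 / 3) _ (by norm_num) (by norm_num) (by norm_num) h hs
  norm_num at h2 ⊢
  linarith

lemma vcop_any (n : ℕ) (hn : 6098 ≤ n) (a b : ℕ) (ha : a ∈ US n) (hb : b ∈ US n)
    (hs : 0 ≤ 1 - s7 a - s7 b) :
    ((n / 6 : ℕ) : ℝ) * (2.4 * (1 - s7 a - s7 b) - 0.009) ≤ ((vcop n a b).card : ℝ) := by
  rw [mem_US] at ha hb
  have h := avoid_lower n (fun j => 2 ∣ j ∧ ¬ 5 ∣ j) (by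
      intro p y hp hp7
      rw [dvd_mul_prime_iff Nat.prime_two hp (by omega),
        dvd_mul_prime_iff Nat.prime_five hp (by omega)]) (2 / 5) (2 / 5) (4 / 5) (by
      have h1 := (qV5 n).1
      have h2 : (2 : ℝ) * n ≤ 5 * ((Icc 1 n).filter (fun j => 2 ∣ j ∧ ¬ 5 ∣ j)).card + 2 := by
        exact_mod_cast h1
      linarith) (by
      intro m
      have h1 := (qV5 m).2
      have h2 : (5 : ℝ) * ((Icc 1 m).filter (fun j => 2 ∣ j ∧ ¬ 5 ∣ j)).card ≤ 2 * m + 4 := by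
        exact_mod_cast h1
      linarith) (by norm_num) (by norm_num) a b (vcop n a b) (by
      intro v hv hp
      rw [mem_filter, mem_Icc] at hv
      rw [vcop, EV, mem_filter, mem_filter, mem_Icc]
      refine ⟨⟨by omega, hv.2.1⟩, ?_, ?_⟩
      · exact coprime_of_pf7' (by omega) (by omega) (Or.inl (by omega)) (Or.inr hv.2.2)
          (fun p hp' => hp p (mem_union_left _ hp'))
      · exact (coprime_of_pf7' (by omega) (by omega) (Or.inl (by omega)) (Or.inr hv.2.2)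
          (fun p hp' => hp p (mem_union_right _ hp'))).symm)
  have h2 := avail_units n hn a b (by omega) (by omega) (by omega) (by omega) (2 / 5) (2 / 5)
    (4 / 5) _ (by norm_num) (by norm_num) (by norm_num) h hs
  norm_num at h2 ⊢
  linarith

lemma vcop_no5 (n : ℕ) (hn : 6098 ≤ n) (a b : ℕ) (ha : a ∈ US n) (hb : b ∈ US n)
    (ha5 : ¬ 5 ∣ a) (hb5 : ¬ 5 ∣ b) (hs : 0 ≤ 1 - s7 a - s7 b) :
    ((n / 6 : ℕ) : ℝ) * (3 * (1 - s7 a - s7 b) - 0.009) ≤ ((vcop n a b).card : ℝ) := by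
  rw [mem_US] at ha hb
  have h := avoid_lower n (fun j => 2 ∣ j) (by
      intro p y hp hp7
      rw [dvd_mul_prime_iff Nat.prime_two hp (by omega)]) (1 / 2) (1 / 2) 0 (by
      have h1 := (qV0 n).1
      have h2 : (n : ℝ) ≤ 2 * ((Icc 1 n).filter (fun j => 2 ∣ j)).card + 1 := by
        exact_mod_cast h1
      linarith) (by
      intro m
      have h1 := (qV0 m).2
      have h2 : (2 : ℝ) * ((Icc 1 m).filter (fun j => 2 ∣ j)).card ≤ m := by
        exact_mod_cast h1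
      linarith) (by norm_num) (by norm_num) a b (vcop n a b) (by
      intro v hv hp
      rw [mem_filter, mem_Icc] at hv
      rw [vcop, EV, mem_filter, mem_filter, mem_Icc]
      refine ⟨⟨by omega, hv.2⟩, ?_, ?_⟩
      · exact coprime_of_pf7' (by omega) (by omega) (Or.inl (by omega)) (Or.inl ha5)
          (fun p hp' => hp p (mem_union_left _ hp'))
      · exact (coprime_of_pf7' (by omega) (by omega) (Or.inl (by omega)) (Or.inl hb5)
          (fun p hp' => hp p (mem_union_right _ hp'))).symm)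
  have h2 := avail_units n hn a b (by omega) (by omega) (by omega) (by omega) (1 / 2) (1 / 2)
    0 _ (by norm_num) (by norm_num) (by norm_num) h hs
  norm_num at h2 ⊢
  linarith

end Pool.Agent.H2.Cop
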