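import Pool.Agent.H2.Cop.C2b

set_option autoImplicit false

/-!
The case of many missing even numbers: linear levels.
-/

namespace Pool.Agent.H2.Cop

open Finset
open Pool.Agent.H15.CG (US TS ES EV VS ecop vcop NL mem_US mem_TS mem_ES mem_VS HasCyc)

/-- the constant of a class -/
noncomputable def Cc (a : ℕ) : ℝ :=
  if 3 ∣ a then (if 5 ∣ a then 1.6 else 2) else (if 5 ∣ a then 2.4 else 3)

/-- the linear level -/
noncomputable def lv (n a : ℕ) : ℝ := ((n / 6 : ℕ) : ℝ) * (Cc a * (1 - 2 * s7 a) - 0.01)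

lemma M_ge (n : ℕ) (hn : 6098 ≤ n) : (1016 : ℝ) ≤ ((n / 6 : ℕ) : ℝ) := by
  have h6 : 1016 ≤ n / 6 := by omega
  exact_mod_cast h6

lemma n_le_M (n : ℕ) (hn : 6098 ≤ n) : (n : ℝ) ≤ 6.005 * ((n / 6 : ℕ) : ℝ) := by
  have h4 : n ≤ 6 * (n / 6) + 5 := by omega
  have h5 : (n : ℝ) ≤ 6 * ((n / 6 : ℕ) : ℝ) + 5 := by exact_mod_cast h4
  have h7 := M_ge n hn
  norm_num
  linarith

lemma lv_le {n a : ℕ} (hn : 6098 ≤ n) {y C : ℝ} (hC : Cc a = C) (hC0 : 0 < C)
    (h : lv n a ≤ y * ((n / 6 : ℕ) : ℝ)) : (1 - (y + 0.01) / C) / 2 ≤ s7 a := by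
  have h7 := M_ge n hn
  unfold lv at h
  rw [hC, mul_comm y] at h
  have h1 := le_of_mul_le_mul_left h (by linarith)
  have h2 : 1 - 2 * s7 a ≤ (y + 0.01) / C := by
    rw [le_div_iff₀ hC0]; linarith
  linarith

lemma cnt_first {X : Finset ℕ} {n : ℕ} {α β : ℝ} (h : ClassB X n (α * n) β) (hn : 6098 ≤ n)
    (hα : 0 ≤ α) (C : ℝ) (hC : ∀ x ∈ X, Cc x = C) (hC0 : 0 < C) (q0 : ℕ) (hq : q0 < 101)
    (y c S v : ℝ) (hqc : (q0 : ℝ) ≤ c) (hc : 0 < c) (ht : 1 / c ≤ (1 - (y + 0.01) / C) / 2)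
    (hS : ∑ p ∈ smallPrimes, wt q0 c p / p + c / 200 ≤ S)
    (hv : 6.005 * α * S + 0.0028 * β * c ≤ v) :
    ((X.filter (fun x => lv n x ≤ y * ((n / 6 : ℕ) : ℝ))).card : ℝ)
      ≤ v * ((n / 6 : ℕ) : ℝ) := by
  have h1 : (X.filter (fun x => lv n x ≤ y * ((n / 6 : ℕ) : ℝ))).card
      ≤ (X.filter (fun x => 1 / c ≤ s7 x)).card := by
    apply Finset.card_le_card
    intro x hx
    rw [mem_filter] at hx ⊢
    exact ⟨hx.1, ht.trans (lv_le hn (hC x hx.1) hC0 hx.2)⟩
  have h1' : ((X.filter (fun x => lv n x ≤ y * ((n / 6 : ℕ) : ℝ))).card : ℝ)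
      ≤ (X.filter (fun x => 1 / c ≤ s7 x)).card := by exact_mod_cast h1
  have h2 := h.first q0 hq c hqc hc
  have h3 := S1_small n hn
  have h4 := n_le_M n hn
  have h7 := M_ge n hn
  set M : ℝ := ((n / 6 : ℕ) : ℝ) with hM
  have hS0 : 0 ≤ ∑ p ∈ smallPrimes, wt q0 c p / p + c / 200 := by
    have : 0 ≤ ∑ p ∈ smallPrimes, wt q0 c p / (p : ℝ) := by
      apply Finset.sum_nonneg
      intro p _
      unfold wt
      split_ifs <;> positivity
    positivity
  have h5 : α * n * (∑ p ∈ smallPrimes, wt q0 c p / p + c / 200) ≤ α * (6.005 * M) * S := by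
    apply mul_le_mul _ hS hS0
    · have : 0 ≤ α * (6.005 * M) := by positivity
      exact this
    · exact mul_le_mul_of_nonneg_left h4 hα
  have h6 : β * c * S1 n ≤ β * c * (0.0028 * M) :=
    mul_le_mul_of_nonneg_left h3 (mul_nonneg h.hb hc.le)
  have h8 := mul_le_mul_of_nonneg_right hv (show 0 ≤ M by linarith)
  nlinarith

lemma cnt_second {X : Finset ℕ} {n : ℕ} {α β : ℝ} (h : ClassB X n (α * n) β) (hn : 6098 ≤ n)
    (hα : 0 ≤ α) (C : ℝ) (hC : ∀ x ∈ X, Cc x = C) (hC0 : 0 < C)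
    (y t v : ℝ) (ht0 : 0 < t) (ht : t ≤ (1 - (y + 0.01) / C) / 2)
    (hv : (0.00719 * 6.005 * α + 0.003657 * β) / t ^ 2 ≤ v) :
    ((X.filter (fun x => lv n x ≤ y * ((n / 6 : ℕ) : ℝ))).card : ℝ)
      ≤ v * ((n / 6 : ℕ) : ℝ) := by
  have h1 : (X.filter (fun x => lv n x ≤ y * ((n / 6 : ℕ) : ℝ))).card
      ≤ (X.filter (fun x => t ≤ s7 x)).card := by
    apply Finset.card_le_card
    intro x hx
    rw [mem_filter] at hx ⊢
    exact ⟨hx.1, ht.trans (lv_le hn (hC x hx.1) hC0 hx.2)⟩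
  have h1' : ((X.filter (fun x => lv n x ≤ y * ((n / 6 : ℕ) : ℝ))).card : ℝ)
      ≤ (X.filter (fun x => t ≤ s7 x)).card := by exact_mod_cast h1
  have h2 := h.second hn t ht0
  have h4 := n_le_M n hn
  have h7 := M_ge n hn
  set M : ℝ := ((n / 6 : ℕ) : ℝ) with hM
  have h5 : 0.00719 * (α * n) + β * (0.05434 + 0.0006 * n)
      ≤ (0.00719 * 6.005 * α + 0.003657 * β) * M := by
    have h8 : α * n ≤ α * (6.005 * M) := mul_le_mul_of_nonneg_left h4 hα
    have h9 : β * (0.05434 + 0.0006 * n) ≤ β * (0.003657 * M) := by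
      apply mul_le_mul_of_nonneg_left _ h.hb
      norm_num at h4 ⊢
      linarith
    norm_num at h8 h9 ⊢
    nlinarith
  have h6 : (0.00719 * (α * n) + β * (0.05434 + 0.0006 * n)) / t ^ 2
      ≤ ((0.00719 * 6.005 * α + 0.003657 * β) * M) / t ^ 2 :=
    div_le_div_of_nonneg_right h5 (by positivity)
  have h8 : ((0.00719 * 6.005 * α + 0.003657 * β) * M) / t ^ 2
      = (0.00719 * 6.005 * α + 0.003657 * β) / t ^ 2 * M := by ring
  have h9 := mul_le_mul_of_nonneg_right hv (show 0 ≤ M by linarith)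
  linarith

lemma cnt_size {X : Finset ℕ} {n : ℕ} {α β : ℝ} (h : ClassB X n (α * n) β) (hn : 6098 ≤ n)
    (hα : 0 ≤ α) (y v : ℝ) (hv : 6.005 * α + β / 1016 ≤ v) :
    ((X.filter (fun x => lv n x ≤ y * ((n / 6 : ℕ) : ℝ))).card : ℝ)
      ≤ v * ((n / 6 : ℕ) : ℝ) := by
  have h1 : ((X.filter (fun x => lv n x ≤ y * ((n / 6 : ℕ) : ℝ))).card : ℝ) ≤ X.card := by
    exact_mod_cast Finset.card_le_card (filter_subset _ _)
  have h2 := h.size
  have h4 := n_le_M n hn
  have h7 := M_ge n hn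
  set M : ℝ := ((n / 6 : ℕ) : ℝ) with hM
  have h8 : α * n ≤ α * (6.005 * M) := mul_le_mul_of_nonneg_left h4 hα
  have h9 : β ≤ β / 1016 * M := by
    rw [div_mul_eq_mul_div, le_div_iff₀ (by norm_num)]
    exact mul_le_mul_of_nonneg_left h7 h.hb
  have h10 := mul_le_mul_of_nonneg_right hv (show 0 ≤ M by linarith)
  nlinarith

lemma Cc_T5 (n : ℕ) : ∀ x ∈ T5 n, Cc x = 1.6 := by
  intro x hx
  rw [T5, mem_filter, mem_TS] at hx
  unfold Cc
  rw [if_pos (by omega), if_pos hx.2]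

lemma Cc_T0 (n : ℕ) : ∀ x ∈ T0 n, Cc x = 2 := by
  intro x hx
  rw [T0, mem_filter, mem_TS] at hx
  unfold Cc
  rw [if_pos (by omega), if_neg hx.2]

lemma Cc_R5 (n : ℕ) : ∀ x ∈ R5 n, Cc x = 2.4 := by
  intro x hx
  rw [R5, mem_filter, mem_US] at hx
  unfold Cc
  rw [if_neg (by omega), if_pos hx.2]

lemma Cc_R0 (n : ℕ) : ∀ x ∈ R0 n, Cc x = 3 := by
  intro x hx
  rw [R0, mem_filter, mem_US] at hx
  unfold Cc
  rw [if_neg (by omega), if_neg hx.2]

lemma NL_split (n : ℕ) (lev : ℕ → ℝ) (z : ℝ) :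
    (NL n lev z : ℝ) ≤ ((T5 n).filter (fun x => lev x ≤ z)).card
      + ((T0 n).filter (fun x => lev x ≤ z)).card + ((R5 n).filter (fun x => lev x ≤ z)).card
      + ((R0 n).filter (fun x => lev x ≤ z)).card := by
  have h : NL n lev z ≤ ((T5 n).filter (fun x => lev x ≤ z)).card
      + ((T0 n).filter (fun x => lev x ≤ z)).card + ((R5 n).filter (fun x => lev x ≤ z)).card
      + ((R0 n).filter (fun x => lev x ≤ z)).card := by
    unfold NL
    calc _ ≤ (((T5 n).filter (fun x => lev x ≤ z) ∪ (T0 n).filter (fun x => lev x ≤ z))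
          ∪ (R5 n).filter (fun x => lev x ≤ z) ∪ (R0 n).filter (fun x => lev x ≤ z)).card := by
          apply Finset.card_le_card
          intro x hx
          simp only [T5, T0, R5, R0, mem_filter, mem_union] at hx ⊢
          tauto
      _ ≤ _ := by
          refine (Finset.card_union_le _ _).trans ?_
          gcongr
          refine (Finset.card_union_le _ _).trans ?_
          gcongr
          exact Finset.card_union_le _ _
  exact_mod_cast h

section thresholds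

variable (n : ℕ) (hn : 6098 ≤ n)
include hn

lemma NL_1265 : (NL n (lv n) (1.265 * ((n / 6 : ℕ) : ℝ)) : ℝ) ≤ 0.642 * ((n / 6 : ℕ) : ℝ) := by
  have h := NL_split n (lv n) (1.265 * ((n / 6 : ℕ) : ℝ))
  have h1 := cnt_first (class_T5 n) hn (by norm_num) 1.6 (Cc_T5 n) (by norm_num) 7 (by norm_num)
    1.265 9.85 0.4769 0.11 (by norm_num) (by norm_num) (by norm_num)
    (by simp only [smallPrimes, wt]; norm_num [Finset.sum_insert]) (by norm_num)
  have h2 := cnt_first (class_T0 n) hn (by norm_num) 2 (Cc_T0 n) (by norm_num) 0 (by norm_num)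
    1.265 5.55 0.30147 0.254 (by norm_num) (by norm_num) (by norm_num)
    (by simp only [smallPrimes, wt]; norm_num [Finset.sum_insert]) (by norm_num)
  have h3 := cnt_second (class_R5 n) hn (by norm_num) 2.4 (Cc_R5 n) (by norm_num)
    1.265 0.234375 0.097 (by norm_num) (by norm_num) (by norm_num)
  have h4 := cnt_second (class_R0 n) hn (by norm_num) 3 (Cc_R0 n) (by norm_num)
    1.265 0.2875 0.181 (by norm_num) (by norm_num) (by norm_num)
  norm_num at h h1 h2 h3 h4 ⊢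
  linarith

lemma NL_148 : (NL n (lv n) (1.48 * ((n / 6 : ℕ) : ℝ)) : ℝ) ≤ 0.909 * ((n / 6 : ℕ) : ℝ) := by
  have h := NL_split n (lv n) (1.48 * ((n / 6 : ℕ) : ℝ))
  have h1 := cnt_size (class_T5 n) hn (by norm_num) 1.48 0.201 (by norm_num)
  have h2 := cnt_first (class_T0 n) hn (by norm_num) 2 (Cc_T0 n) (by norm_num) 7 (by norm_num)
    1.48 7.85 0.40905 0.346 (by norm_num) (by norm_num) (by norm_num)
    (by simp only [smallPrimes, wt]; norm_num [Finset.sum_insert]) (by norm_num)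
  have h3 := cnt_first (class_R5 n) hn (by norm_num) 2.4 (Cc_R5 n) (by norm_num) 0 (by norm_num)
    1.48 5.3 0.28789 0.126 (by norm_num) (by norm_num) (by norm_num)
    (by simp only [smallPrimes, wt]; norm_num [Finset.sum_insert]) (by norm_num)
  have h4 := cnt_second (class_R0 n) hn (by norm_num) 3 (Cc_R0 n) (by norm_num)
    1.48 0.2516 0.236 (by norm_num) (by norm_num) (by norm_num)
  norm_num at h h1 h2 h3 h4 ⊢
  linarith

lemma NL_162 : (NL n (lv n) (1.62 * ((n / 6 : ℕ) : ℝ)) : ℝ) ≤ 1.07 * ((n / 6 : ℕ) : ℝ) := by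
  have h := NL_split n (lv n) (1.62 * ((n / 6 : ℕ) : ℝ))
  have h1 := cnt_size (class_T5 n) hn (by norm_num) 1.62 0.201 (by norm_num)
  have h2 := cnt_first (class_T0 n) hn (by norm_num) 2 (Cc_T0 n) (by norm_num) 7 (by norm_num)
    1.62 10.85 0.51078 0.434 (by norm_num) (by norm_num) (by norm_num)
    (by simp only [smallPrimes, wt]; norm_num [Finset.sum_insert]) (by norm_num)
  have h3 := cnt_first (class_R5 n) hn (by norm_num) 2.4 (Cc_R5 n) (by norm_num) 0 (by norm_num)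
    1.62 6.25 0.33949 0.148 (by norm_num) (by norm_num) (by norm_num)
    (by simp only [smallPrimes, wt]; norm_num [Finset.sum_insert]) (by norm_num)
  have h4 := cnt_second (class_R0 n) hn (by norm_num) 3 (Cc_R0 n) (by norm_num)
    1.62 0.2283 0.287 (by norm_num) (by norm_num) (by norm_num)
  norm_num at h h1 h2 h3 h4 ⊢
  linarith

lemma NL_182 : (NL n (lv n) (1.82 * ((n / 6 : ℕ) : ℝ)) : ℝ) ≤ 1.427 * ((n / 6 : ℕ) : ℝ) := by
  have h := NL_split n (lv n) (1.82 * ((n / 6 : ℕ) : ℝ))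
  have h1 := cnt_size (class_T5 n) hn (by norm_num) 1.82 0.201 (by norm_num)
  have h2 := cnt_first (class_T0 n) hn (by norm_num) 2 (Cc_T0 n) (by norm_num) 23 (by norm_num)
    1.82 23.55 0.73898 0.645 (by norm_num) (by norm_num) (by norm_num)
    (by simp only [smallPrimes, wt]; norm_num [Finset.sum_insert]) (by norm_num)
  have h3 := cnt_first (class_R5 n) hn (by norm_num) 2.4 (Cc_R5 n) (by norm_num) 7 (by norm_num)
    1.82 8.45 0.4294 0.188 (by norm_num) (by norm_num) (by norm_num)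
    (by simp only [smallPrimes, wt]; norm_num [Finset.sum_insert]) (by norm_num)
  have h4 := cnt_second (class_R0 n) hn (by norm_num) 3 (Cc_R0 n) (by norm_num)
    1.82 0.195 0.393 (by norm_num) (by norm_num) (by norm_num)
  norm_num at h h1 h2 h3 h4 ⊢
  linarith

lemma NL_201 : (NL n (lv n) (2.01 * ((n / 6 : ℕ) : ℝ)) : ℝ) ≤ 1.803 * ((n / 6 : ℕ) : ℝ) := by
  have h := NL_split n (lv n) (2.01 * ((n / 6 : ℕ) : ℝ))
  have h1 := cnt_size (class_T5 n) hn (by norm_num) 2.01 0.201 (by norm_num)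
  have h2 := cnt_size (class_T0 n) hn (by norm_num) 2.01 0.802 (by norm_num)
  have h3 := cnt_first (class_R5 n) hn (by norm_num) 2.4 (Cc_R5 n) (by norm_num) 11 (by norm_num)
    2.01 12.65 0.55818 0.248 (by norm_num) (by norm_num) (by norm_num)
    (by simp only [smallPrimes, wt]; norm_num [Finset.sum_insert]) (by norm_num)
  have h4 := cnt_first (class_R0 n) hn (by norm_num) 3 (Cc_R0 n) (by norm_num) 0 (by norm_num)
    2.01 6.15 0.33406 0.552 (by norm_num) (by norm_num) (by norm_num)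
    (by simp only [smallPrimes, wt]; norm_num [Finset.sum_insert]) (by norm_num)
  norm_num at h h1 h2 h3 h4 ⊢
  linarith

lemma NL_218 : (NL n (lv n) (2.18 * ((n / 6 : ℕ) : ℝ)) : ℝ) ≤ 1.992 * ((n / 6 : ℕ) : ℝ) := by
  have h := NL_split n (lv n) (2.18 * ((n / 6 : ℕ) : ℝ))
  have h1 := cnt_size (class_T5 n) hn (by norm_num) 2.18 0.201 (by norm_num)
  have h2 := cnt_size (class_T0 n) hn (by norm_num) 2.18 0.802 (by norm_num)
  have h3 := cnt_first (class_R5 n) hn (by norm_num) 2.4 (Cc_R5 n) (by norm_num) 19 (by norm_num)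
    2.18 22.9 0.73124 0.336 (by norm_num) (by norm_num) (by norm_num)
    (by simp only [smallPrimes, wt]; norm_num [Finset.sum_insert]) (by norm_num)
  have h4 := cnt_first (class_R0 n) hn (by norm_num) 3 (Cc_R0 n) (by norm_num) 7 (by norm_num)
    2.18 7.45 0.39549 0.653 (by norm_num) (by norm_num) (by norm_num)
    (by simp only [smallPrimes, wt]; norm_num [Finset.sum_insert]) (by norm_num)
  norm_num at h h1 h2 h3 h4 ⊢
  linarith

end thresholds

end Pool.Agent.H2.Cop
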