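import Mathlib

set_option autoImplicit false

/-!
Legendre-type counting: the number of `j` in `[1, x]` not divisible by any prime of a finite
set `P`, with the error term `2 ^ (|P| - 1)`.
-/

namespace Pool.Agent.H2.Cop

open Finset

/-- `j` is not divisible by any element of `P`. -/
def Avoids (P : Finset ℕ) (j : ℕ) : Prop := ∀ p ∈ P, ¬ p ∣ j

instance (P : Finset ℕ) (j : ℕ) : Decidable (Avoids P j) := by
  unfold Avoids; infer_instance

/-- The number of `j ∈ [1, x]` not divisible by any element of `P`. -/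
def cop (P : Finset ℕ) (x : ℕ) : ℕ := ((Icc 1 x).filter (fun j => Avoids P j)).card

/-- The product of `1 - 1/p` over `P`. -/
noncomputable def dens (P : Finset ℕ) : ℝ := ∏ p ∈ P, (1 - 1 / (p : ℝ))

lemma cop_empty (x : ℕ) : cop ∅ x = x := by
  simp [cop, Avoids]

lemma dens_empty : dens ∅ = 1 := by simp [dens]

lemma dens_insert {P : Finset ℕ} {p : ℕ} (hp : p ∉ P) :
    dens (insert p P) = (1 - 1 / (p : ℝ)) * dens P := by
  simp [dens, Finset.prod_insert hp]

lemma avoids_insert {P : Finset ℕ} {p j : ℕ} :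
    Avoids (insert p P) j ↔ ¬ p ∣ j ∧ Avoids P j := by
  simp [Avoids]

/-- multiples of `d` avoiding `P`, where all elements of `P` are primes not dividing `d`. -/
lemma card_mul_avoids (P : Finset ℕ) (d n : ℕ) (hd : 0 < d)
    (hP : ∀ p ∈ P, p.Prime) (hPd : ∀ p ∈ P, ¬ p ∣ d) :
    ((Icc 1 n).filter (fun j => d ∣ j ∧ Avoids P j)).card = cop P (n / d) := by
  unfold cop
  symm
  apply Finset.card_bij (fun i _ => d * i)
  · intro i hi
    simp only [mem_filter, mem_Icc] at hi ⊢
    refine ⟨⟨?_, ?_⟩, dvd_mul_right _ _, ?_⟩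
    · have := hi.1.1
      exact Nat.mul_pos hd (by omega)
    · calc d * i ≤ d * (n / d) := Nat.mul_le_mul_left _ hi.1.2
        _ ≤ n := Nat.mul_div_le n d
    · intro p hp hdvd
      rcases (hP p hp).dvd_mul.mp hdvd with h | h
      · exact hPd p hp h
      · exact hi.2 p hp h
  · intro a _ b _ hab
    exact Nat.eq_of_mul_eq_mul_left hd hab
  · intro j hj
    simp only [mem_filter, mem_Icc] at hj
    obtain ⟨⟨h1, h2⟩, ⟨i, rfl⟩, h3⟩ := hj
    refine ⟨i, ?_, rfl⟩
    simp only [mem_filter, mem_Icc]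
    refine ⟨⟨?_, ?_⟩, ?_⟩
    · rcases Nat.eq_zero_or_pos i with h | h
      · simp [h] at h1
      · exact h
    · exact (Nat.le_div_iff_mul_le hd).mpr (by rw [mul_comm]; exact h2)
    · intro p hp hdvd
      exact h3 p hp (Dvd.dvd.mul_left hdvd d)

lemma cop_insert {P : Finset ℕ} {p : ℕ} (hP : ∀ q ∈ P, q.Prime) (hp : p.Prime) (hpP : p ∉ P)
    (x : ℕ) : cop (insert p P) x + cop P (x / p) = cop P x := by
  have h1 : cop P (x / p) = ((Icc 1 x).filter (fun j => p ∣ j ∧ Avoids P j)).card := by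
    rw [card_mul_avoids P p x hp.pos hP]
    intro q hq hqp
    have := (Nat.prime_dvd_prime_iff_eq (hP q hq) hp).mp hqp
    exact hpP (this ▸ hq)
  rw [h1]
  unfold cop
  rw [← Finset.card_union_of_disjoint]
  · congr 1
    ext j
    simp only [mem_union, mem_filter, mem_Icc, avoids_insert]
    tauto
  · rw [Finset.disjoint_left]
    intro j hj hj'
    simp only [mem_filter, avoids_insert] at hj hj'
    exact hj.2.1 hj'.2.1

/-- The basic two-sided Legendre estimate, with a real variable `y` with `x ≤ y ≤ x + 1`. -/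
theorem cop_bounds_aux (P : Finset ℕ) (hP : ∀ p ∈ P, p.Prime) :
    ∀ (x : ℕ) (y : ℝ), (x : ℝ) ≤ y → y ≤ x + 1 →
      (y * dens P - (2 : ℝ) ^ (P.card - 1) ≤ cop P x) ∧
      ((cop P x : ℝ) ≤ y * dens P + (if P.card = 0 then 0 else (2 : ℝ) ^ (P.card - 1))) := by
  induction P using Finset.induction_on with
  | empty =>
    intro x y h1 h2
    simp only [cop_empty, dens_empty, Finset.card_empty]
    norm_num
    constructor
    · linarith
    · exact h1
  | insert p P hpP ih =>
    intro x y h1 h2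
    have hp : p.Prime := hP p (mem_insert_self _ _)
    have hP' : ∀ q ∈ P, q.Prime := fun q hq => hP q (mem_insert_of_mem hq)
    have hins := cop_insert hP' hp hpP x
    have hpos : (0 : ℝ) < p := by exact_mod_cast hp.pos
    have hins' : (cop (insert p P) x : ℝ) = cop P x - cop P (x / p) := by
      have : ((cop (insert p P) x + cop P (x / p) : ℕ) : ℝ) = cop P x := by rw [hins]
      push_cast at this
      linarith
    have hA := ih hP' x y h1 h2
    have hB := ih hP' (x / p) (y / p) (by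
        have : ((x / p : ℕ) : ℝ) ≤ (x : ℝ) / p := Nat.cast_div_le
        calc ((x / p : ℕ) : ℝ) ≤ (x : ℝ) / p := this
          _ ≤ y / p := by gcongr) (by
        have h3 : x + 1 ≤ (x / p + 1) * p := by
          have := Nat.lt_div_mul_add hp.pos (a := x)
          nlinarith [this]
        have h4 : ((x : ℝ) + 1) ≤ (((x / p : ℕ) : ℝ) + 1) * p := by exact_mod_cast h3
        rw [div_le_iff₀ hpos]
        linarith)
    rw [dens_insert hpP, Finset.card_insert_of_notMem hpP, hins']
    have hexp : (2 : ℝ) ^ (P.card + 1 - 1) = 2 ^ P.card := by simp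
    rw [hexp]
    have hy : y * ((1 - 1 / (p : ℝ)) * dens P) = y * dens P - y / p * dens P := by ring
    rw [hy]
    rcases Nat.eq_zero_or_pos P.card with h0 | h0
    · rw [h0] at hA hB ⊢
      simp only [if_true] at hA hB
      norm_num at hA hB ⊢
      constructor
      · linarith [hA.1, hB.2]
      · linarith [hA.2, hB.1]
    · have h0' : P.card ≠ 0 := by omega
      simp only [h0', if_false] at hA hB
      have hpow : (2 : ℝ) ^ P.card = 2 ^ (P.card - 1) + 2 ^ (P.card - 1) := by
        have : P.card = (P.card - 1) + 1 := by omega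
        conv_lhs => rw [this, pow_succ]
        ring
      rw [hpow]
      simp only [Nat.add_eq_zero_iff, h0', false_and, if_false]
      constructor
      · linarith [hA.1, hB.2]
      · linarith [hA.2, hB.1]

theorem cop_lower (P : Finset ℕ) (hP : ∀ p ∈ P, p.Prime) (x : ℕ) {y : ℝ}
    (h1 : (x : ℝ) ≤ y) (h2 : y ≤ x + 1) :
    y * dens P - (2 : ℝ) ^ (P.card - 1) ≤ cop P x :=
  (cop_bounds_aux P hP x y h1 h2).1

theorem cop_upper (P : Finset ℕ) (hP : ∀ p ∈ P, p.Prime) (x : ℕ) {y : ℝ}
    (h1 : (x : ℝ) ≤ y) (h2 : y ≤ x + 1) :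
    (cop P x : ℝ) ≤ y * dens P + (2 : ℝ) ^ (P.card - 1) := by
  have := (cop_bounds_aux P hP x y h1 h2).2
  split_ifs at this with h
  · have h3 : (0 : ℝ) ≤ (2 : ℝ) ^ (P.card - 1) := by positivity
    linarith
  · exact this

lemma dens_pos (P : Finset ℕ) (hP : ∀ p ∈ P, p.Prime) : 0 < dens P := by
  unfold dens
  apply Finset.prod_pos
  intro p hp
  have : (2 : ℝ) ≤ p := by exact_mod_cast (hP p hp).two_le
  have h : 1 / (p : ℝ) ≤ 1 / 2 := by gcongr
  linarith

lemma dens_le_one (P : Finset ℕ) (hP : ∀ p ∈ P, p.Prime) : dens P ≤ 1 := by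
  unfold dens
  apply Finset.prod_le_one
  · intro p hp
    have : (2 : ℝ) ≤ p := by exact_mod_cast (hP p hp).two_le
    have h : 1 / (p : ℝ) ≤ 1 / 2 := by gcongr
    linarith
  · intro p hp
    have : (0 : ℝ) ≤ 1 / p := by positivity
    linarith

/-! Class versions.  `P` is a finite set of primes `≥ 5`. -/

section classes

variable (P : Finset ℕ) (n : ℕ)

lemma three_notMem {P : Finset ℕ} (h5 : ∀ p ∈ P, 5 ≤ p) : 3 ∉ P := by
  intro h; have := h5 3 h; omega

lemma two_notMem {P : Finset ℕ} (h5 : ∀ p ∈ P, 5 ≤ p) : 2 ∉ P := by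
  intro h; have := h5 2 h; omega

lemma prime_not_dvd_of_le {P : Finset ℕ} (hP : ∀ p ∈ P, p.Prime) (h5 : ∀ p ∈ P, 5 ≤ p)
    {d : ℕ} (hd : d = 2 ∨ d = 3 ∨ d = 6) : ∀ p ∈ P, ¬ p ∣ d := by
  intro p hp hpd
  have h5p := h5 p hp
  have hpp := hP p hp
  rcases hd with rfl | rfl | rfl
  · have := Nat.le_of_dvd (by norm_num) hpd; omega
  · have := Nat.le_of_dvd (by norm_num) hpd; omega
  · have hle := Nat.le_of_dvd (by norm_num) hpd
    have : p = 5 ∨ p = 6 := by omega
    rcases this with rfl | rfl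
    · omega
    · exact absurd hpp (by norm_num)

/-- multiples of 2 avoiding `P`. -/
lemma card_even (hP : ∀ p ∈ P, p.Prime) (h5 : ∀ p ∈ P, 5 ≤ p) :
    ((Icc 1 n).filter (fun j => 2 ∣ j ∧ Avoids P j)).card = cop P (n / 2) :=
  card_mul_avoids P 2 n (by norm_num) hP (prime_not_dvd_of_le hP h5 (Or.inl rfl))

/-- multiples of 6 avoiding `P`. -/
lemma card_six (hP : ∀ p ∈ P, p.Prime) (h5 : ∀ p ∈ P, 5 ≤ p) :
    ((Icc 1 n).filter (fun j => 6 ∣ j ∧ Avoids P j)).card = cop P (n / 6) :=
  card_mul_avoids P 6 n (by norm_num) hP (prime_not_dvd_of_le hP h5 (Or.inr (Or.inr rfl)))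

/-- even numbers not divisible by 3, avoiding `P`. -/
lemma card_E (hP : ∀ p ∈ P, p.Prime) (h5 : ∀ p ∈ P, 5 ≤ p) :
    ((Icc 1 n).filter (fun j => 2 ∣ j ∧ ¬ 3 ∣ j ∧ Avoids P j)).card
      = cop (insert 3 P) (n / 2) := by
  have h := card_mul_avoids (insert 3 P) 2 n (by norm_num)
    (by
      intro p hp
      rcases mem_insert.mp hp with rfl | hp
      · norm_num
      · exact hP p hp)
    (by
      intro p hp
      rcases mem_insert.mp hp with rfl | hp
      · norm_num
      · exact prime_not_dvd_of_le hP h5 (Or.inl rfl) p hp)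
  rw [← h]
  congr 1
  ext j
  simp only [mem_filter, avoids_insert]

/-- odd multiples of 3, avoiding `P`. -/
lemma card_T (hP : ∀ p ∈ P, p.Prime) (h5 : ∀ p ∈ P, 5 ≤ p) :
    ((Icc 1 n).filter (fun j => 3 ∣ j ∧ ¬ 2 ∣ j ∧ Avoids P j)).card
      = cop (insert 2 P) (n / 3) := by
  have h := card_mul_avoids (insert 2 P) 3 n (by norm_num)
    (by
      intro p hp
      rcases mem_insert.mp hp with rfl | hp
      · norm_num
      · exact hP p hp)
    (by
      intro p hp
      rcases mem_insert.mp hp with rfl | hp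
      · norm_num
      · exact prime_not_dvd_of_le hP h5 (Or.inr (Or.inl rfl)) p hp)
  rw [← h]
  congr 1
  ext j
  simp only [mem_filter, avoids_insert]

/-- numbers coprime to 6, avoiding `P`. -/
lemma card_R :
    ((Icc 1 n).filter (fun j => ¬ 2 ∣ j ∧ ¬ 3 ∣ j ∧ Avoids P j)).card
      = cop (insert 2 (insert 3 P)) n := by
  unfold cop
  congr 1
  ext j
  simp only [mem_filter, avoids_insert]

end classes

/-! Legendre lower bounds for the classes, in the shape `n/d * const * dens P - error`. -/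

section lower

variable {P : Finset ℕ} (hP : ∀ p ∈ P, p.Prime) (h5 : ∀ p ∈ P, 5 ≤ p) (n : ℕ)

lemma natdiv_bounds (n d : ℕ) (hd : 0 < d) :
    ((n / d : ℕ) : ℝ) ≤ (n : ℝ) / d ∧ (n : ℝ) / d ≤ ((n / d : ℕ) : ℝ) + 1 := by
  have hdpos : (0 : ℝ) < d := by exact_mod_cast hd
  constructor
  · exact Nat.cast_div_le
  · rw [div_le_iff₀ hdpos]
    have h := Nat.lt_div_mul_add hd (a := n)
    have h3 : n ≤ (n / d + 1) * d := by nlinarith [h]
    exact_mod_cast h3

include hP h5

theorem even_lower :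
    (n : ℝ) / 2 * dens P - (2 : ℝ) ^ (P.card - 1)
      ≤ ((Icc 1 n).filter (fun j => 2 ∣ j ∧ Avoids P j)).card := by
  rw [card_even P n hP h5]
  have hb := natdiv_bounds n 2 (by norm_num)
  exact cop_lower P hP (n / 2) (by exact_mod_cast hb.1) (by exact_mod_cast hb.2)

theorem six_lower :
    (n : ℝ) / 6 * dens P - (2 : ℝ) ^ (P.card - 1)
      ≤ ((Icc 1 n).filter (fun j => 6 ∣ j ∧ Avoids P j)).card := by
  rw [card_six P n hP h5]
  have hb := natdiv_bounds n 6 (by norm_num)
  exact cop_lower P hP (n / 6) (by exact_mod_cast hb.1) (by exact_mod_cast hb.2)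

theorem E_lower :
    (n : ℝ) / 3 * dens P - (2 : ℝ) ^ P.card
      ≤ ((Icc 1 n).filter (fun j => 2 ∣ j ∧ ¬ 3 ∣ j ∧ Avoids P j)).card := by
  rw [card_E P n hP h5]
  have hb := natdiv_bounds n 2 (by norm_num)
  have h := cop_lower (insert 3 P) (by
      intro p hp
      rcases mem_insert.mp hp with rfl | hp
      · norm_num
      · exact hP p hp) (n / 2) (y := (n : ℝ) / 2) (by exact_mod_cast hb.1) (by exact_mod_cast hb.2)
  rw [dens_insert (three_notMem h5), Finset.card_insert_of_notMem (three_notMem h5)] at h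
  have h2 : (n : ℝ) / 2 * ((1 - 1 / ((3 : ℕ) : ℝ)) * dens P) = n / 3 * dens P := by
    push_cast; ring
  rw [h2] at h
  simpa using h

theorem T_lower :
    (n : ℝ) / 6 * dens P - (2 : ℝ) ^ P.card
      ≤ ((Icc 1 n).filter (fun j => 3 ∣ j ∧ ¬ 2 ∣ j ∧ Avoids P j)).card := by
  rw [card_T P n hP h5]
  have hb := natdiv_bounds n 3 (by norm_num)
  have h := cop_lower (insert 2 P) (by
      intro p hp
      rcases mem_insert.mp hp with rfl | hp
      · norm_num
      · exact hP p hp) (n / 3) (y := (n : ℝ) / 3) (by exact_mod_cast hb.1) (by exact_mod_cast hb.2)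
  rw [dens_insert (two_notMem h5), Finset.card_insert_of_notMem (two_notMem h5)] at h
  have h2 : (n : ℝ) / 3 * ((1 - 1 / ((2 : ℕ) : ℝ)) * dens P) = n / 6 * dens P := by
    push_cast; ring
  rw [h2] at h
  simpa using h

theorem R_lower :
    (n : ℝ) / 3 * dens P - (2 : ℝ) ^ (P.card + 1)
      ≤ ((Icc 1 n).filter (fun j => ¬ 2 ∣ j ∧ ¬ 3 ∣ j ∧ Avoids P j)).card := by
  rw [card_R P n]
  have h23 : (2 : ℕ) ∉ insert 3 P := by
    simp only [mem_insert, not_or]
    exact ⟨by norm_num, two_notMem h5⟩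
  have h := cop_lower (insert 2 (insert 3 P)) (by
      intro p hp
      rcases mem_insert.mp hp with rfl | hp
      · norm_num
      rcases mem_insert.mp hp with rfl | hp
      · norm_num
      · exact hP p hp) n (y := (n : ℝ)) le_rfl (by linarith)
  rw [dens_insert h23, dens_insert (three_notMem h5), Finset.card_insert_of_notMem h23,
    Finset.card_insert_of_notMem (three_notMem h5)] at h
  have h2 : (n : ℝ) * ((1 - 1 / ((2 : ℕ) : ℝ)) * ((1 - 1 / ((3 : ℕ) : ℝ)) * dens P))
      = n / 3 * dens P := by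
    push_cast; ring
  rw [h2] at h
  simpa using h

end lower

end Pool.Agent.H2.Cop
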