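import Pool.Agent.H2.Cop.Tail

set_option autoImplicit false

/-!
The level function `u` and the number of elements of small level.
-/

namespace Pool.Agent.H2.Cop

open Finset

/-- the prime factors `≥ 5` -/
def pf5 (x : ℕ) : Finset ℕ := x.primeFactors.filter (fun p => 5 ≤ p)

/-- the prime factors `≥ 7` -/
def pf7 (x : ℕ) : Finset ℕ := x.primeFactors.filter (fun p => 7 ≤ p)

lemma pf5_prime {x : ℕ} : ∀ p ∈ pf5 x, p.Prime := fun _ hp =>
  Nat.prime_of_mem_primeFactors (mem_filter.mp hp).1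

lemma pf7_prime {x : ℕ} : ∀ p ∈ pf7 x, p.Prime := fun _ hp =>
  Nat.prime_of_mem_primeFactors (mem_filter.mp hp).1

lemma pf5_ge {x : ℕ} : ∀ p ∈ pf5 x, 5 ≤ p := fun _ hp => (mem_filter.mp hp).2

lemma pf7_ge {x : ℕ} : ∀ p ∈ pf7 x, 7 ≤ p := fun _ hp => (mem_filter.mp hp).2

/-- `∏_{p ∣ x, p ≥ 7} (1 - 1/p)` -/
noncomputable def dens7 (x : ℕ) : ℝ := dens (pf7 x)

lemma dens7_pos (x : ℕ) : 0 < dens7 x := dens_pos _ pf7_prime

lemma dens7_le_one (x : ℕ) : dens7 x ≤ 1 := dens_le_one _ pf7_prime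

/-- the primes in `[7, n]` -/
def primes7 (n : ℕ) : Finset ℕ := (Icc 7 n).filter Nat.Prime

lemma primes7_prime {n : ℕ} : ∀ p ∈ primes7 n, p.Prime := fun _ hp => (mem_filter.mp hp).2

lemma primes7_ge {n : ℕ} : ∀ p ∈ primes7 n, 7 ≤ p := fun _ hp =>
  (mem_Icc.mp (mem_filter.mp hp).1).1

lemma primes7_filter {n m : ℕ} (hm : m ∈ Icc 1 n) :
    (primes7 n).filter (fun p => p ∣ m) = pf7 m := by
  rw [mem_Icc] at hm
  ext p
  simp only [primes7, pf7, mem_filter, mem_Icc, Nat.mem_primeFactors]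
  constructor
  · rintro ⟨⟨⟨h1, h2⟩, h3⟩, h4⟩
    exact ⟨⟨h3, h4, by omega⟩, h1⟩
  · rintro ⟨⟨h1, h2, h3⟩, h4⟩
    exact ⟨⟨⟨h4, (Nat.le_of_dvd (by omega) h2).trans hm.2⟩, h1⟩, h2⟩

lemma prod_one_add_hw (P : Finset ℕ) : ∏ p ∈ P, (1 + hw p) = ((dens P)⁻¹) ^ 24 := by
  unfold dens hw
  rw [← Finset.prod_inv_distrib, ← Finset.prod_pow]
  apply Finset.prod_congr rfl
  intro p _
  ring

/-- The exponential moment. -/
theorem exp_moment (n : ℕ) : ∑ m ∈ Icc 1 n, ((dens7 m)⁻¹) ^ 24 ≤ 37 * n := by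
  have h := moment (Icc 1 n) (primes7 n) hw
    (fun p hp => hw_nonneg (by have := primes7_ge p hp; omega)) n 0 (by
      intro D hD
      exact count_Icc (fun p hp => primes7_prime p (hD hp)) n)
  have h1 : ∑ m ∈ Icc 1 n, ((dens7 m)⁻¹) ^ 24
      = ∑ x ∈ Icc 1 n, ∏ p ∈ (primes7 n).filter (fun p => p ∣ x), (1 + hw p) := by
    apply Finset.sum_congr rfl
    intro m hm
    rw [primes7_filter hm, prod_one_add_hw, dens7]
  rw [h1]
  refine h.trans ?_
  have h2 := prod_hw_le (primes7 n) primes7_prime primes7_ge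
  have h3 : (0 : ℝ) ≤ n := by positivity
  nlinarith

theorem count_level (n : ℕ) {t : ℝ} (ht : 0 ≤ t) :
    (((Icc 1 n).filter (fun x => dens7 x ^ 2 ≤ t)).card : ℝ) ≤ 37 * n * t ^ 12 := by
  rcases ht.eq_or_lt with h0 | h0
  · subst h0
    have : (Icc 1 n).filter (fun x => dens7 x ^ 2 ≤ 0) = ∅ := by
      apply Finset.filter_false_of_mem
      intro x _
      have := dens7_pos x
      have : 0 < dens7 x ^ 2 := by positivity
      linarith
    rw [this]; simp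
  · have hsub : (Icc 1 n).filter (fun x => dens7 x ^ 2 ≤ t)
        ⊆ (Icc 1 n).filter (fun x => (t⁻¹) ^ 12 ≤ ((dens7 x)⁻¹) ^ 24) := by
      intro x hx
      rw [mem_filter] at hx ⊢
      refine ⟨hx.1, ?_⟩
      have h1 : t⁻¹ ≤ ((dens7 x)⁻¹) ^ 2 := by
        rw [inv_pow]
        exact inv_anti₀ (by have := dens7_pos x; positivity) hx.2
      calc (t⁻¹) ^ 12 ≤ (((dens7 x)⁻¹) ^ 2) ^ 12 := by
            apply pow_le_pow_left₀ (by positivity) h1
        _ = ((dens7 x)⁻¹) ^ 24 := by rw [← pow_mul]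
    have h1 : (((Icc 1 n).filter (fun x => dens7 x ^ 2 ≤ t)).card : ℝ)
        ≤ ((Icc 1 n).filter (fun x => (t⁻¹) ^ 12 ≤ ((dens7 x)⁻¹) ^ 24)).card := by
      exact_mod_cast Finset.card_le_card hsub
    refine h1.trans ((markov (Icc 1 n) (fun x => ((dens7 x)⁻¹) ^ 24) (by
      intro x _; have := dens7_pos x; positivity) ((t⁻¹) ^ 12) (by positivity)).trans ?_)
    have h2 := exp_moment n
    rw [inv_pow, div_inv_eq_mul]
    apply mul_le_mul_of_nonneg_right h2 (by positivity)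

lemma dens7_mul_five (y : ℕ) : dens7 (5 * y) = dens7 y := by
  unfold dens7
  congr 1
  ext p
  simp only [pf7, mem_filter, Nat.mem_primeFactors]
  constructor
  · rintro ⟨⟨h1, h2, h3⟩, h4⟩
    refine ⟨⟨h1, ?_, by rintro rfl; simp at h3⟩, h4⟩
    rcases h1.dvd_mul.mp h2 with h | h
    · have := Nat.le_of_dvd (by norm_num) h; omega
    · exact h
  · rintro ⟨⟨h1, h2, h3⟩, h4⟩
    exact ⟨⟨h1, Dvd.dvd.mul_left h2 5, by omega⟩, h4⟩

lemma card_mul_filter (n d : ℕ) (hd : 0 < d) (q : ℕ → Prop) [DecidablePred q] :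
    ((Icc 1 n).filter (fun x => d ∣ x ∧ q x)).card
      = ((Icc 1 (n / d)).filter (fun y => q (d * y))).card := by
  symm
  apply Finset.card_bij (fun i _ => d * i)
  · intro i hi
    simp only [mem_filter, mem_Icc] at hi ⊢
    refine ⟨⟨?_, ?_⟩, dvd_mul_right _ _, hi.2⟩
    · have := hi.1.1
      exact Nat.mul_pos hd (by omega)
    · calc d * i ≤ d * (n / d) := Nat.mul_le_mul_left _ hi.1.2
        _ ≤ n := Nat.mul_div_le n d
  · intro a _ b _ hab
    exact Nat.eq_of_mul_eq_mul_left hd hab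
  · intro j hj
    simp only [mem_filter, mem_Icc] at hj
    obtain ⟨⟨h1, h2⟩, ⟨i, rfl⟩, h3⟩ := hj
    refine ⟨i, ?_, rfl⟩
    simp only [mem_filter, mem_Icc]
    refine ⟨⟨?_, ?_⟩, h3⟩
    · rcases Nat.eq_zero_or_pos i with h | h
      · simp [h] at h1
      · exact h
    · exact (Nat.le_div_iff_mul_le hd).mpr (by rw [mul_comm]; exact h2)

theorem count_level5 (n : ℕ) {t : ℝ} (ht : 0 ≤ t) :
    (((Icc 1 n).filter (fun x => 5 ∣ x ∧ dens7 x ^ 2 ≤ t)).card : ℝ)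
      ≤ 37 * (n / 5) * t ^ 12 := by
  classical
  rw [card_mul_filter n 5 (by norm_num) (fun x => dens7 x ^ 2 ≤ t)]
  simp only [dens7_mul_five]
  refine (count_level (n / 5) ht).trans ?_
  have h1 : ((n / 5 : ℕ) : ℝ) ≤ (n : ℝ) / 5 := by
    have := Nat.cast_div_le (α := ℝ) (m := n) (n := 5)
    exact_mod_cast this
  have h2 : (0 : ℝ) ≤ t ^ 12 := by positivity
  nlinarith

/-- The level of a single element. -/
noncomputable def u (x : ℕ) : ℝ := if 5 ∣ x then 4 / 5 * dens7 x ^ 2 else dens7 x ^ 2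

lemma u_pos (x : ℕ) : 0 < u x := by
  unfold u
  have := dens7_pos x
  split_ifs <;> positivity

lemma u_le_one (x : ℕ) : u x ≤ 1 := by
  unfold u
  have h0 := dens7_pos x
  have h1 := dens7_le_one x
  have h2 : dens7 x ^ 2 ≤ 1 := pow_le_one₀ h0.le h1
  split_ifs
  · linarith
  · exact h2

/-- Number of `x ≤ n` of level at most `t`. -/
theorem count_u (n : ℕ) {t : ℝ} (ht : 0 ≤ t) :
    (((Icc 1 n).filter (fun x => u x ≤ t)).card : ℝ) ≤ 145 * n * t ^ 12 := by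
  classical
  have hsub : (Icc 1 n).filter (fun x => u x ≤ t)
      ⊆ (Icc 1 n).filter (fun x => 5 ∣ x ∧ dens7 x ^ 2 ≤ 5 / 4 * t)
        ∪ (Icc 1 n).filter (fun x => dens7 x ^ 2 ≤ t) := by
    intro x hx
    rw [mem_filter] at hx
    rw [mem_union, mem_filter, mem_filter]
    obtain ⟨h1, h2⟩ := hx
    unfold u at h2
    split_ifs at h2 with h5
    · left; exact ⟨h1, h5, by linarith⟩
    · right; exact ⟨h1, h2⟩
  have h1 : (((Icc 1 n).filter (fun x => u x ≤ t)).card : ℝ)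
      ≤ ((Icc 1 n).filter (fun x => 5 ∣ x ∧ dens7 x ^ 2 ≤ 5 / 4 * t)).card
        + ((Icc 1 n).filter (fun x => dens7 x ^ 2 ≤ t)).card := by
    exact_mod_cast (Finset.card_le_card hsub).trans (Finset.card_union_le _ _)
  have h2 := count_level n ht
  have h3 := count_level5 n (t := 5 / 4 * t) (by positivity)
  have h4 : (5 / 4 * t) ^ 12 = (5 / 4) ^ 12 * t ^ 12 := by ring
  rw [h4] at h3
  have h5 : (0 : ℝ) ≤ n * t ^ 12 := by positivity
  have h6 : (37 : ℝ) * (n / 5) * ((5 / 4) ^ 12 * t ^ 12) = (37 / 5 * (5 / 4) ^ 12) * (n * t ^ 12) := by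
    ring
  rw [h6] at h3
  have h7 : (37 / 5 * (5 / 4) ^ 12 : ℝ) ≤ 108 := by norm_num
  nlinarith

lemma dens_union_ge (P Q : Finset ℕ) (hP : ∀ p ∈ P, p.Prime) (hQ : ∀ p ∈ Q, p.Prime) :
    dens P * dens Q ≤ dens (P ∪ Q) := by
  unfold dens
  rw [← Finset.prod_union_inter]
  have h1 : (∏ p ∈ P ∩ Q, (1 - 1 / (p : ℝ))) ≤ 1 :=
    dens_le_one (P ∩ Q) (fun p hp => hP p (mem_inter.mp hp).1)
  have h2 : 0 ≤ (∏ p ∈ P ∪ Q, (1 - 1 / (p : ℝ))) :=
    (dens_pos (P ∪ Q) (fun p hp => by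
      rcases mem_union.mp hp with h | h
      · exact hP p h
      · exact hQ p h)).le
  exact mul_le_of_le_one_right h2 h1

lemma pf5_mul {x y : ℕ} (hx : x ≠ 0) (hy : y ≠ 0) :
    pf5 (x * y) = pf5 x ∪ pf5 y := by
  unfold pf5
  rw [Nat.primeFactors_mul hx hy, Finset.filter_union]

lemma pf7_mul {x y : ℕ} (hx : x ≠ 0) (hy : y ≠ 0) :
    pf7 (x * y) = pf7 x ∪ pf7 y := by
  unfold pf7
  rw [Nat.primeFactors_mul hx hy, Finset.filter_union]

lemma pf5_eq_of_dvd {z : ℕ} (hz : z ≠ 0) (h : 5 ∣ z) : pf5 z = insert 5 (pf7 z) := by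
  ext p
  simp only [pf5, pf7, mem_insert, mem_filter, Nat.mem_primeFactors]
  constructor
  · rintro ⟨⟨h1, h2, h3⟩, h4⟩
    rcases Nat.lt_or_ge p 7 with h7 | h7
    · left
      interval_cases p
      · rfl
      · norm_num at h1
    · right; exact ⟨⟨h1, h2, h3⟩, h7⟩
  · rintro (rfl | ⟨h1, h2⟩)
    · exact ⟨⟨by norm_num, h, hz⟩, le_rfl⟩
    · exact ⟨h1, by omega⟩

lemma pf5_eq_of_not_dvd {z : ℕ} (h : ¬ 5 ∣ z) : pf5 z = pf7 z := by
  ext p
  simp only [pf5, pf7, mem_filter, Nat.mem_primeFactors]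
  constructor
  · rintro ⟨⟨h1, h2, h3⟩, h4⟩
    refine ⟨⟨h1, h2, h3⟩, ?_⟩
    by_contra h7
    push Not at h7
    interval_cases p
    · exact h h2
    · norm_num at h1
  · rintro ⟨h1, h2⟩
    exact ⟨h1, by omega⟩

lemma dens5_of_dvd {z : ℕ} (hz : z ≠ 0) (h : 5 ∣ z) : dens (pf5 z) = 4 / 5 * dens7 z := by
  rw [pf5_eq_of_dvd hz h, dens_insert (by
    intro h'
    have := pf7_ge 5 h'
    omega), dens7]
  norm_num

lemma dens5_of_not_dvd {z : ℕ} (h : ¬ 5 ∣ z) : dens (pf5 z) = dens7 z := by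
  rw [pf5_eq_of_not_dvd h, dens7]

lemma dens7_mul_ge {x y : ℕ} (hx : x ≠ 0) (hy : y ≠ 0) :
    dens7 x * dens7 y ≤ dens7 (x * y) := by
  unfold dens7
  rw [pf7_mul hx hy]
  exact dens_union_ge _ _ pf7_prime pf7_prime

/-- Two elements which are both multiples of 5, or both not. -/
theorem dens_pair_same {x y : ℕ} (hx : x ≠ 0) (hy : y ≠ 0) (h : 5 ∣ x ↔ 5 ∣ y) {t : ℝ}
    (h1 : t ≤ u x) (h2 : t ≤ u y) : t ≤ dens (pf5 (x * y)) := by
  have hA := dens7_mul_ge hx hy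
  have hx0 := dens7_pos x
  have hy0 := dens7_pos y
  have hprod : min (dens7 x ^ 2) (dens7 y ^ 2) ≤ dens7 x * dens7 y := by
    rcases le_total (dens7 x) (dens7 y) with hle | hle
    · exact (min_le_left _ _).trans (by nlinarith)
    · exact (min_le_right _ _).trans (by nlinarith)
  by_cases h5 : 5 ∣ x
  · have h5y := h.mp h5
    rw [dens5_of_dvd (Nat.mul_ne_zero hx hy) (Dvd.dvd.mul_right h5 y)]
    unfold u at h1 h2
    rw [if_pos h5] at h1
    rw [if_pos h5y] at h2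
    have : t ≤ 4 / 5 * min (dens7 x ^ 2) (dens7 y ^ 2) := by
      rcases min_choice (dens7 x ^ 2) (dens7 y ^ 2) with hm | hm <;> rw [hm] <;> assumption
    linarith
  · have h5y : ¬ 5 ∣ y := fun h' => h5 (h.mpr h')
    have h5xy : ¬ 5 ∣ x * y := fun h' => by
      rcases (by norm_num : Nat.Prime 5).dvd_mul.mp h' with h'' | h''
      · exact h5 h''
      · exact h5y h''
    rw [dens5_of_not_dvd h5xy]
    unfold u at h1 h2
    rw [if_neg h5] at h1
    rw [if_neg h5y] at h2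
    have : t ≤ min (dens7 x ^ 2) (dens7 y ^ 2) := le_min h1 h2
    linarith

/-- Any two elements: `dens ≥ 0.894 t`. -/
theorem dens_pair_any {x y : ℕ} (hx : x ≠ 0) (hy : y ≠ 0) {t : ℝ} (ht : 0 ≤ t)
    (h1 : t ≤ u x) (h2 : t ≤ u y) : 0.894 * t ≤ dens (pf5 (x * y)) := by
  by_cases h : 5 ∣ x ↔ 5 ∣ y
  · have := dens_pair_same hx hy h h1 h2
    linarith
  · have hA := dens7_mul_ge hx hy
    have hx0 := dens7_pos x
    have hy0 := dens7_pos y
    have h5xy : 5 ∣ x * y := by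
      by_cases h5 : 5 ∣ x
      · exact Dvd.dvd.mul_right h5 y
      · have : 5 ∣ y := by tauto
        exact Dvd.dvd.mul_left this x
    rw [dens5_of_dvd (Nat.mul_ne_zero hx hy) h5xy]
    have hsq : 4 / 5 * (t ^ 2) ≤ (4 / 5 * (dens7 x * dens7 y)) ^ 2 := by
      have hu : t * t ≤ u x * u y := mul_le_mul h1 h2 ht (u_pos x).le
      have hu2 : u x * u y = 4 / 5 * (dens7 x ^ 2 * dens7 y ^ 2) := by
        unfold u
        by_cases h5 : 5 ∣ x
        · have h5y : ¬ 5 ∣ y := by tauto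
          rw [if_pos h5, if_neg h5y]; ring
        · have h5y : 5 ∣ y := by tauto
          rw [if_neg h5, if_pos h5y]; ring
      rw [hu2] at hu
      have e : (4 / 5 * (dens7 x * dens7 y)) ^ 2
          = 4 / 5 * (4 / 5 * (dens7 x ^ 2 * dens7 y ^ 2)) := by ring
      rw [e, sq]
      linarith
    have h3 : (0.894 * t) ^ 2 ≤ (4 / 5 * (dens7 x * dens7 y)) ^ 2 := by
      refine le_trans ?_ hsq
      have : 0 ≤ t ^ 2 := by positivity
      nlinarith
    have h4 : 0.894 * t ≤ 4 / 5 * (dens7 x * dens7 y) :=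
      le_of_sq_le_sq h3 (by positivity)
    linarith

end Pool.Agent.H2.Cop
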