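import Pool.Agent.H2.Cop.Count

set_option autoImplicit false

/-!
Moment (Rankin type) bounds: sums over a finite set `X` of natural numbers of the product of
`1 + h p` over the primes `p ∈ P` dividing the element.
-/

namespace Pool.Agent.H2.Cop

open Finset

/-- The general moment lemma. -/
theorem moment (X P : Finset ℕ) (h : ℕ → ℝ) (hh : ∀ p ∈ P, 0 ≤ h p) (a b : ℝ)
    (hX : ∀ D ⊆ P, ((X.filter (fun x => ∀ p ∈ D, p ∣ x)).card : ℝ) ≤ a / (∏ p ∈ D, (p : ℝ)) + b) :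
    ∑ x ∈ X, ∏ p ∈ P.filter (fun p => p ∣ x), (1 + h p)
      ≤ a * ∏ p ∈ P, (1 + h p / p) + b * ∏ p ∈ P, (1 + h p) := by
  have h1 : ∀ x ∈ X, ∏ p ∈ P.filter (fun p => p ∣ x), (1 + h p)
      = ∑ D ∈ P.powerset, if (∀ p ∈ D, p ∣ x) then ∏ p ∈ D, h p else 0 := by
    intro x _
    rw [Finset.prod_one_add, ← Finset.sum_filter]
    apply Finset.sum_congr _ (fun _ _ => rfl)
    ext D
    simp only [mem_powerset, mem_filter, subset_iff]
    constructor
    · intro hD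
      exact ⟨fun p hp => (hD hp).1, fun p hp => (hD hp).2⟩
    · rintro ⟨hD1, hD2⟩ p hp
      exact ⟨hD1 hp, hD2 p hp⟩
  rw [Finset.sum_congr rfl h1, Finset.sum_comm]
  have h2 : ∀ D ∈ P.powerset,
      (∑ x ∈ X, if (∀ p ∈ D, p ∣ x) then ∏ p ∈ D, h p else 0)
        ≤ a * ∏ p ∈ D, (h p / p) + b * ∏ p ∈ D, h p := by
    intro D hD
    rw [mem_powerset] at hD
    rw [← Finset.sum_filter, Finset.sum_const, nsmul_eq_mul]
    have hnn : 0 ≤ ∏ p ∈ D, h p := Finset.prod_nonneg (fun p hp => hh p (hD hp))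
    calc ((X.filter (fun x => ∀ p ∈ D, p ∣ x)).card : ℝ) * ∏ p ∈ D, h p
        ≤ (a / (∏ p ∈ D, (p : ℝ)) + b) * ∏ p ∈ D, h p := by
          apply mul_le_mul_of_nonneg_right (hX D hD) hnn
      _ = a * ∏ p ∈ D, (h p / p) + b * ∏ p ∈ D, h p := by
          rw [Finset.prod_div_distrib]; ring
  refine (Finset.sum_le_sum h2).trans (le_of_eq ?_)
  rw [Finset.sum_add_distrib, ← Finset.mul_sum, ← Finset.mul_sum, ← Finset.prod_one_add,
    ← Finset.prod_one_add]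

lemma forall_prime_dvd_iff {D : Finset ℕ} (hD : ∀ p ∈ D, p.Prime) (x : ℕ) :
    (∀ p ∈ D, p ∣ x) ↔ (∏ p ∈ D, p) ∣ x := by
  constructor
  · intro h
    exact Finset.prod_primes_dvd x (fun p hp => (hD p hp).prime) h
  · intro h p hp
    exact (Finset.dvd_prod_of_mem _ hp).trans h

lemma prod_primes_pos {D : Finset ℕ} (hD : ∀ p ∈ D, p.Prime) : 0 < ∏ p ∈ D, p :=
  Finset.prod_pos (fun p hp => (hD p hp).pos)

/-- `d` is coprime to `6` when it is a product of primes `≥ 5`. -/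
lemma prod_not_dvd {D : Finset ℕ} (hD : ∀ p ∈ D, p.Prime) (h5 : ∀ p ∈ D, 5 ≤ p) {q : ℕ}
    (hq : q.Prime) (hq5 : q < 5) : ¬ q ∣ ∏ p ∈ D, p := by
  intro h
  obtain ⟨p, hp, hqp⟩ := (hq.prime.dvd_finsetProd_iff _).mp h
  have := (Nat.prime_dvd_prime_iff_eq hq (hD p hp)).mp hqp
  have := h5 p hp
  omega

/-- In `[1, n]` the count of elements divisible by all `p ∈ D` is at most `n / ∏ D`. -/
lemma count_Icc {D : Finset ℕ} (hD : ∀ p ∈ D, p.Prime) (n : ℕ) :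
    (((Icc 1 n).filter (fun x => ∀ p ∈ D, p ∣ x)).card : ℝ) ≤ n / (∏ p ∈ D, (p : ℝ)) + 0 := by
  have h1 : (Icc 1 n).filter (fun x => ∀ p ∈ D, p ∣ x)
      = (Icc 1 n).filter (fun j => (∏ p ∈ D, p) ∣ j ∧ Avoids ∅ j) := by
    ext x
    simp only [mem_filter, forall_prime_dvd_iff hD]
    simp [Avoids]
  rw [h1, card_mul_avoids ∅ _ n (prod_primes_pos hD) (by simp) (by simp), cop_empty, add_zero]
  have : (∏ p ∈ D, (p : ℝ)) = ((∏ p ∈ D, p : ℕ) : ℝ) := by push_cast; rfl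
  rw [this]
  exact Nat.cast_div_le

/-- In the class `T` of odd multiples of 3: at most `n / (6 ∏ D) + 1/2`. -/
lemma count_T {D : Finset ℕ} (hD : ∀ p ∈ D, p.Prime) (h5 : ∀ p ∈ D, 5 ≤ p) (n : ℕ) :
    ((((Icc 1 n).filter (fun j => 3 ∣ j ∧ ¬ 2 ∣ j)).filter
      (fun x => ∀ p ∈ D, p ∣ x)).card : ℝ) ≤ (n / 6) / (∏ p ∈ D, (p : ℝ)) + 1 / 2 := by
  have hd := prod_primes_pos hD
  set d := ∏ p ∈ D, p with hdef
  have h2d : ¬ 2 ∣ d := prod_not_dvd hD h5 Nat.prime_two (by norm_num)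
  have h3d : ¬ 3 ∣ d := prod_not_dvd hD h5 Nat.prime_three (by norm_num)
  have hcop3 : Nat.Coprime 3 d := (Nat.Prime.coprime_iff_not_dvd Nat.prime_three).mpr h3d
  have h1 : ((Icc 1 n).filter (fun j => 3 ∣ j ∧ ¬ 2 ∣ j)).filter (fun x => ∀ p ∈ D, p ∣ x)
      = (Icc 1 n).filter (fun j => (3 * d) ∣ j ∧ Avoids {2} j) := by
    ext x
    simp only [mem_filter, forall_prime_dvd_iff hD, Avoids, mem_singleton, forall_eq]
    constructor
    · rintro ⟨⟨h1, h3, h2⟩, h4⟩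
      exact ⟨h1, hcop3.mul_dvd_of_dvd_of_dvd h3 h4, h2⟩
    · rintro ⟨h1, h3, h2⟩
      exact ⟨⟨h1, (dvd_mul_right 3 d).trans h3, h2⟩, (dvd_mul_left d 3).trans h3⟩
  rw [h1, card_mul_avoids {2} _ n (by positivity) (by simp [Nat.prime_two]) (by
    simp only [mem_singleton, forall_eq]
    intro h
    rcases Nat.prime_two.dvd_mul.mp h with h | h
    · norm_num at h
    · exact h2d h)]
  have h2 : ∀ y : ℕ, 2 * cop {2} y ≤ y + 1 := by
    intro y
    have := cop_insert (P := ∅) (p := 2) (by simp) Nat.prime_two (by simp) y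
    simp only [cop_empty, insert_empty_eq] at this
    omega
  have h3 := h2 (n / (3 * d))
  have h4 : (2 : ℝ) * cop {2} (n / (3 * d)) ≤ ((n / (3 * d) : ℕ) : ℝ) + 1 := by exact_mod_cast h3
  have h5' : ((n / (3 * d) : ℕ) : ℝ) ≤ (n : ℝ) / ((3 * d : ℕ) : ℝ) := Nat.cast_div_le
  have h6 : (∏ p ∈ D, (p : ℝ)) = (d : ℝ) := by rw [hdef]; push_cast; rfl
  rw [h6]
  push_cast at h5'
  have hdR : (0 : ℝ) < d := by exact_mod_cast hd
  have h7 : (n : ℝ) / (3 * d) = 2 * ((n / 6) / d) := by field_simp; ring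
  rw [h7] at h5'
  linarith

/-- In the class `R` of numbers coprime to 6: at most `n / (3 ∏ D) + 2/3`. -/
lemma count_R {D : Finset ℕ} (hD : ∀ p ∈ D, p.Prime) (h5 : ∀ p ∈ D, 5 ≤ p) (n : ℕ) :
    ((((Icc 1 n).filter (fun j => ¬ 2 ∣ j ∧ ¬ 3 ∣ j)).filter
      (fun x => ∀ p ∈ D, p ∣ x)).card : ℝ) ≤ (n / 3) / (∏ p ∈ D, (p : ℝ)) + 2 / 3 := by
  have hd := prod_primes_pos hD
  set d := ∏ p ∈ D, p with hdef
  have h2d : ¬ 2 ∣ d := prod_not_dvd hD h5 Nat.prime_two (by norm_num)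
  have h3d : ¬ 3 ∣ d := prod_not_dvd hD h5 Nat.prime_three (by norm_num)
  have h1 : ((Icc 1 n).filter (fun j => ¬ 2 ∣ j ∧ ¬ 3 ∣ j)).filter (fun x => ∀ p ∈ D, p ∣ x)
      = (Icc 1 n).filter (fun j => d ∣ j ∧ Avoids {2, 3} j) := by
    ext x
    simp only [mem_filter, forall_prime_dvd_iff hD, Avoids, mem_insert, mem_singleton,
      forall_eq_or_imp, forall_eq, ← hdef]
    tauto
  rw [h1, card_mul_avoids {2, 3} _ n hd (by simp [Nat.prime_two, Nat.prime_three]) (by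
    simp only [mem_insert, mem_singleton, forall_eq_or_imp, forall_eq]
    exact ⟨h2d, h3d⟩)]
  have h2 : ∀ y : ℕ, 3 * cop {2, 3} y ≤ y + 2 := by
    intro y
    have e1 : ∀ z, cop {3} z = z - z / 3 := by
      intro z
      have := cop_insert (P := ∅) (p := 3) (by simp) Nat.prime_three (by simp) z
      simp only [cop_empty, insert_empty_eq] at this
      omega
    have := cop_insert (P := {3}) (p := 2) (by simp [Nat.prime_three]) Nat.prime_two (by simp) y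
    rw [e1, e1] at this
    omega
  have h3 := h2 (n / d)
  have h4 : (3 : ℝ) * cop {2, 3} (n / d) ≤ ((n / d : ℕ) : ℝ) + 2 := by exact_mod_cast h3
  have h5' : ((n / d : ℕ) : ℝ) ≤ (n : ℝ) / d := Nat.cast_div_le
  have h6 : (∏ p ∈ D, (p : ℝ)) = (d : ℝ) := by rw [hdef]; push_cast; rfl
  rw [h6]
  have hdR : (0 : ℝ) < d := by exact_mod_cast hd
  have h7 : (n : ℝ) / d = 3 * ((n / 3) / d) := by field_simp
  rw [h7] at h5'
  linarith

/-- Markov: the number of `x ∈ X` with `F x ≥ c`. -/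
theorem markov (X : Finset ℕ) (F : ℕ → ℝ) (hF : ∀ x ∈ X, 0 ≤ F x) (c : ℝ) (hc : 0 < c) :
    ((X.filter (fun x => c ≤ F x)).card : ℝ) ≤ (∑ x ∈ X, F x) / c := by
  rw [le_div_iff₀ hc]
  calc ((X.filter (fun x => c ≤ F x)).card : ℝ) * c
      = ∑ x ∈ X.filter (fun x => c ≤ F x), c := by rw [Finset.sum_const, nsmul_eq_mul]
    _ ≤ ∑ x ∈ X.filter (fun x => c ≤ F x), F x := by
        apply Finset.sum_le_sum
        intro x hx
        exact (mem_filter.mp hx).2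
    _ ≤ ∑ x ∈ X, F x := by
        apply Finset.sum_le_sum_of_subset_of_nonneg (filter_subset _ _)
        intro x hx _
        exact hF x hx

end Pool.Agent.H2.Cop
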