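import Pool.Agent.H2.Cop.Moment

set_option autoImplicit false

/-!
Bounds for the number of prime factors and for `∏ (1 - 1/p)`, over finite sets of primes `≥ 5`.
-/

namespace Pool.Agent.H2.Cop

open Finset

/-- General splitting: if the set `P` of primes satisfies `f p ≤ g p` outside an explicit finite
set `S`, and `1 ≤ g p` on `S`... -/
lemma prod_le_of_small (P S : Finset ℕ) (w : ℕ → ℝ) (hw0 : ∀ p ∈ P, 0 ≤ w p)
    (hS1 : ∀ p ∈ S, 1 ≤ w p) (hout : ∀ p ∈ P, p ∉ S → w p ≤ 1) :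
    ∏ p ∈ P, w p ≤ ∏ p ∈ S, w p := by
  rw [← Finset.prod_sdiff (Finset.inter_subset_left : P ∩ S ⊆ P)]
  have h1 : ∏ p ∈ P \ (P ∩ S), w p ≤ 1 := by
    apply Finset.prod_le_one
    · intro p hp
      exact hw0 p (mem_sdiff.mp hp).1
    · intro p hp
      rw [mem_sdiff, mem_inter] at hp
      exact hout p hp.1 (fun h => hp.2 ⟨hp.1, h⟩)
  have h2 : ∏ p ∈ P ∩ S, w p ≤ ∏ p ∈ S, w p := by
    rw [← Finset.prod_sdiff (Finset.inter_subset_right : P ∩ S ⊆ S)]
    have h3 : (1 : ℝ) ≤ ∏ p ∈ S \ (P ∩ S), w p := by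
      apply Finset.one_le_prod
      intro p hp
      exact hS1 p (mem_sdiff.mp hp).1
    have h4 : 0 ≤ ∏ p ∈ P ∩ S, w p :=
      Finset.prod_nonneg (fun p hp => hw0 p (mem_inter.mp hp).1)
    nlinarith
  have h4 : 0 ≤ ∏ p ∈ P ∩ S, w p :=
    Finset.prod_nonneg (fun p hp => hw0 p (mem_inter.mp hp).1)
  nlinarith

/-- `2 ^ |P| ≤ 1.91 * (∏ P) ^ (1/4)` in the form `(2 ^ |P|)^4 ≤ 13.3 ∏ P`, for primes `≥ 5`. -/
theorem two_pow_card_pow_four (P : Finset ℕ) (hP : ∀ p ∈ P, p.Prime) (h5 : ∀ p ∈ P, 5 ≤ p) :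
    ((2 : ℝ) ^ P.card) ^ 4 ≤ 13.1 * ∏ p ∈ P, (p : ℝ) := by
  have hpos : (0 : ℝ) < ∏ p ∈ P, (p : ℝ) :=
    Finset.prod_pos (fun p hp => by exact_mod_cast (hP p hp).pos)
  have h1 : ((2 : ℝ) ^ P.card) ^ 4 = ∏ _p ∈ P, (16 : ℝ) := by
    rw [Finset.prod_const, ← pow_mul, mul_comm, pow_mul]; norm_num
  have h2 : ∏ p ∈ P, (16 / (p : ℝ)) ≤ ∏ p ∈ ({5, 7, 11, 13} : Finset ℕ), (16 / (p : ℝ)) := by
    apply prod_le_of_small
    · intro p hp; positivity
    · intro p hp
      simp only [mem_insert, mem_singleton] at hp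
      rcases hp with rfl | rfl | rfl | rfl <;> norm_num
    · intro p hp hpS
      have h5p := h5 p hp
      have hpp := hP p hp
      simp only [mem_insert, mem_singleton, not_or] at hpS
      have : 16 ≤ p := by
        by_contra hlt
        push Not at hlt
        interval_cases p <;> first | omega | (norm_num at hpp)
      rw [div_le_one (by positivity)]
      exact_mod_cast this
  have h3 : ∏ p ∈ ({5, 7, 11, 13} : Finset ℕ), (16 / (p : ℝ)) ≤ 13.1 := by
    norm_num [Finset.prod_insert]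
  rw [Finset.prod_div_distrib] at h2
  have h4 := h2.trans h3
  rw [div_le_iff₀ hpos] at h4
  rw [h1]; exact h4

/-- `∏ (1-1/p)⁻¹` is tiny compared with `∏ p`: `(∏ (1-1/p)⁻¹)^16 ≤ 12.3 ∏ p`. -/
theorem dens_inv_pow (P : Finset ℕ) (hP : ∀ p ∈ P, p.Prime) (h5 : ∀ p ∈ P, 5 ≤ p) :
    ((dens P)⁻¹) ^ 16 ≤ 12.3 * ∏ p ∈ P, (p : ℝ) := by
  have hpos : (0 : ℝ) < ∏ p ∈ P, (p : ℝ) :=
    Finset.prod_pos (fun p hp => by exact_mod_cast (hP p hp).pos)
  set w : ℕ → ℝ := fun p => ((1 - 1 / (p : ℝ))⁻¹) ^ 16 / p with hw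
  have hge : ∀ p ∈ P, (0 : ℝ) < 1 - 1 / (p : ℝ) := by
    intro p hp
    have : (2 : ℝ) ≤ p := by exact_mod_cast (hP p hp).two_le
    have h : 1 / (p : ℝ) ≤ 1 / 2 := by gcongr
    linarith
  have h1 : ((dens P)⁻¹) ^ 16 / ∏ p ∈ P, (p : ℝ) = ∏ p ∈ P, w p := by
    unfold dens
    rw [← Finset.prod_inv_distrib, ← Finset.prod_pow, ← Finset.prod_div_distrib]
  have h2 : ∏ p ∈ P, w p ≤ ∏ p ∈ ({5, 7} : Finset ℕ), w p := by
    apply prod_le_of_small
    · intro p hp
      have := hge p hp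
      simp only [hw]; positivity
    · intro p hp
      simp only [mem_insert, mem_singleton] at hp
      rcases hp with rfl | rfl <;> simp only [hw] <;> norm_num
    · intro p hp hpS
      have h5p := h5 p hp
      have hpp := hP p hp
      simp only [mem_insert, mem_singleton, not_or] at hpS
      have h11 : 11 ≤ p := by
        by_contra hlt
        push Not at hlt
        interval_cases p <;> first | omega | (norm_num at hpp)
      have hp11 : (11 : ℝ) ≤ p := by exact_mod_cast h11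
      have hpos' : (0 : ℝ) < p := by linarith
      simp only [hw]
      rw [div_le_one hpos']
      have h3 : (1 - 1 / (p : ℝ))⁻¹ ≤ 11 / 10 := by
        rw [inv_le_comm₀ (hge p hp) (by norm_num)]
        have : 1 / (p : ℝ) ≤ 1 / 11 := by gcongr
        linarith
      calc ((1 - 1 / (p : ℝ))⁻¹) ^ 16 ≤ (11 / 10 : ℝ) ^ 16 := by
            apply pow_le_pow_left₀
            · exact (inv_pos.mpr (hge p hp)).le
            · exact h3
        _ ≤ 11 := by norm_num
        _ ≤ p := hp11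
  have h3 : ∏ p ∈ ({5, 7} : Finset ℕ), w p ≤ 12.3 := by
    rw [Finset.prod_insert (by norm_num), Finset.prod_singleton]
    simp only [hw]; norm_num
  rw [← h1] at h2
  have h4 := h2.trans h3
  rwa [div_le_iff₀ hpos] at h4

/-! ### Comparison with the first primes -/

/-- the first twelve primes `≥ 5` -/
def L5 : ℕ → ℕ
  | 0 => 5 | 1 => 7 | 2 => 11 | 3 => 13 | 4 => 17 | 5 => 19 | 6 => 23 | 7 => 29 | 8 => 31
  | 9 => 37 | 10 => 41 | 11 => 43 | _ => 47

lemma L5_count (k : ℕ) (hk : k ≤ 12) : ((Ico 5 (L5 k)).filter Nat.Prime).card ≤ k := by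
  interval_cases k <;> decide

lemma exists_large {P : Finset ℕ} (hP : ∀ p ∈ P, p.Prime) (h5 : ∀ p ∈ P, 5 ≤ p) {k : ℕ}
    (hk : k ≤ 12) (hcard : k + 1 ≤ P.card) : ∃ p ∈ P, L5 k ≤ p := by
  by_contra hcon
  push Not at hcon
  have hsub : P ⊆ (Ico 5 (L5 k)).filter Nat.Prime := by
    intro p hp
    simp only [mem_filter, mem_Ico]
    exact ⟨⟨h5 p hp, hcon p hp⟩, hP p hp⟩
  have := Finset.card_le_card hsub
  have := L5_count k hk
  omega

/-- A set of `k` primes `≥ 5` has product at least that of the first `k` of them, and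
`∏ (1 - 1/p)` at least that of the first `k`. -/
theorem compare_first (k : ℕ) (hk : k ≤ 13) : ∀ P : Finset ℕ, (∀ p ∈ P, p.Prime) →
    (∀ p ∈ P, 5 ≤ p) → P.card = k →
    (∏ i ∈ range k, (L5 i : ℝ)) ≤ ∏ p ∈ P, (p : ℝ) ∧
    (∏ i ∈ range k, (1 - 1 / (L5 i : ℝ))) ≤ dens P := by
  induction k with
  | zero =>
    intro P _ _ h0
    rw [Finset.card_eq_zero] at h0
    subst h0
    simp [dens]
  | succ k ih =>
    intro P hP h5 hcard
    obtain ⟨p, hp, hpL⟩ := exists_large hP h5 (k := k) (by omega) (by omega)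
    have hcard' : (P.erase p).card = k := by rw [Finset.card_erase_of_mem hp, hcard]; rfl
    obtain ⟨h1, h2⟩ := ih (by omega) (P.erase p) (fun q hq => hP q (mem_of_mem_erase hq))
      (fun q hq => h5 q (mem_of_mem_erase hq)) hcard'
    have hL : (5 : ℝ) ≤ L5 k := by
      have : ∀ j, 5 ≤ L5 j := by
        intro j
        unfold L5
        split <;> norm_num
      exact_mod_cast this k
    have hpL' : (L5 k : ℝ) ≤ p := by exact_mod_cast hpL
    rw [Finset.prod_range_succ, Finset.prod_range_succ]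
    constructor
    · rw [← Finset.mul_prod_erase P _ hp, mul_comm]
      have hnn : 0 ≤ ∏ x ∈ P.erase p, (x : ℝ) := Finset.prod_nonneg (fun _ _ => by positivity)
      have : (∏ i ∈ range k, (L5 i : ℝ)) ≥ 0 := Finset.prod_nonneg (fun _ _ => by positivity)
      calc (L5 k : ℝ) * ∏ i ∈ range k, (L5 i : ℝ) ≤ p * ∏ i ∈ range k, (L5 i : ℝ) := by
            gcongr
        _ ≤ p * ∏ x ∈ P.erase p, (x : ℝ) := by gcongr
    · unfold dens at h2 ⊢
      rw [← Finset.mul_prod_erase P _ hp, mul_comm]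
      have hA : 1 / (p : ℝ) ≤ 1 / (L5 k : ℝ) := by gcongr
      have hB : 1 / (L5 k : ℝ) ≤ 1 / 5 := by gcongr
      have hC : 0 ≤ ∏ x ∈ P.erase p, (1 - 1 / (x : ℝ)) :=
        (dens_pos (P.erase p) (fun q hq => hP q (mem_of_mem_erase hq))).le
      have hD : 0 ≤ ∏ i ∈ range k, (1 - 1 / (L5 i : ℝ)) := by
        apply Finset.prod_nonneg
        intro i _
        have : 5 ≤ L5 i := by unfold L5; split <;> norm_num
        have h' : (5 : ℝ) ≤ L5 i := by exact_mod_cast this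
        have h'' : 1 / (L5 i : ℝ) ≤ 1 / 5 := by gcongr
        linarith
      calc (1 - 1 / (L5 k : ℝ)) * ∏ i ∈ range k, (1 - 1 / (L5 i : ℝ))
          ≤ (1 - 1 / (p : ℝ)) * ∏ i ∈ range k, (1 - 1 / (L5 i : ℝ)) := by
            apply mul_le_mul_of_nonneg_right _ hD
            linarith
        _ ≤ (1 - 1 / (p : ℝ)) * ∏ x ∈ P.erase p, (1 - 1 / (x : ℝ)) := by
            apply mul_le_mul_of_nonneg_left h2
            linarith

/-- the set-version for `card ≤ k` -/
theorem dens_ge_of_card_le (k : ℕ) (hk : k ≤ 13) (P : Finset ℕ) (hP : ∀ p ∈ P, p.Prime)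
    (h5 : ∀ p ∈ P, 5 ≤ p) (hcard : P.card ≤ k) :
    (∏ i ∈ range k, (1 - 1 / (L5 i : ℝ))) ≤ dens P := by
  have h1 := (compare_first P.card (by omega) P hP h5 rfl).2
  refine le_trans ?_ h1
  have hf : ∀ i, 0 ≤ 1 - 1 / (L5 i : ℝ) ∧ 1 - 1 / (L5 i : ℝ) ≤ 1 := by
    intro i
    have : 5 ≤ L5 i := by unfold L5; split <;> norm_num
    have h' : (5 : ℝ) ≤ L5 i := by exact_mod_cast this
    have h'' : 1 / (L5 i : ℝ) ≤ 1 / 5 := by gcongr
    have h''' : 0 ≤ 1 / (L5 i : ℝ) := by positivity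
    constructor <;> linarith
  obtain ⟨d, rfl⟩ := Nat.exists_eq_add_of_le hcard
  clear hk hcard h1
  induction d with
  | zero => exact le_rfl
  | succ d ih =>
    rw [← Nat.add_assoc, Finset.prod_range_succ]
    refine le_trans ?_ ih
    exact mul_le_of_le_one_right (Finset.prod_nonneg (fun i _ => (hf i).1)) (hf _).2

/-- `card P < k` as soon as the product is smaller than that of the first `k` primes. -/
theorem card_lt_of_prod_lt (k : ℕ) (hk : k ≤ 13) (P : Finset ℕ) (hP : ∀ p ∈ P, p.Prime)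
    (h5 : ∀ p ∈ P, 5 ≤ p) (hprod : ∏ p ∈ P, p < ∏ i ∈ range k, L5 i) : P.card < k := by
  by_contra hcon
  push Not at hcon
  obtain ⟨Q, hQP, hQ⟩ := Finset.exists_subset_card_eq hcon
  have h1 := (compare_first k hk Q (fun q hq => hP q (hQP hq)) (fun q hq => h5 q (hQP hq)) hQ).1
  have h2 : ∏ p ∈ Q, p ≤ ∏ p ∈ P, p := by
    apply Finset.prod_le_prod_of_subset_of_one_le' hQP
    intro p hp _
    exact (hP p hp).one_le
  have h3 : ((∏ i ∈ range k, L5 i : ℕ) : ℝ) ≤ ((∏ p ∈ Q, p : ℕ) : ℝ) := by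
    push_cast; exact h1
  have h4 : ∏ i ∈ range k, L5 i ≤ ∏ p ∈ Q, p := by exact_mod_cast h3
  omega

end Pool.Agent.H2.Cop
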