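import Pool.Agent.H2.Cop.StratB1

set_option autoImplicit false

/-!
Odd cycles in the coprime graph: the case of many members coprime to 6.
-/

namespace Pool.Agent.H2.Cop

open Finset
open Pool.Agent.H15.CG (VS US mem_US mem_VS card_US card_VS HasCyc)

/-- sorted enumeration -/
theorem sorted_enum (X : Finset ℕ) (f : ℕ → ℝ) :
    ∃ e : ℕ → ℕ, (∀ i < X.card, e i ∈ X) ∧
      (∀ i < X.card, ∀ j < X.card, e i = e j → i = j) ∧
      (∀ i < X.card, ∀ j < X.card, i ≤ j → f (e j) ≤ f (e i)) := by
  classical
  suffices H : ∀ k : ℕ, ∀ X : Finset ℕ, X.card = k →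
      ∃ e : ℕ → ℕ, (∀ i < k, e i ∈ X) ∧ (∀ i < k, ∀ j < k, e i = e j → i = j) ∧
      (∀ i < k, ∀ j < k, i ≤ j → f (e j) ≤ f (e i)) from H _ X rfl
  intro k
  induction k with
  | zero => intro X _; exact ⟨fun _ => 0, by simp, by simp, by simp⟩
  | succ k ih =>
    intro X hX
    have hne : X.Nonempty := by
      rw [← Finset.card_pos]; omega
    obtain ⟨x, hx, hmin⟩ := X.exists_min_image f hne
    have hc : (X.erase x).card = k := by
      rw [Finset.card_erase_of_mem hx]; omega
    obtain ⟨e, h1, h2, h3⟩ := ih (X.erase x) hc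
    refine ⟨fun i => if i < k then e i else x, ?_, ?_, ?_⟩
    · intro i hi
      simp only
      split_ifs with h
      · exact Finset.mem_of_mem_erase (h1 i h)
      · exact hx
    · intro i hi j hj hij
      simp only at hij
      split_ifs at hij with h h'
      · exact h2 i h j h' hij
      · exact absurd hij (Finset.ne_of_mem_erase (h1 i h))
      · rename_i h'
        exact absurd hij.symm (Finset.ne_of_mem_erase (h1 j h'))
      · omega
    · intro i hi j hj hij
      simp only
      by_cases hjk : j < k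
      · rw [if_pos hjk, if_pos (by omega)]
        exact h3 i (by omega) j hjk hij
      · rw [if_neg hjk]
        split_ifs with h
        · exact hmin _ (Finset.mem_of_mem_erase (h1 i h))
        · exact le_rfl

/-- rank in a sorted enumeration -/
lemma NB_ge_of_sorted (n : ℕ) (X : Finset ℕ) (hX : X ⊆ US n) (e : ℕ → ℕ)
    (h1 : ∀ i < X.card, e i ∈ X) (h2 : ∀ i < X.card, ∀ j < X.card, e i = e j → i = j)
    (h3 : ∀ i < X.card, ∀ j < X.card, i ≤ j → s7 (e j) ≤ s7 (e i)) (i : ℕ) (hi : i < X.card) :
    i + 1 ≤ NB n (s7 (e i)) := by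
  have h : ((range (i + 1)).image e).card = i + 1 := by
    rw [Finset.card_image_of_injOn, card_range]
    intro a ha b hb hab
    simp only [coe_range, Set.mem_Iio] at ha hb
    exact h2 a (by omega) b (by omega) hab
  rw [← h]
  apply Finset.card_le_card
  intro x hx
  rw [mem_image] at hx
  obtain ⟨j, hj, rfl⟩ := hx
  rw [mem_range] at hj
  rw [mem_filter]
  exact ⟨hX (h1 j (by omega)), h3 j (by omega) i hi (by omega)⟩

/-- numbers up to `m` having a common factor with 6, not divisible by 5 -/
def gV (m : ℕ) : ℕ := ((Icc 1 m).filter (fun v => ¬ Nat.Coprime v 6 ∧ ¬ 5 ∣ v)).card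

lemma gV_eq (m : ℕ) : gV m + (VS (m / 5)).card = (VS m).card := by
  have h1 := Finset.card_filter_add_card_filter_not (s := VS m) (fun v => 5 ∣ v)
  have h2 : ((VS m).filter (fun v => ¬ 5 ∣ v)).card = gV m := by
    unfold gV VS
    rw [Finset.filter_filter]
  have h3 : ((VS m).filter (fun v => 5 ∣ v)).card = (VS (m / 5)).card := by
    have h4 := card_mul_filter m 5 (by norm_num) (fun v => ¬ Nat.Coprime v 6)
    unfold VS
    rw [Finset.filter_filter]
    have e1 : (Icc 1 m).filter (fun a => ¬ Nat.Coprime a 6 ∧ 5 ∣ a)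
        = (Icc 1 m).filter (fun x => 5 ∣ x ∧ ¬ Nat.Coprime x 6) := by
      apply Finset.filter_congr
      intro x _
      tauto
    rw [e1, h4]
    congr 1
    apply Finset.filter_congr
    intro x _
    rw [Nat.coprime_mul_iff_left]
    have : Nat.Coprime 5 6 := by norm_num
    tauto
  omega

lemma gV_bounds (m : ℕ) : 8 * m ≤ 15 * gV m + 10 ∧ 15 * gV m ≤ 8 * m + 18 := by
  have h := gV_eq m
  rw [card_VS, card_VS] at h
  obtain ⟨q, r, hr, rfl⟩ : ∃ q r, r < 30 ∧ m = 30 * q + r :=
    ⟨m / 30, m % 30, Nat.mod_lt _ (by norm_num), by omega⟩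
  have e1 : (30 * q + r) / 5 = 6 * q + r / 5 := by omega
  rw [e1] at h
  interval_cases r <;> omega

/-- members of `VS n` coprime to `x` and `y` -/
def vc (n x y : ℕ) : Finset ℕ := (VS n).filter (fun v => Nat.Coprime x v ∧ Nat.Coprime v y)

lemma vc_comm (n x y : ℕ) : vc n x y = vc n y x := by
  unfold vc
  apply Finset.filter_congr
  intro v _
  constructor
  · rintro ⟨h1, h2⟩; exact ⟨h2.symm, h1.symm⟩
  · rintro ⟨h1, h2⟩; exact ⟨h2.symm, h1.symm⟩

lemma coprime_of_pf7 {n x v : ℕ} (hx : x ∈ US n) (h5 : ¬ 5 ∣ v) (h : ∀ p ∈ pf7 x, ¬ p ∣ v) :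
    Nat.Coprime x v := by
  rw [mem_US] at hx
  apply Nat.coprime_of_dvd
  intro q hq hqx hqv
  have hq2 : q ≠ 2 := by rintro rfl; omega
  have hq3 : q ≠ 3 := by rintro rfl; omega
  have hq5 : q ≠ 5 := by rintro rfl; exact h5 hqv
  have hq7 : 7 ≤ q := by
    by_contra hlt
    push Not at hlt
    have := hq.two_le
    interval_cases q
    · exact hq2 rfl
    · exact hq3 rfl
    · exact absurd hq (by norm_num)
    · exact hq5 rfl
    · exact absurd hq (by norm_num)
  apply h q _ hqv
  rw [pf7, mem_filter, Nat.mem_primeFactors]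
  exact ⟨⟨hq, hqx, by omega⟩, hq7⟩

lemma gV_dvd (n p : ℕ) (hp : p.Prime) (hp7 : 7 ≤ p) :
    (((Icc 1 n).filter (fun v => ¬ Nat.Coprime v 6 ∧ ¬ 5 ∣ v)).filter (fun v => p ∣ v)).card
      = gV (n / p) := by
  have h4 := card_mul_filter n p hp.pos (fun v => ¬ Nat.Coprime v 6 ∧ ¬ 5 ∣ v)
  rw [Finset.filter_filter]
  have e1 : (Icc 1 n).filter (fun a => (¬ Nat.Coprime a 6 ∧ ¬ 5 ∣ a) ∧ p ∣ a)
      = (Icc 1 n).filter (fun x => p ∣ x ∧ (¬ Nat.Coprime x 6 ∧ ¬ 5 ∣ x)) := by
    apply Finset.filter_congr
    intro x _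
    tauto
  rw [e1, h4]
  unfold gV
  congr 1
  apply Finset.filter_congr
  intro x _
  rw [Nat.coprime_mul_iff_left]
  have h6 : Nat.Coprime p 6 := by
    have e : (6 : ℕ) = 2 * 3 := by norm_num
    rw [e]
    apply Nat.Coprime.mul_right
    · exact (Nat.coprime_primes hp Nat.prime_two).mpr (by omega)
    · exact (Nat.coprime_primes hp Nat.prime_three).mpr (by omega)
  have h5 : 5 ∣ p * x ↔ 5 ∣ x := by
    have hc5 : Nat.Coprime 5 p := (Nat.coprime_primes Nat.prime_five hp).mpr (by omega)
    exact hc5.dvd_mul_left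
  rw [h5]
  tauto

theorem vc_lower (n x y : ℕ) (hx : x ∈ US n) (hy : y ∈ US n) :
    (8 / 15 : ℝ) * n * (1 - s7 x - s7 y) - 2 / 3 - 6 / 5 * ((pf7 x).card + (pf7 y).card)
      ≤ ((vc n x y).card : ℝ) := by
  classical
  set P := pf7 x ∪ pf7 y with hP
  set G := (Icc 1 n).filter (fun v => ¬ Nat.Coprime v 6 ∧ ¬ 5 ∣ v) with hG
  have hPp : ∀ p ∈ P, p.Prime := by
    intro p hp
    rw [hP, mem_union] at hp
    rcases hp with h | h
    · exact pf7_prime p h
    · exact pf7_prime p h
  have hP7 : ∀ p ∈ P, 7 ≤ p := by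
    intro p hp
    rw [hP, mem_union] at hp
    rcases hp with h | h
    · exact pf7_ge p h
    · exact pf7_ge p h
  have h1 : G ⊆ vc n x y ∪ P.biUnion (fun p => G.filter (fun v => p ∣ v)) := by
    intro v hv
    by_cases h : ∃ p ∈ P, p ∣ v
    · obtain ⟨p, hp, hpv⟩ := h
      rw [mem_union, mem_biUnion]
      right
      exact ⟨p, hp, mem_filter.mpr ⟨hv, hpv⟩⟩
    · push Not at h
      rw [mem_union]
      left
      rw [hG, mem_filter] at hv
      rw [vc, mem_filter]
      refine ⟨?_, ?_, ?_⟩
      · rw [VS, mem_filter]; exact ⟨hv.1, hv.2.1⟩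
      · exact coprime_of_pf7 hx hv.2.2 (fun p hp => h p (mem_union_left _ hp))
      · exact (coprime_of_pf7 hy hv.2.2 (fun p hp => h p (mem_union_right _ hp))).symm
  have h2 : gV n ≤ (vc n x y).card + ∑ p ∈ P, gV (n / p) := by
    calc gV n = G.card := rfl
      _ ≤ _ := Finset.card_le_card h1
      _ ≤ _ := Finset.card_union_le _ _
      _ ≤ (vc n x y).card + ∑ p ∈ P, (G.filter (fun v => p ∣ v)).card := by
          gcongr
          exact Finset.card_biUnion_le
      _ = _ := by
          congr 1
          apply Finset.sum_congr rfl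
          intro p hp
          exact gV_dvd n p (hPp p hp) (hP7 p hp)
  have h3 : (gV n : ℝ) ≤ (vc n x y).card + ∑ p ∈ P, (gV (n / p) : ℝ) := by exact_mod_cast h2
  have h4 : ∀ p ∈ P, (gV (n / p) : ℝ) ≤ 8 / 15 * n * (1 / p) + 6 / 5 := by
    intro p _
    have h5 := (gV_bounds (n / p)).2
    have h6 : (15 : ℝ) * gV (n / p) ≤ 8 * ((n / p : ℕ) : ℝ) + 18 := by exact_mod_cast h5
    have h7 : ((n / p : ℕ) : ℝ) ≤ (n : ℝ) / p := Nat.cast_div_le
    have e : (n : ℝ) / p = n * (1 / p) := by ring
    rw [e] at h7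
    linarith
  have h5 := Finset.sum_le_sum h4
  rw [Finset.sum_add_distrib, ← Finset.mul_sum, Finset.sum_const, nsmul_eq_mul] at h5
  have h6 : ∑ p ∈ P, 1 / (p : ℝ) ≤ s7 x + s7 y := by
    have h7 := Finset.sum_union_inter (s₁ := pf7 x) (s₂ := pf7 y) (f := fun p => 1 / (p : ℝ))
    have h8 : 0 ≤ ∑ p ∈ pf7 x ∩ pf7 y, 1 / (p : ℝ) := Finset.sum_nonneg (fun p _ => by positivity)
    unfold s7
    linarith
  have h7 : (P.card : ℝ) ≤ (pf7 x).card + (pf7 y).card := by
    exact_mod_cast Finset.card_union_le _ _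
  have h8 : (8 : ℝ) * n ≤ 15 * gV n + 10 := by exact_mod_cast (gV_bounds n).1
  have h9 : (0 : ℝ) ≤ 8 / 15 * n := by positivity
  have h10 := mul_le_mul_of_nonneg_left h6 h9
  nlinarith

lemma pf7_card_le (n : ℕ) (hn : 6098 ≤ n) (x : ℕ) (hx : x ∈ US n) :
    250 * (pf7 x).card ≤ n / 6 := by
  rw [mem_US] at hx
  have h1 : 7 ^ (pf7 x).card ≤ n := by
    calc 7 ^ (pf7 x).card = ∏ p ∈ pf7 x, 7 := by rw [Finset.prod_const]
      _ ≤ ∏ p ∈ pf7 x, p := Finset.prod_le_prod' (fun p hp => pf7_ge p hp)
      _ ≤ ∏ p ∈ x.primeFactors, p := by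
          apply Finset.prod_le_prod_of_subset_of_one_le' (filter_subset _ _)
          intro p hp _
          exact (Nat.prime_of_mem_primeFactors hp).one_le
      _ ≤ x := Nat.le_of_dvd (by omega) (Nat.prod_primeFactors_dvd x)
      _ ≤ n := hx.2.1
  rcases Nat.lt_or_ge (pf7 x).card 5 with h | h
  · omega
  · have h2 : ∀ k : ℕ, 1500 * (5 + k) + 6 ≤ 7 ^ (5 + k) := by
      intro k
      induction k with
      | zero => norm_num
      | succ k ih =>
        rw [show 5 + (k + 1) = (5 + k) + 1 from rfl, pow_succ]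
        omega
    have h3 := h2 ((pf7 x).card - 5)
    have e : 5 + ((pf7 x).card - 5) = (pf7 x).card := by omega
    rw [e] at h3
    omega

theorem avail (n : ℕ) (hn : 6098 ≤ n) (x y : ℕ) (hx : x ∈ US n) (hy : y ∈ US n)
    (hxy : s7 y ≤ s7 x) (h4 : 18 * (n / 6) ≤ 100 * NB n (s7 x) + 100) :
    NB n (s7 x) + n / 6 + 2 ≤ (vc n x y).card := by
  have h1 := NB_main n hn (s7 x) h4
  have h2 := vc_lower n x y hx hy
  have h3 := pf7_card_le n hn x hx
  have h5 := pf7_card_le n hn y hy
  have h6 : 1016 ≤ n / 6 := by omega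
  set K : ℝ := ((n / 6 : ℕ) : ℝ) with hK
  have h7 : (1016 : ℝ) ≤ K := by rw [hK]; exact_mod_cast h6
  have h8 : (250 : ℝ) * (pf7 x).card ≤ K := by rw [hK]; exact_mod_cast h3
  have h9 : (250 : ℝ) * (pf7 y).card ≤ K := by rw [hK]; exact_mod_cast h5
  have h10 : 6 * K ≤ n := by
    rw [hK]
    have : 6 * (n / 6) ≤ n := Nat.mul_div_le n 6
    exact_mod_cast this
  have h11 : (0 : ℝ) ≤ NB n (s7 x) := by positivity
  have h12 : 0 ≤ 2.1877 - 6.4 * s7 x := by
    by_contra hneg
    push Not at hneg
    have : (2.1877 - 6.4 * s7 x) * K < 0 := mul_neg_of_neg_of_pos hneg (by linarith)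
    linarith
  have h13 : 0 ≤ 1 - 2 * s7 x := by
    norm_num at h12 ⊢
    linarith
  have h14 : (3.2 * K) * (1 - 2 * s7 x) ≤ (8 / 15 : ℝ) * n * (1 - s7 x - s7 y) := by
    have h15 : (3.2 * K) ≤ (8 / 15 : ℝ) * n := by
      norm_num; linarith
    have h16 : 1 - 2 * s7 x ≤ 1 - s7 x - s7 y := by linarith
    calc (3.2 * K) * (1 - 2 * s7 x) ≤ ((8 / 15 : ℝ) * n) * (1 - 2 * s7 x) :=
          mul_le_mul_of_nonneg_right h15 h13
      _ ≤ _ := mul_le_mul_of_nonneg_left h16 (by positivity)
  have h17 : (NB n (s7 x) : ℝ) + K + 2 ≤ ((vc n x y).card : ℝ) := by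
    norm_num at h1 h14 ⊢
    nlinarith
  rw [hK] at h17
  exact_mod_cast h17

lemma card_VS_sdiff (n : ℕ) (A : Finset ℕ) (hA : A ⊆ Icc 1 n)
    (hc : A.card = n / 2 + n / 3 - n / 6 + 1) :
    (VS n \ A).card + 1 = (A ∩ US n).card := by
  classical
  have h1 : A.card = (A ∩ US n).card + (A ∩ VS n).card := by
    rw [← Finset.card_union_of_disjoint]
    · congr 1
      rw [← Finset.inter_union_distrib_left, Pool.Agent.H15.CG.US_union_VS]
      exact (Finset.inter_eq_left.mpr hA).symm
    · exact (Pool.Agent.H15.CG.US_disj_VS n).mono inter_subset_right inter_subset_right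
  have h2 := Finset.card_sdiff_add_card_inter (VS n) A
  rw [Finset.inter_comm] at h2
  have h3 := card_VS n
  omega

/-- **Strategy B**: many members coprime to 6. -/
theorem largeB118 (n : ℕ) (hn : 6098 ≤ n) (A : Finset ℕ) (hA : A ⊆ Icc 1 n)
    (hc : A.card = n / 2 + n / 3 - n / 6 + 1) (hR : 118 * (n / 6) ≤ 100 * (A ∩ US n).card)
    (K : ℕ) (hK : 1 ≤ K) (hK2 : 2 * K ≤ n / 3) : HasCyc A (2 * K + 1) := by
  classical
  set R := A ∩ US n with hRdef
  set ρ := R.card with hρ
  have hmu := card_VS_sdiff n A hA hc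
  rw [← hRdef, ← hρ] at hmu
  have hK0 : 1016 ≤ n / 6 := by omega
  have hKle : K ≤ n / 6 := by omega
  have hRU : R ⊆ US n := inter_subset_right
  have hRA : R ⊆ A := inter_subset_left
  obtain ⟨e0, f1, f2, f3⟩ := sorted_enum R s7
  rw [← hρ] at f1 f2 f3
  -- the direct pair
  obtain ⟨i0, hi0, j0, hj0, hij0, he0⟩ :=
    Finset.exists_ne_map_eq_of_card_lt_of_maps_to
      (s := Ico (ρ - (n / 6) - 2) ρ) (t := range (n / 6 + 1)) (f := fun i => e0 i / 6) (by
        rw [card_range, Nat.card_Ico]; omega) (by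
        intro i hi
        rw [mem_coe, mem_Ico] at hi
        have := hRU (f1 i hi.2)
        rw [mem_US] at this
        rw [mem_coe, mem_range]
        simp only
        omega)
  rw [mem_Ico] at hi0 hj0
  set a := e0 i0 with ha
  set b := e0 j0 with hb
  have haR : a ∈ R := f1 i0 hi0.2
  have hbR : b ∈ R := f1 j0 hj0.2
  have hab : a ≠ b := fun h => hij0 (f2 i0 hi0.2 j0 hj0.2 h)
  have hcop : Nat.Coprime b a := by
    have h1 := hRU haR
    have h2 := hRU hbR
    rw [mem_US] at h1 h2
    rcases Nat.lt_or_gt_of_ne hab with h | h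
    · exact (Pool.Agent.H15.CG.coprime_of_diff (a := a) (b := b) (by omega) (by omega)).symm
    · exact Pool.Agent.H15.CG.coprime_of_diff (a := b) (b := a) (by omega) (by omega)
  have hNa : ρ ≤ NB n (s7 a) + n / 6 + 1 := by
    have := NB_ge_of_sorted n R hRU e0 f1 f2 f3 i0 hi0.2
    rw [← ha] at this
    omega
  have hNb : ρ ≤ NB n (s7 b) + n / 6 + 1 := by
    have := NB_ge_of_sorted n R hRU e0 f1 f2 f3 j0 hj0.2
    rw [← hb] at this
    omega
  -- the rest
  set X := (R.erase a).erase b with hX
  have hXc : X.card = ρ - 2 := by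
    rw [hX, Finset.card_erase_of_mem, Finset.card_erase_of_mem haR]
    · omega
    · exact Finset.mem_erase.mpr ⟨hab.symm, hbR⟩
  have hXR : X ⊆ R := (erase_subset _ _).trans (erase_subset _ _)
  obtain ⟨e, g1, g2, g3⟩ := sorted_enum X s7
  have hN := NB_ge_of_sorted n X (hXR.trans hRU) e g1 g2 g3
  rw [hXc] at g1 g2 g3 hN
  set m := ρ - 2 with hm
  have hmK : K + 1 ≤ m := by omega
  set B : ℕ → ℕ := fun i => if i = 0 ∨ i = K + 1 then a else if i = K then b else e (m - K + i)
    with hB
  have hB0 : B 0 = a := by simp [hB]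
  have hBK1 : B (K + 1) = a := by simp [hB]
  have hBK : B K = b := by
    simp only [hB]
    rw [if_neg (by omega), if_pos trivial]
  have hBe : ∀ i, 1 ≤ i → i < K → B i = e (m - K + i) := by
    intro i h1 h2
    simp only [hB]
    rw [if_neg (by omega), if_neg (by omega)]
  have hBX : ∀ i, 1 ≤ i → i < K → B i ∈ X := by
    intro i h1 h2
    rw [hBe i h1 h2]
    exact g1 _ (by omega)
  have hXa : a ∉ X := by simp [hX]
  have hXb : b ∉ X := by simp [hX]
  have hBR : ∀ i, i ≤ K + 1 → B i ∈ R := by
    intro i hi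
    by_cases h0 : i = 0
    · rw [h0, hB0]; exact haR
    · by_cases h1 : i = K + 1
      · rw [h1, hBK1]; exact haR
      · by_cases h2 : i = K
        · rw [h2, hBK]; exact hbR
        · exact hXR (hBX i (by omega) (by omega))
  have hBN : ∀ i, i ≤ K + 1 → ρ ≤ NB n (s7 (B i)) + n / 6 + 1 := by
    intro i hi
    by_cases h0 : i = 0
    · rw [h0, hB0]; exact hNa
    · by_cases h1 : i = K + 1
      · rw [h1, hBK1]; exact hNa
      · by_cases h2 : i = K
        · rw [h2, hBK]; exact hNb
        · rw [hBe i (by omega) (by omega)]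
          have := hN (m - K + i) (by omega)
          omega
  -- candidates
  set S : ℕ → Finset ℕ := fun i =>
    (VS n ∩ A).filter (fun v => Nat.Coprime (B i) v ∧ Nat.Coprime v (B (i + 1))) with hS
  have hScard : ∀ i, (vc n (B i) (B (i + 1))).card + 1 ≤ (S i).card + ρ := by
    intro i
    have := Pool.Agent.H15.CG.card_filter_inter (VS n) A
      (fun v => Nat.Coprime (B i) v ∧ Nat.Coprime v (B (i + 1)))
    simp only [hS]
    unfold vc
    omega
  have hpair : ∀ x y, x ∈ US n → y ∈ US n → ρ ≤ NB n (s7 x) + n / 6 + 1 →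
      ρ ≤ NB n (s7 y) + n / 6 + 1 → ρ + 1 ≤ (vc n x y).card := by
    intro x y hx hy h1 h2
    rcases le_total (s7 y) (s7 x) with h | h
    · have := avail n hn x y hx hy h (by omega)
      omega
    · have := avail n hn y x hy hx h (by omega)
      rw [vc_comm] at this
      omega
  have hfin := Pool.Agent.H15.CG.builder_rank (A := A) (K + 1) B (range K) S
    (fun i => if i = 0 ∨ i + 1 = K then 0 else i) (by omega)
    (by intro i hi; rw [mem_range] at hi; omega)
    (fun i hi => hRA (hBR i (by omega)))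
    (by
      intro i hi j hj hij
      by_cases hi0' : i = 0
      · by_cases hj0' : j = 0
        · omega
        · rw [hi0', hB0] at hij
          by_cases hjK : j = K
          · rw [hjK, hBK] at hij
            exact absurd hij hab
          · have := hBX j (by omega) (by omega)
            rw [← hij] at this
            exact absurd this hXa
      · by_cases hj0' : j = 0
        · rw [hj0', hB0] at hij
          by_cases hiK : i = K
          · rw [hiK, hBK] at hij
            exact absurd hij.symm hab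
          · have := hBX i (by omega) (by omega)
            rw [hij] at this
            exact absurd this hXa
        · by_cases hiK : i = K
          · by_cases hjK : j = K
            · omega
            · rw [hiK, hBK] at hij
              have := hBX j (by omega) (by omega)
              rw [← hij] at this
              exact absurd this hXb
          · by_cases hjK : j = K
            · rw [hjK, hBK] at hij
              have := hBX i (by omega) (by omega)
              rw [hij] at this
              exact absurd this hXb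
            · rw [hBe i (by omega) (by omega), hBe j (by omega) (by omega)] at hij
              have := g2 _ (by omega) _ (by omega) hij
              omega)
    (by rw [hBK1, hB0])
    (by
      intro i hi hiJ
      rw [mem_range] at hiJ
      have : i = K := by omega
      subst this
      rw [hBK, hBK1]
      exact hcop)
    (by
      intro i _ x hx
      simp only [hS, mem_filter, mem_inter] at hx
      exact hx.1.2)
    (by
      intro i _ x hx j hj hxj
      simp only [hS, mem_filter, mem_inter] at hx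
      have h1 := hRU (hBR j (by omega))
      rw [← hxj] at h1
      exact Finset.disjoint_left.mp (Pool.Agent.H15.CG.US_disj_VS n) h1 hx.1.1)
    (by
      intro i _ x hx
      simp only [hS, mem_filter] at hx
      exact hx.2)
    (by
      intro i hi
      rw [mem_range] at hi
      have hx := hRU (hBR i (by omega))
      have hy := hRU (hBR (i + 1) (by omega))
      have hSi := hScard i
      by_cases hsp : i = 0 ∨ i + 1 = K
      · -- special gap
        have h1 : ((range K).filter (fun j => (if j = 0 ∨ j + 1 = K then 0 else j)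
            ≤ (if i = 0 ∨ i + 1 = K then 0 else i))).card ≤ 2 := by
          calc _ ≤ ({0, K - 1} : Finset ℕ).card := by
                apply Finset.card_le_card
                intro j hj
                rw [mem_filter, mem_range, if_pos hsp] at hj
                rw [mem_insert, mem_singleton]
                by_cases h : j = 0 ∨ j + 1 = K
                · omega
                · rw [if_neg h] at hj
                  omega
            _ ≤ 2 := Finset.card_le_two
        have h2 := hpair _ _ hx hy (hBN i (by omega)) (hBN (i + 1) (by omega))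
        omega
      · have h1 : ((range K).filter (fun j => (if j = 0 ∨ j + 1 = K then 0 else j)
            ≤ (if i = 0 ∨ i + 1 = K then 0 else i))).card ≤ i + 2 := by
          calc _ ≤ (insert (K - 1) (range (i + 1))).card := by
                apply Finset.card_le_card
                intro j hj
                rw [mem_filter, mem_range, if_neg hsp] at hj
                rw [mem_insert, mem_range]
                by_cases h : j = 0 ∨ j + 1 = K
                · omega
                · rw [if_neg h] at hj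
                  omega
            _ ≤ (range (i + 1)).card + 1 := Finset.card_insert_le _ _
            _ = i + 2 := by rw [card_range]
        have hi1 : 1 ≤ i := by omega
        have hi2 : i + 1 < K := by omega
        have hs : s7 (B (i + 1)) ≤ s7 (B i) := by
          rw [hBe i hi1 (by omega), hBe (i + 1) (by omega) hi2]
          exact g3 _ (by omega) _ (by omega) (by omega)
        have hNi : m - K + i + 1 ≤ NB n (s7 (B i)) := by
          rw [hBe i hi1 (by omega)]
          exact hN _ (by omega)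
        have h2 := avail n hn _ _ hx hy hs (by omega)
        omega)
  have hl : K + 1 + (range K).card = 2 * K + 1 := by
    rw [card_range]; ring
  rw [hl] at hfin
  exact hfin

theorem largeB (n : ℕ) (hn : 6098 ≤ n) (A : Finset ℕ) (hA : A ⊆ Icc 1 n)
    (hc : A.card = n / 2 + n / 3 - n / 6 + 1) (hR : 5 * (n / 6) ≤ 4 * (A ∩ US n).card)
    (K : ℕ) (hK : 1 ≤ K) (hK2 : 2 * K ≤ n / 3) : HasCyc A (2 * K + 1) :=
  largeB118 n hn A hA hc (by omega) K hK hK2

end Pool.Agent.H2.Cop
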