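import Pool.Agent.H2.Cop.Omega

set_option autoImplicit false

/-!
Second moments, numerical bounds for sums and products over primes.
-/

namespace Pool.Agent.H2.Cop

open Finset

/-- Second moment of `∑_{p ∣ x, p ∈ P} w p` over `X`. -/
theorem second_moment (X P : Finset ℕ) (w : ℕ → ℝ) (hw : ∀ p ∈ P, 0 ≤ w p) (a b : ℝ)
    (hX1 : ∀ p ∈ P, ((X.filter (fun x => p ∣ x)).card : ℝ) ≤ a / p + b)
    (hX2 : ∀ p ∈ P, ∀ q ∈ P, p ≠ q →
      ((X.filter (fun x => p ∣ x ∧ q ∣ x)).card : ℝ) ≤ a / (p * q) + b) :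
    ∑ x ∈ X, (∑ p ∈ P.filter (fun p => p ∣ x), w p) ^ 2
      ≤ a * (∑ p ∈ P, w p ^ 2 / p + (∑ p ∈ P, w p / p) ^ 2 - ∑ p ∈ P, (w p / p) ^ 2)
        + b * (∑ p ∈ P, w p) ^ 2 := by
  have h1 : ∀ x ∈ X, (∑ p ∈ P.filter (fun p => p ∣ x), w p) ^ 2
      = ∑ p ∈ P, ∑ q ∈ P, if (p ∣ x ∧ q ∣ x) then w p * w q else 0 := by
    intro x _
    rw [sq, Finset.sum_mul_sum, Finset.sum_filter]
    apply Finset.sum_congr rfl
    intro p _
    by_cases hp : p ∣ x
    · simp only [hp, if_true, true_and]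
      rw [Finset.sum_filter]
    · simp [hp]
  rw [Finset.sum_congr rfl h1, Finset.sum_comm]
  have h2 : ∀ p ∈ P, (∑ x ∈ X, ∑ q ∈ P, if (p ∣ x ∧ q ∣ x) then w p * w q else 0)
      ≤ a * (w p ^ 2 / p + (∑ q ∈ P, w q / q) * (w p / p) - (w p / p) ^ 2)
        + b * (w p * ∑ q ∈ P, w q) := by
    intro p hp
    rw [Finset.sum_comm]
    have h3 : ∀ q ∈ P, (∑ x ∈ X, if (p ∣ x ∧ q ∣ x) then w p * w q else 0)
        ≤ (a * (w p / p * (w q / q)) + b * (w p * w q))
          + (if q = p then a * (w p ^ 2 / p - (w p / p) ^ 2) else 0) := by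
      intro q hq
      rw [← Finset.sum_filter, Finset.sum_const, nsmul_eq_mul]
      have hwp := hw p hp
      have hwq := hw q hq
      by_cases hpq : q = p
      · subst hpq
        simp only [and_self, if_true]
        have := mul_le_mul_of_nonneg_right (hX1 q hq) (mul_nonneg hwp hwp)
        calc ((X.filter (fun x => q ∣ x)).card : ℝ) * (w q * w q) ≤ (a / q + b) * (w q * w q) := this
          _ = _ := by ring
      · simp only [hpq, if_false, add_zero]
        have := mul_le_mul_of_nonneg_right (hX2 p hp q hq (fun h => hpq h.symm))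
          (mul_nonneg hwp hwq)
        refine this.trans (le_of_eq ?_)
        have e : a / ((p : ℝ) * q) = a * (1 / p) * (1 / q) := by
          rw [div_eq_mul_inv, mul_inv]; ring
        rw [e]; ring
    refine (Finset.sum_le_sum h3).trans (le_of_eq ?_)
    rw [Finset.sum_add_distrib, Finset.sum_ite_eq' P p]
    simp only [hp, if_true]
    rw [Finset.sum_add_distrib, ← Finset.mul_sum, ← Finset.mul_sum, ← Finset.mul_sum,
      ← Finset.mul_sum]
    ring
  refine (Finset.sum_le_sum h2).trans (le_of_eq ?_)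
  rw [Finset.sum_add_distrib, ← Finset.mul_sum, Finset.sum_sub_distrib, Finset.sum_add_distrib,
    ← Finset.mul_sum, ← Finset.mul_sum, ← Finset.sum_mul]
  ring

/-- Telescoping bound for sums over odd numbers. -/
theorem odd_tail (Q : Finset ℕ) (B : ℕ) (f g : ℕ → ℝ) (hQ : ∀ m ∈ Q, B ≤ m ∧ (m - B) % 2 = 0)
    (hf : ∀ m, B ≤ m → 0 ≤ f m) (hfg : ∀ m, B ≤ m → f m ≤ g m - g (m + 2))
    (hg : ∀ m, B ≤ m → 0 ≤ g m) : ∑ m ∈ Q, f m ≤ g B := by
  set N := Q.sup id + 1 with hN
  have hsub : Q ⊆ (range N).image (fun j => B + 2 * j) := by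
    intro m hm
    obtain ⟨h1, h2⟩ := hQ m hm
    have h3 : m ≤ Q.sup id := Finset.le_sup (f := id) hm
    rw [mem_image]
    refine ⟨(m - B) / 2, ?_, by omega⟩
    rw [mem_range]; omega
  have hinj : Set.InjOn (fun j => B + 2 * j) (range N : Set ℕ) := by
    intro a _ b _ hab
    simp only at hab; omega
  have h1 : ∑ m ∈ Q, f m ≤ ∑ m ∈ (range N).image (fun j => B + 2 * j), f m := by
    apply Finset.sum_le_sum_of_subset_of_nonneg hsub
    intro m hm _
    rw [mem_image] at hm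
    obtain ⟨j, _, rfl⟩ := hm
    exact hf _ (by omega)
  rw [Finset.sum_image hinj] at h1
  have h2 : ∀ M : ℕ, ∑ j ∈ range M, f (B + 2 * j) ≤ g B - g (B + 2 * M) := by
    intro M
    induction M with
    | zero => simp
    | succ M ih =>
      rw [Finset.sum_range_succ]
      have := hfg (B + 2 * M) (by omega)
      have e : B + 2 * (M + 1) = B + 2 * M + 2 := by ring
      rw [e]; linarith
  have h3 := h2 N
  have h4 := hg (B + 2 * N) (by omega)
  linarith

/-- the primes in `[7, 101)` -/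
def smallPrimes : Finset ℕ :=
  {7, 11, 13, 17, 19, 23, 29, 31, 37, 41, 43, 47, 53, 59, 61, 67, 71, 73, 79, 83, 89, 97}

lemma mem_smallPrimes {p : ℕ} (hp : p.Prime) (h7 : 7 ≤ p) (h : p < 101) : p ∈ smallPrimes := by
  unfold smallPrimes
  have : p ∈ (Ico 7 101).filter Nat.Prime := by simp [hp, h7, h]
  have e : (Ico 7 101).filter Nat.Prime = smallPrimes := by decide
  rw [e] at this
  exact this

/-- Sum over a set of primes `≥ 7`: explicit part plus tail. -/
theorem sum_primes_le (P : Finset ℕ) (hP : ∀ p ∈ P, p.Prime) (h7 : ∀ p ∈ P, 7 ≤ p)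
    (f g : ℕ → ℝ) (hf0 : ∀ p, 7 ≤ p → 0 ≤ f p)
    (hfg : ∀ m, 101 ≤ m → f m ≤ g m - g (m + 2)) (hg : ∀ m, 101 ≤ m → 0 ≤ g m) :
    ∑ p ∈ P, f p ≤ ∑ p ∈ smallPrimes, f p + g 101 := by
  rw [← Finset.sum_filter_add_sum_filter_not P (fun p => p < 101)]
  have h1 : ∑ p ∈ P.filter (fun p => p < 101), f p ≤ ∑ p ∈ smallPrimes, f p := by
    apply Finset.sum_le_sum_of_subset_of_nonneg
    · intro p hp
      rw [mem_filter] at hp
      exact mem_smallPrimes (hP p hp.1) (h7 p hp.1) hp.2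
    · intro p hp _
      apply hf0
      have : ∀ q ∈ smallPrimes, 7 ≤ q := by decide
      exact this p hp
  have h2 : ∑ p ∈ P.filter (fun p => ¬ p < 101), f p ≤ g 101 := by
    apply odd_tail _ 101 f g
    · intro m hm
      rw [mem_filter] at hm
      refine ⟨by omega, ?_⟩
      have := (hP m hm.1).eq_two_or_odd
      omega
    · intro m hm; exact hf0 m (by omega)
    · exact hfg
    · exact hg
  linarith

/-- `∑ 1/p²` over primes `≥ 7`. -/
theorem sum_inv_sq (P : Finset ℕ) (hP : ∀ p ∈ P, p.Prime) (h7 : ∀ p ∈ P, 7 ≤ p) :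
    ∑ p ∈ P, 1 / (p : ℝ) ^ 2 ≤ 0.05434 := by
  have h := sum_primes_le P hP h7 (fun p => 1 / (p : ℝ) ^ 2) (fun m => 1 / (2 * ((m : ℝ) - 1)))
    (fun p _ => by positivity) (by
      intro m hm
      have hm' : (101 : ℝ) ≤ m := by exact_mod_cast hm
      have e : 1 / (2 * ((m : ℝ) - 1)) - 1 / (2 * (((m + 2 : ℕ) : ℝ) - 1))
          = 1 / ((m : ℝ) ^ 2 - 1) := by
        push_cast
        have h1 : (m : ℝ) - 1 ≠ 0 := by linarith
        have h2 : (m : ℝ) + 2 - 1 ≠ 0 := by linarith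
        have h3 : (m : ℝ) ^ 2 - 1 ≠ 0 := by nlinarith
        field_simp
        ring
      rw [e]
      apply one_div_le_one_div_of_le <;> nlinarith) (by
      intro m hm
      have hm' : (101 : ℝ) ≤ m := by exact_mod_cast hm
      apply div_nonneg <;> linarith)
  refine h.trans ?_
  simp only [smallPrimes]
  norm_num [Finset.sum_insert]

/-- `∑ 1/p³` over primes `≥ 7`. -/
theorem sum_inv_cube (P : Finset ℕ) (hP : ∀ p ∈ P, p.Prime) (h7 : ∀ p ∈ P, 7 ≤ p) :
    ∑ p ∈ P, 1 / (p : ℝ) ^ 3 ≤ 0.00477 := by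
  have h := sum_primes_le P hP h7 (fun p => 1 / (p : ℝ) ^ 3)
    (fun m => 1 / (202 * ((m : ℝ) - 1)))
    (fun p _ => by positivity) (by
      intro m hm
      have hm' : (101 : ℝ) ≤ m := by exact_mod_cast hm
      have e : 1 / (202 * ((m : ℝ) - 1)) - 1 / (202 * (((m + 2 : ℕ) : ℝ) - 1))
          = 1 / (101 * ((m : ℝ) ^ 2 - 1)) := by
        push_cast
        have h1 : (m : ℝ) - 1 ≠ 0 := by linarith
        have h2 : (m : ℝ) + 2 - 1 ≠ 0 := by linarith
        have h3 : (m : ℝ) ^ 2 - 1 ≠ 0 := by nlinarith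
        field_simp
        ring
      rw [e]
      apply one_div_le_one_div_of_le
      · nlinarith
      · nlinarith [sq_nonneg ((m : ℝ))]) (by
      intro m hm
      have hm' : (101 : ℝ) ≤ m := by exact_mod_cast hm
      apply div_nonneg <;> linarith)
  refine h.trans ?_
  simp only [smallPrimes]
  norm_num [Finset.sum_insert]

/-- `(1+t)^24 - 1 ≤ 27 t` for `0 ≤ t ≤ 1/100`. -/
lemma pow24_sub_one_le {t : ℝ} (h0 : 0 ≤ t) (h1 : t ≤ 1 / 100) :
    (1 + t) ^ 24 - 1 ≤ 27 * t := by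
  have h2 : (1 + t) ^ 24 - 1 = t * ∑ j ∈ range 24, (1 + t) ^ j := by
    have := mul_geom_sum (1 + t) 24
    rw [← this]; ring
  have h3 : ∑ j ∈ range 24, (1 + t) ^ j ≤ ∑ j ∈ range 24, (1 + 1 / 100 : ℝ) ^ j := by
    apply Finset.sum_le_sum
    intro j _
    apply pow_le_pow_left₀ (by linarith)
    linarith
  have h4 : ∑ j ∈ range 24, (1 + 1 / 100 : ℝ) ^ j ≤ 27 := by
    norm_num [Finset.sum_range_succ]
  rw [h2, mul_comm]
  exact mul_le_mul_of_nonneg_right (h3.trans h4) h0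

/-- the weights `h p = (1 - 1/p)^(-24) - 1` -/
noncomputable def hw (p : ℕ) : ℝ := ((1 - 1 / (p : ℝ))⁻¹) ^ 24 - 1

lemma inv_one_sub {p : ℕ} (hp : 2 ≤ p) : (1 - 1 / (p : ℝ))⁻¹ = 1 + 1 / ((p : ℝ) - 1) := by
  have hp' : (2 : ℝ) ≤ p := by exact_mod_cast hp
  have h1 : (p : ℝ) - 1 ≠ 0 := by linarith
  have h2 : (p : ℝ) ≠ 0 := by linarith
  have h3 : 1 - 1 / (p : ℝ) = ((p : ℝ) - 1) / p := by field_simp
  rw [h3, inv_div]
  field_simp
  ring

lemma hw_nonneg {p : ℕ} (hp : 2 ≤ p) : 0 ≤ hw p := by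
  unfold hw
  rw [inv_one_sub hp]
  have hp' : (2 : ℝ) ≤ p := by exact_mod_cast hp
  have h1 : 0 ≤ 1 / ((p : ℝ) - 1) := by
    apply div_nonneg <;> linarith
  have := one_le_pow₀ (n := 24) (by linarith : (1 : ℝ) ≤ 1 + 1 / ((p : ℝ) - 1))
  linarith

lemma hw_tail {m : ℕ} (hm : 101 ≤ m) :
    hw m / m ≤ 27 / 2 / ((m : ℝ) - 2) - 27 / 2 / (((m + 2 : ℕ) : ℝ) - 2) := by
  have hm' : (101 : ℝ) ≤ m := by exact_mod_cast hm
  have h1 : hw m ≤ 27 * (1 / ((m : ℝ) - 1)) := by
    unfold hw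
    rw [inv_one_sub (by omega)]
    apply pow24_sub_one_le
    · apply div_nonneg <;> linarith
    · apply one_div_le_one_div_of_le <;> linarith
  have e : 27 / 2 / ((m : ℝ) - 2) - 27 / 2 / (((m + 2 : ℕ) : ℝ) - 2)
      = 27 / (((m : ℝ) - 2) * m) := by
    push_cast
    have h2 : (m : ℝ) - 2 ≠ 0 := by linarith
    have h3 : (m : ℝ) ≠ 0 := by linarith
    have h4 : (m : ℝ) + 2 - 2 = m := by ring
    rw [h4]
    field_simp
    ring
  rw [e, div_le_div_iff₀ (by linarith) (by nlinarith)]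
  have h5 : hw m * (((m : ℝ) - 2) * m) ≤ 27 * (1 / ((m : ℝ) - 1)) * (((m : ℝ) - 2) * m) := by
    apply mul_le_mul_of_nonneg_right h1
    nlinarith
  refine h5.trans ?_
  have h6 : (1 / ((m : ℝ) - 1)) * ((m : ℝ) - 2) ≤ 1 := by
    rw [one_div, inv_mul_le_iff₀ (by linarith)]; linarith
  nlinarith

/-- The numerical constant: `∏ (1 + h_p / p) ≤ 37` over primes `≥ 7`. -/
theorem prod_hw_le (P : Finset ℕ) (hP : ∀ p ∈ P, p.Prime) (h7 : ∀ p ∈ P, 7 ≤ p) :
    ∏ p ∈ P, (1 + hw p / p) ≤ 37 := by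
  rw [← Finset.prod_filter_mul_prod_filter_not P (fun p => p < 101)]
  have h1 : ∏ p ∈ P.filter (fun p => p < 101), (1 + hw p / p)
      ≤ ∏ p ∈ smallPrimes, (1 + hw p / p) := by
    have hsub : P.filter (fun p => p < 101) ⊆ smallPrimes := by
      intro p hp
      rw [mem_filter] at hp
      exact mem_smallPrimes (hP p hp.1) (h7 p hp.1) hp.2
    rw [← Finset.prod_sdiff hsub]
    have h2 : (1 : ℝ) ≤ ∏ p ∈ smallPrimes \ P.filter (fun p => p < 101), (1 + hw p / p) := by
      apply Finset.one_le_prod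
      intro p hp
      have : ∀ q ∈ smallPrimes, 7 ≤ q := by decide
      have h3 := this p (mem_sdiff.mp hp).1
      have := hw_nonneg (p := p) (by omega)
      have : 0 ≤ hw p / p := by positivity
      linarith
    have h3 : 0 ≤ ∏ p ∈ P.filter (fun p => p < 101), (1 + hw p / p) := by
      apply Finset.prod_nonneg
      intro p hp
      rw [mem_filter] at hp
      have := hw_nonneg (p := p) (by have := h7 p hp.1; omega)
      positivity
    nlinarith
  have h2 : ∏ p ∈ P.filter (fun p => ¬ p < 101), (1 + hw p / p) ≤ 1.158 := by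
    have h3 : ∏ p ∈ P.filter (fun p => ¬ p < 101), (1 + hw p / p)
        ≤ Real.exp (∑ p ∈ P.filter (fun p => ¬ p < 101), hw p / p) := by
      rw [Real.exp_sum]
      apply Finset.prod_le_prod
      · intro p hp
        rw [mem_filter] at hp
        have := hw_nonneg (p := p) (by have := h7 p hp.1; omega)
        positivity
      · intro p _
        have := Real.add_one_le_exp (hw p / p)
        linarith
    have h4 : ∑ p ∈ P.filter (fun p => ¬ p < 101), hw p / p ≤ 27 / 2 / (((101 : ℕ) : ℝ) - 2) := by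
      apply odd_tail _ 101 (fun p => hw p / p) (fun m => 27 / 2 / ((m : ℝ) - 2))
      · intro m hm
        rw [mem_filter] at hm
        refine ⟨by omega, ?_⟩
        have := (hP m hm.1).eq_two_or_odd
        omega
      · intro m hm
        have := hw_nonneg (p := m) (by omega)
        positivity
      · intro m hm
        exact hw_tail hm
      · intro m hm
        have hm' : (101 : ℝ) ≤ m := by exact_mod_cast hm
        apply div_nonneg <;> linarith
    have h5 : Real.exp (27 / 2 / (((101 : ℕ) : ℝ) - 2)) ≤ 1.158 := by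
      have h6 : (27 / 2 / (((101 : ℕ) : ℝ) - 2)) ≤ 0.1364 := by norm_num
      have h7 : Real.exp (0.1364) ≤ 1.158 := by
        have h8 := Real.one_sub_le_exp_neg (0.1364)
        rw [Real.exp_neg] at h8
        have h9 : (0 : ℝ) < Real.exp 0.1364 := Real.exp_pos _
        have h10 : Real.exp 0.1364 ≤ (1 - 0.1364)⁻¹ := by
          rw [le_inv_comm₀ h9 (by norm_num)]
          exact h8
        refine h10.trans ?_
        norm_num
      exact (Real.exp_le_exp.mpr h6).trans h7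
    exact h3.trans ((Real.exp_le_exp.mpr h4).trans h5)
  have h3 : ∏ p ∈ smallPrimes, (1 + hw p / p) ≤ 31.9 := by
    simp only [smallPrimes, hw]
    norm_num [Finset.prod_insert]
  have h4 : 0 ≤ ∏ p ∈ P.filter (fun p => ¬ p < 101), (1 + hw p / p) := by
    apply Finset.prod_nonneg
    intro p hp
    rw [mem_filter] at hp
    have := hw_nonneg (p := p) (by have := h7 p hp.1; omega)
    positivity
  calc _ ≤ (31.9 : ℝ) * (1.158) := by
        apply mul_le_mul (h1.trans h3) h2 h4 (by norm_num)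
    _ ≤ 37 := by norm_num

end Pool.Agent.H2.Cop
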